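import Pool.Agent.Lib.MP_d41870_lc.HM.K1

/-! Lower bounds of decreasing sequences. -/

set_option autoImplicit false
set_option linter.unusedSectionVars false

namespace Pool.Agent.Lib.MP_d41870_lc.HM

open Set

variable {K Θ : Type} [LinearOrder K] [W1 K] [LinearOrder Θ] [WellFoundedLT Θ] {nm : Θ → Nm K Θ}

/-- Row C1b.  Decreasing sequences have lower bounds.  PROOF.  `p m ≤ p n` for `n ≤ m`.  `q.l` from `exists_sup (fun n => (p n).l)`,
`q.F = ⋃ n, (p n).F`, `q.e α β ↔ ∃ n, β < (p n).l ∧ (p n).e α β`, `q.g η α = (p n).g η α` for the first (any) `n` with `η ∈ (p n).F`,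
`α < (p n).l` (independent of `n` by `le_def`).  `Nice`: below `(p n).l` the graph is that of `p n`.  `OK`: an edge `α β`, `β < q.l`, is an
edge of some `p n` with `η ∈ (p n).F`, `β < (p n).l`, and `q.res η ≤ (p n).res η`. -/
theorem fusion {ζ : WithTop Θ} (p : ℕ → Cond K Θ) (hp : ∀ n, p n ∈ PT nm ζ) (hd : ∀ n, p (n + 1) ≤ p n) :
    ∃ q ∈ PT nm ζ, (∀ n, q ≤ p n) ∧ (∀ c, c < q.l → ∃ n, c < (p n).l) ∧ ∀ η ∈ q.F, ∃ n, η ∈ (p n).F := by
  classical
  have hanti : ∀ n m, n ≤ m → p m ≤ p n := fun n m h => antitone_nat_of_succ_le hd h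
  obtain ⟨l, hl1, hl2⟩ := exists_sup (fun n => (p n).l)
  obtain ⟨G, hG⟩ : ∃ G : Θ → K → ℕ, ∀ η α n, η ∈ (p n).F → α < (p n).l →
      G η α = (p n).g η α := by
    refine ⟨fun η α => if h : ∃ n, η ∈ (p n).F ∧ α < (p n).l then (p h.choose).g η α else 0, ?_⟩
    intro η α n h1 h2
    have h : ∃ n, η ∈ (p n).F ∧ α < (p n).l := ⟨n, h1, h2⟩
    have h3 : (fun η α => if h : ∃ n, η ∈ (p n).F ∧ α < (p n).l then
        (p h.choose).g η α else 0) η α = (p h.choose).g η α := dif_pos h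
    refine h3.trans ?_
    obtain ⟨h4, h5⟩ := h.choose_spec
    have h6 := (hanti _ _ (le_max_left h.choose n)).2.2.2 η h4 α h5
    have h7 := (hanti _ _ (le_max_right h.choose n)).2.2.2 η h1 α h2
    exact h6.symm.trans h7
  have he : ∀ α β n, α < β → β < (p n).l →
      ((∃ m, β < (p m).l ∧ (p m).e α β) ↔ (p n).e α β) := by
    intro α β n h1 h2
    constructor
    · rintro ⟨m, h3, h4⟩
      have h5 := (hanti _ _ (le_max_left m n)).2.2.1 α β h1 h3
      have h6 := (hanti _ _ (le_max_right m n)).2.2.1 α β h1 h2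
      exact h6.1 (h5.2 h4)
    · exact fun h => ⟨n, h2, h⟩
  let q : Cond K Θ := ⟨l, ⋃ n, (p n).F, fun α β => ∃ m, β < (p m).l ∧ (p m).e α β, G⟩
  have hq : ∀ n, q ≤ p n := by
    intro n
    refine ⟨hl1 n, Set.subset_iUnion (fun n => (p n).F) n, fun α β h1 h2 => he α β n h1 h2, ?_⟩
    exact fun η hη α hα => hG η α n hη hα
  refine ⟨q, ⟨⟨Set.countable_iUnion fun n => (hp n).1.1, ?_⟩, ?_⟩, hq, hl2, ?_⟩
  · intro γ hγ η hη
    obtain ⟨n, hn⟩ := hl2 γ hγ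
    refine ((hp n).1.2 γ hn η hη).subset ?_
    rintro β ⟨h1, h2⟩
    exact ⟨h1, (he β γ n (h1.trans hη) hn).1 h2⟩
  · intro η hη
    obtain ⟨n2, hn2⟩ := Set.mem_iUnion.1 hη
    refine ⟨((hp n2).2 η hn2).1, ?_⟩
    intro α β h1 h2 h3 h4
    obtain ⟨n1, hn1⟩ := hl2 β h2
    have hk1 : β < (p (max n1 n2)).l := hn1.trans_le (hanti _ _ (le_max_left n1 n2)).1
    have hk2 : η ∈ (p (max n1 n2)).F := (hanti _ _ (le_max_right n1 n2)).2.1 hn2
    generalize max n1 n2 = k at hk1 hk2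
    have h5 : (p k).e α β := (he α β k h1 hk1).1 h3
    have h6 : q.g η α = (p k).g η α := hG η α k hk2 (h1.trans hk1)
    have h7 : q.g η β = (p k).g η β := hG η β k hk2 hk1
    have h8 : (p k).g η α = (p k).g η β := by rw [← h6, ← h7, h4]
    have hok : OKat (Pst nm η) (nm η) η (p k) := ((hp k).2 η hk2).2
    obtain ⟨h9, h10⟩ := hok α β h1 hk1 h5 h8
    have h11 : q.res η ≤ (p k).res η := res_mono (hq k) _
    constructor
    · intro hodd s hs hsq
      rw [h6] at hodd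
      exact h9 hodd s hs (hsq.trans h11)
    · intro hodd s hs hsq
      rw [h6] at hodd
      exact h10 hodd s hs (hsq.trans h11)
  · intro η hη
    exact Set.mem_iUnion.1 hη

/-- Row C1b.  PROOF.  Enumerate `S` (as `O : ℕ → Set (Cond K Θ)`; trivial if `S = ∅`): `p 0 = q`, `p (n+1) ≤ p n` in `Dec (PT nm ξ) (O n)`
(if some `s ≤ p n` is in `O n` take it, otherwise `p n`), `fusion`; `Dec` is closed under extensions as `O n` is open. -/
theorem exists_decide {ξ : WithTop Θ} {q : Cond K Θ} (hq : q ∈ PT nm ξ) (S : Set (Set (Cond K Θ)))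
    (hS : S.Countable) (hO : ∀ O ∈ S, OpenIn (PT nm ξ) O) :
    ∃ q' ∈ PT nm ξ, q' ≤ q ∧ ∀ O ∈ S, q' ∈ Dec (PT nm ξ) O := by
  classical
  rcases S.eq_empty_or_nonempty with rfl | hne
  · exact ⟨q, hq, le_refl q, fun O hO => absurd hO (Set.notMem_empty O)⟩
  obtain ⟨f, rfl⟩ := hS.exists_eq_range hne
  have step : ∀ (n : ℕ) (p : Cond K Θ), p ∈ PT nm ξ →
      ∃ s, s ∈ PT nm ξ ∧ s ≤ p ∧ s ∈ Dec (PT nm ξ) (f n) := by
    intro n p hp
    by_cases h : ∃ s ∈ PT nm ξ, s ≤ p ∧ s ∈ f n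
    · obtain ⟨s, hs, hsp, hsO⟩ := h
      exact ⟨s, hs, hsp, hs, Or.inl hsO⟩
    · exact ⟨p, hp, le_refl p, hp, Or.inr fun s hs hsp hsO => h ⟨s, hs, hsp, hsO⟩⟩
  choose! F hF1 hF2 hF3 using step
  let P : ℕ → Cond K Θ := fun n => Nat.rec q (fun n p => F n p) n
  have hP : ∀ n, P n ∈ PT nm ξ := by
    intro n
    induction n with
    | zero => exact hq
    | succ n ih => exact hF1 n (P n) ih
  obtain ⟨q', hq', hle, -, -⟩ := fusion P hP (fun n => hF2 n (P n) (hP n))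
  refine ⟨q', hq', hle 0, ?_⟩
  rintro O ⟨n, rfl⟩
  have h1 : P (n + 1) ∈ Dec (PT nm ξ) (f n) := hF3 n (P n) (hP n)
  refine ⟨hq', ?_⟩
  rcases h1.2 with h2 | h2
  · exact Or.inl (hO (f n) ⟨n, rfl⟩ _ (hP (n + 1)) q' hq' (hle (n + 1)) h2)
  · exact Or.inr fun s hs hsq => h2 s hs (hsq.trans (hle (n + 1)))

end Pool.Agent.Lib.MP_d41870_lc.HM
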