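import Pool.Agent.Lib.MP_d41870_lc.HM.La
import Pool.Agent.Lib.MP_d41870_lc.HM.C1b

/-! Limit stages. -/

set_option autoImplicit false
set_option linter.unusedSectionVars false

namespace Pool.Agent.Lib.MP_d41870_lc.HM

open Set

variable {K Θ : Type} [LinearOrder K] [W1 K] [LinearOrder Θ] [WellFoundedLT Θ] [OrderBot Θ] {nm : Θ → Nm K Θ}
  {M : Mod nm} {b : ℕ → K}

/-- Row Lb.  PROOF.  `exists_seq` (row Ga) on states `a = (ξ, q, p)`, `I a`: `ξ ∈ M.TH`, `ξ < ζ`, `Good M b ξ q`, `p ∈ M.CO`, `p ∈ PT nm ζ`, `IsS p.l`, `q ≤ p.res ξ`;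
`r a' a`: `ξ ≤ ξ'`, `q' ≤ q`, `p' ≤ p`.  Tasks (a countable type, a sum): (1) `η ∈ M.TH` with `η < ζ`: `η < ξ'`; (2) `(X, β, γ)`, `X ∈ M.XX ζ`, `β, γ < M.δ`:
`p' ∈ Dec (PT nm ζ) (X β γ)`; (3) `(X, i₀)`: `(∃ i ≥ i₀, ∃ γ ≤ b (i+1), p' ∈ X (b i) γ) ∨ ∀ r ∈ PT nm ζ, r ≤ p' → r.res ξ' ≤ q' → ∀ γ, r ∉ X M.δ γ`.
The steps: (2) and (3): `lim_dec`, `lim_hit` with `ξ' = ξ`, `q' = q`; (1): `hsucc` gives `ξ' > max ξ η` in `M.TH`, below `ζ`; `hIH` with `q` and `p.res ξ'`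
(in `M.CO` by `M.res`, of level `ξ'` by `res_mem`, `(p.res ξ').res ξ = p.res ξ`) gives `q'`.
Let `q'` be the `fusion` (in `PT nm ζ`, `PT_mono`) of the `q n`.  `q' ≤ p n`: stages `η ∈ (p n).F` are in `M.TH` (`M.supp`) and `< ζ`, so `η < ξ k` for some `k ≥ n`, `η ∈ (p k).F`,
`q' ≤ q k ≤ (p k).res (ξ k)`; graph: `q' ≤ q n ≤ (p n).res (ξ n)`.  `Good M b ζ q'`: `len`, `edge` from `q' ≤ q 0`; `gen` from the tasks (2); `good`: tasks (3); if the second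
alternative holds for the state `n` then there is no `r ≤ q'` in `X M.δ γ` (`r ≤ q' ≤ p n`, and `r.res (ξ n) ≤ q n` by `res_le_iff`); otherwise `q' ≤ p n` is in
`X (b i) γ` (`M.opn`). -/
theorem T_lim (hb : Lad M.δ b) {ζ : WithTop Θ} (hζ : ζ = ⊤ ∨ ∃ η ∈ M.TH, ζ = (η : WithTop Θ))
    (hsucc : ∀ μ ∈ M.TH, (μ : WithTop Θ) < ζ → ∃ ν ∈ M.TH, μ < ν ∧ (ν : WithTop Θ) < ζ)
    (hIH : ∀ ξ ∈ M.TH, ∀ η ∈ M.TH, ξ < η → (η : WithTop Θ) < ζ → Ext M b ξ η)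
    {ξ : Θ} (hξ : ξ ∈ M.TH) (hξζ : (ξ : WithTop Θ) < ζ) : Ext M b ξ ζ := by
  intro q p hq hp hpζ hl hqp
  classical
  have c1 : Countable ({η : Θ // η ∈ M.TH ∧ (η : WithTop Θ) < ζ}) :=
    (M.cTH.mono (fun η hη => hη.1 : {η | η ∈ M.TH ∧ (η : WithTop Θ) < ζ} ⊆ M.TH)).to_subtype
  have c2 : Countable (M.XX ζ) := (M.cXX ζ).to_subtype
  have c3 : Countable (Iio M.δ) := (W1.cnt M.δ).to_subtype
  obtain ⟨P, hP0, hI, hr, hT⟩ := exists_seq (A := Θ × Cond K Θ × Cond K Θ)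
    (ι := {η : Θ // η ∈ M.TH ∧ (η : WithTop Θ) < ζ} ⊕
      ((M.XX ζ × Iio M.δ × Iio M.δ) ⊕ (M.XX ζ × ℕ)))
    (fun a => a.1 ∈ M.TH ∧ (a.1 : WithTop Θ) < ζ ∧ Good M b a.1 a.2.1 ∧ a.2.2 ∈ M.CO ∧
      a.2.2 ∈ PT nm ζ ∧ IsS a.2.2.l ∧ a.2.1 ≤ a.2.2.res a.1)
    (fun a' a => a.1 ≤ a'.1 ∧ a'.2.1 ≤ a.2.1 ∧ a'.2.2 ≤ a.2.2)
    (fun a => ⟨le_rfl, le_rfl, le_rfl⟩)
    (fun i a => match i with
      | Sum.inl η => η.1 < a.1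
      | Sum.inr (Sum.inl x) => a.2.2 ∈ Dec (PT nm ζ) (x.1.1 x.2.1.1 x.2.2.1)
      | Sum.inr (Sum.inr x) => (∃ i, x.2 ≤ i ∧ ∃ γ, γ ≤ b (i + 1) ∧ a.2.2 ∈ x.1.1 (b i) γ) ∨
          ∀ r ∈ PT nm ζ, r ≤ a.2.2 → r.res a.1 ≤ a.2.1 → ∀ γ, r ∉ x.1.1 M.δ γ)
    (ξ, q, p) ⟨hξ, hξζ, hq, hp, hpζ, hl, hqp⟩
    (by
      rintro i ⟨ξ', q', p'⟩ ⟨h1, h2, h3, h4, h5, h6, h7⟩
      rcases i with ⟨η, hη, hηζ⟩ | ⟨X, β, γ⟩ | ⟨X, i₀⟩
      · have hm : max ξ' η ∈ M.TH := by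
          rcases le_total ξ' η with h | h
          · rw [max_eq_right h]; exact hη
          · rw [max_eq_left h]; exact h1
        have hmζ : ((max ξ' η : Θ) : WithTop Θ) < ζ := by
          rcases le_total ξ' η with h | h
          · rw [max_eq_right h]; exact hηζ
          · rw [max_eq_left h]; exact h2
        obtain ⟨ν, hν, hmν, hνζ⟩ := hsucc _ hm hmζ
        have hξν : ξ' < ν := lt_of_le_of_lt (le_max_left _ _) hmν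
        have hην : η < ν := lt_of_le_of_lt (le_max_right _ _) hmν
        obtain ⟨q'', g1, g2, g3⟩ := hIH ξ' h1 ν hν hξν hνζ q' (p'.res ν) h3 (M.res p' h4 ν hν)
          (res_mem h5 ν) h6 (by
            rw [res_res (WithTop.coe_le_coe.2 hξν.le)]
            exact h7)
        exact ⟨(ν, q'', p'), ⟨hν, hνζ, g1, h4, h5, h6, g3⟩, ⟨hξν.le, g2, le_rfl⟩, hην⟩
      · obtain ⟨d, g1, g2, g3, g4, g5⟩ := lim_dec hζ h1 h2 h4 h5 h6 h3 h7 X.2 β.2 γ.2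
        exact ⟨(ξ', q', d), ⟨h1, h2, h3, g1, g2.1, g3, g5⟩, ⟨le_rfl, le_rfl, g4⟩, g2⟩
      · obtain ⟨d, g1, g2, g3, g4, g5, g6⟩ := lim_hit hb hζ h1 h2 h4 h5 h6 h3 h7 X.2 i₀
        refine ⟨(ξ', q', d), ⟨h1, h2, h3, g1, g2, g3, g5⟩, ⟨le_rfl, le_rfl, g4⟩, ?_⟩
        rcases g6 with g6 | g6
        · exact Or.inl g6
        · exact Or.inr fun r hr hrd hrq => g6 r hr (hrd.trans g4) hrq)
  -- monotonicity
  have hξm : ∀ m n, m ≤ n → (P m).1 ≤ (P n).1 := fun m n h =>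
    monotone_nat_of_le_succ (f := fun n => (P n).1) (fun n => (hr n).1) h
  have hqm : ∀ m n, m ≤ n → (P n).2.1 ≤ (P m).2.1 := fun m n h =>
    antitone_nat_of_succ_le (f := fun n => (P n).2.1) (fun n => (hr n).2.1) h
  have hpm : ∀ m n, m ≤ n → (P n).2.2 ≤ (P m).2.2 := fun m n h =>
    antitone_nat_of_succ_le (f := fun n => (P n).2.2) (fun n => (hr n).2.2) h
  obtain ⟨q', hq', hle, -, -⟩ := fusion (ζ := ζ) (fun n => (P n).2.1)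
    (fun n => PT_mono (hI n).2.1.le (hI n).2.2.1.mem) (fun n => (hr n).2.1)
  have hle' : ∀ n, q' ≤ (P n).2.2.res (P n).1 := fun n => (hle n).trans (hI n).2.2.2.2.2.2
  -- for `η ∈ (p n).F` there is `m ≥ n` with `η < ξ m`
  have hstage : ∀ n, ∀ η ∈ (P n).2.2.F, ∃ m, n ≤ m ∧ η < (P m).1 ∧ η ∈ (P m).2.2.F := by
    intro n η hη
    obtain ⟨k, hk⟩ := hT (Sum.inl ⟨η, M.supp _ (hI n).2.2.2.1 hη, ((hI n).2.2.2.2.1.2 η hη).1⟩)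
    refine ⟨max n k, le_max_left _ _, ?_, ?_⟩
    · exact lt_of_lt_of_le hk (hξm k _ (le_max_right _ _))
    · exact (hpm n _ (le_max_left _ _)).2.1 hη
  have hlep : ∀ n, q' ≤ (P n).2.2 := by
    intro n
    rw [le_def]
    refine ⟨(hle' n).1, ?_, (hle' n).2.2.1, ?_⟩
    · intro η hη
      obtain ⟨m, -, h1, h2⟩ := hstage n η hη
      exact (hle' m).2.1 ⟨h2, WithTop.coe_lt_coe.2 h1⟩
    · intro η hη α hα
      obtain ⟨m, h0, h1, h2⟩ := hstage n η hη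
      have e1 : q'.g η α = (P m).2.2.g η α :=
        (hle' m).2.2.2 η ⟨h2, WithTop.coe_lt_coe.2 h1⟩ α (hα.trans_le (hpm n m h0).1)
      rw [e1]
      exact (hpm n m h0).2.2.2 η hη α hα
  have hgood0 : Good M b ((P 0).1 : WithTop Θ) (P 0).2.1 := (hI 0).2.2.1
  refine ⟨q', ?_, ?_, ?_⟩
  · refine ⟨hq', lt_of_lt_of_le hgood0.len (hle 0).1, ?_, ?_, ?_⟩
    · intro β hβ
      rw [← hgood0.edge β hβ]
      exact (hle 0).2.2.1 β M.δ hβ hgood0.len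
    · intro X hX β γ hβ hγ
      obtain ⟨n, hn⟩ := hT (Sum.inr (Sum.inl (⟨X, hX⟩, ⟨β, hβ⟩, ⟨γ, hγ⟩)))
      exact ⟨(P n).2.2, (hI n).2.2.2.1, hlep n, hn⟩
    · rintro X hX ⟨r, hrζ, hrq, γ, hrX⟩ i₀
      obtain ⟨n, hn⟩ := hT (Sum.inr (Sum.inr (⟨X, hX⟩, i₀)))
      rcases hn with ⟨i, hi, γ', hγ', hX'⟩ | hn
      · exact ⟨i, hi, γ', hγ', M.opn ζ X hX (b i) γ' _ (hI n).2.2.2.2.1 _ hq' (hlep n) hX'⟩
      · exact absurd hrX (hn r hrζ (hrq.trans (hlep n))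
          ((res_le_iff (hI n).2.2.1.mem).2 (hrq.trans (hle n))) γ)
  · have := hle 0
    rw [hP0] at this
    exact this
  · have := hlep 0
    rw [hP0] at this
    exact this

end Pool.Agent.Lib.MP_d41870_lc.HM
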