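import Pool.Agent.Lib.MP_d41870_lc.HM.Sb

/-! Successor stages: hitting a name. -/

set_option autoImplicit false
set_option linter.unusedSectionVars false

namespace Pool.Agent.Lib.MP_d41870_lc.HM

open Set

variable {K Θ : Type} [LinearOrder K] [W1 K] [LinearOrder Θ] [WellFoundedLT Θ] [OrderBot Θ] {nm : Θ → Nm K Θ}
  {M : Mod nm} {b : ℕ → K}

theorem Sd_mono {μ ν : Θ} {m : ℕ} {p d t : Cond K Θ} {X : Name K Θ} {β γ γ' v : K} (h : γ ≤ γ')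
    (hd : SH nm μ ν m p X β γ v d t) : SH nm μ ν m p X β γ' v d t := by
  obtain ⟨h1, h2, h3, ⟨γ₀, h4, h5⟩, h6, h7, h8, h9, h10⟩ := hd
  exact ⟨h1, h2, h3, ⟨γ₀, h4.trans h, h5⟩, h6.trans h, h7, h8, h9, h10⟩

theorem Sd_ub {μ ν : Θ} {m : ℕ} {p q : Cond K Θ} {X : Name K Θ} {δ : K}
    (H : ∀ v, v < δ → ∃ γ d, SH nm μ ν m p X δ γ v d q) : ∃ γ, q ∈ SYX nm μ ν m p X δ γ := by
  classical
  choose f hf using H
  obtain ⟨a, ha⟩ := exists_ub (range fun v : Iio δ => f v.1 v.2)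
    (by
      have : Countable (Iio δ) := (W1.cnt δ).to_subtype
      exact countable_range _)
  refine ⟨a, fun v hv => ?_⟩
  obtain ⟨d, hd⟩ := hf v hv
  exact ⟨d, Sd_mono (ha _ ⟨⟨v, hv⟩, rfl⟩).le hd⟩

/-- Row Sd.  PROOF.  Let `O v = {s | ∃ γ d, SH nm μ ν m p X M.δ γ v d s}`.
Case 1: for some `v < M.δ` no extension of `q` is in `O v`.  `succ_dec` for `LenX ∈ M.XX ν` (`M.lenX`), `β = γ = v`, `v`: `d ∈ Dec (LenX v v)`, so `v < d.l` (the alternative is impossible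
by `ext_len`).  Right side of the last line: let `r ≤ d`, `r ∈ X M.δ γ`, `r.res μ ≤ q` etc.; extend `r` to a successor length (`ext_len`, `M.opn`): `r'`; `r'.res μ ≤ r.res μ ≤ q`,
`r'.res μ ∈ O v` with `d = r'` and `γ := max γ r'.l` (`r'.g μ u = d.g μ u ≠ m` for `p.l ≤ u ≤ v < d.l` as `μ ∈ p.F ⊆ d.F`); contradiction.
Case 2: `q ∈ O v` for all `v < M.δ` (`hdec`).  The `γ`'s for these countably many `v` have an upper bound `γ*` (`exists_ub`, `W1.cnt`); `SH` is monotone in `γ`; so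
`q ∈ SYX nm μ ν m p X M.δ γ*`, `SYX .. ∈ M.XX μ` (`M.sY`).  `hτ` gives `i ≥ max i₀ 1` with `q ∈ SYX .. (b i) γ`, `γ ≤ b (i+1)`, `σ i ↔ Odd m`.  `Good.mem_gen` gives `t ∈ M.CO`, `q ≤ t` with
`t ∈ SYX .. (b i) γ`; use it at `v = b (i-1) < b i`: `∃ d, SH .. (b i) γ (b (i-1)) d t`; `M.sYS` gives it in `M.CO`.  `q ≤ t ≤ d.res μ`.  `Harm`: let `b j < d.l ≤ γ ≤ b (i+1)`,
`d.g μ (b j) = m`; `j ≤ i`; if `j = i` fine; if `b j < p.l` use `hh` (`d ≤ p`, `μ ∈ p.F`); if `j < i`, `p.l ≤ b j` then `b j ≤ b (i-1)`: contradiction. -/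
theorem succ_hit {μ ν : Θ} (hμ : μ ∈ M.TH) (hν : ν ∈ M.TH) (h : μ < ν) (hb : Lad M.δ b) {m : ℕ} {σ : ℕ → Prop}
    {p q : Cond K Θ} (hp : p ∈ M.CO) (hpν : p ∈ PT nm ν) (hl : IsS p.l) (hμp : μ ∈ p.F) (hq : Good M b μ q)
    (hqp : q ≤ p.res μ) (hh : Harm b σ μ m p)
    (hτ : ∀ Y ∈ M.XX μ, (∃ γ, q ∈ Y M.δ γ) → ∀ i₀, ∃ i, i₀ ≤ i ∧ (σ i ↔ Odd m) ∧ ∃ γ, γ ≤ b (i + 1) ∧ q ∈ Y (b i) γ)
    {X : Name K Θ} (hX : X ∈ M.XX ν)
    (hdec : ∀ v, v < M.δ → q ∈ Dec (PT nm μ) {s | ∃ γ d, SH nm μ ν m p X M.δ γ v d s}) (i₀ : ℕ) :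
    ∃ d ∈ M.CO, d ∈ PT nm ν ∧ IsS d.l ∧ d ≤ p ∧ q ≤ d.res μ ∧ Harm b σ μ m d ∧
      ((∃ i, i₀ ≤ i ∧ ∃ γ, γ ≤ b (i + 1) ∧ d ∈ X (b i) γ) ∨
        ∀ r ∈ PT nm ν, r ≤ d → M.δ < r.l → r.g μ M.δ = m → r.res μ ≤ q → ∀ γ, r ∉ X M.δ γ) := by
  classical
  by_cases hc : ∃ v, v < M.δ ∧ ∀ s ∈ PT nm μ, s ≤ q → s ∉ {s | ∃ γ d, SH nm μ ν m p X M.δ γ v d s}
  · -- no extension of `q` is in `O v`
    obtain ⟨v, hv, hno⟩ := hc
    obtain ⟨d, hdC, hdD, hdS, hdp, hqd, hdH, hdu⟩ := succ_dec hμ hν h hb hp hpν hl hμp hq hqp hh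
      (M.lenX ν (Or.inr ⟨ν, hν, rfl⟩)) hv hv hv
    have hvd : v < d.l := by
      rcases hdD.2 with h1 | h1
      · exact h1
      · exfalso
        obtain ⟨s, hs, hsd, -, hvs, -⟩ := ext_len hdD.1 v
        exact h1 s hs hsd hvs
    refine ⟨d, hdC, hdD.1, hdS, hdp, hqd, hdH, Or.inr ?_⟩
    intro r hr hrd hδ hrm hrq γ hrX
    obtain ⟨r', hr', hr'r, hr'S, -, -⟩ := ext_len hr r.l
    have hμd : μ ∈ d.F := hdp.2.1 hμp
    have hμr : μ ∈ r.F := hrd.2.1 hμd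
    have hr'd : r' ≤ d := le_trans hr'r hrd
    apply hno (r'.res μ) (res_mem hr' μ) (le_trans (res_mono hr'r μ) hrq)
    refine ⟨max γ r'.l, r', hr', hr'S, le_trans hr'd hdp,
      ⟨γ, le_max_left _ _, M.opn ν X hX M.δ γ r hr r' hr' hr'r hrX⟩, le_max_right _ _,
      hδ.trans_le hr'r.1, ?_, ?_, le_rfl⟩
    · rw [hr'r.2.2.2 μ hμr M.δ hδ, hrm]
    · intro u hu1 hu2
      rw [hr'd.2.2.2 μ hμd u (hu2.trans_lt hvd)]
      exact hdu hvd u hu1 hu2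
  · -- `q ∈ O v` for all `v`
    have hall : ∀ v, v < M.δ → ∃ γ d, SH nm μ ν m p X M.δ γ v d q := by
      intro v hv
      rcases (hdec v hv).2 with h1 | h1
      · exact h1
      · exact absurd ⟨v, hv, h1⟩ hc
    obtain ⟨γs, hγs⟩ := Sd_ub hall
    have hY : SYX nm μ ν m p X ∈ M.XX μ := M.sY μ hμ ν hν h m p hp X hX
    obtain ⟨i, hi, hσ, γ, hγ, hqY⟩ := hτ _ hY ⟨γs, hγs⟩ (max i₀ 1)
    have hi0 : i₀ ≤ i := le_trans (le_max_left _ _) hi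
    have hi1 : 1 ≤ i := le_trans (le_max_right _ _) hi
    have hγδ : γ < M.δ := hγ.trans_lt (hb.lt (i + 1))
    obtain ⟨t, htC, hqt, -, htY⟩ := hq.mem_gen hY (hb.lt i) hγδ hqY
    have hlt : b (i - 1) < b i := hb.mono (by omega)
    obtain ⟨d, hdC, hd1, hd2, hd3, ⟨γ', hγ', hdX⟩, hd5, hd6, hd7, hd8, hd9⟩ :=
      M.sYS μ hμ ν hν h m p hp X hX (b i) γ (b (i - 1)) (hb.lt i) hγδ (hb.lt (i - 1)) t htC
        (htY (b (i - 1)) hlt)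
    refine ⟨d, hdC, hd1, hd2, hd3, le_trans hqt hd9, ?_, Or.inl ⟨i, hi0, γ', hγ'.trans hγ, hdX⟩⟩
    intro j hj hjm
    have hji : j < i + 1 := hb.mono.lt_iff_lt.1 ((hj.trans_le hd5).trans_le hγ)
    rcases Nat.lt_succ_iff_lt_or_eq.1 hji with hji' | hji'
    · rcases lt_or_ge (b j) p.l with hjp | hjp
      · apply hh j hjp
        rw [← hd3.2.2.2 μ hμp (b j) hjp]
        exact hjm
      · exact absurd hjm (hd8 (b j) hjp (hb.mono.monotone (by omega)))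
    · rw [hji']
      exact hσ

end Pool.Agent.Lib.MP_d41870_lc.HM
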