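import Pool.Agent.Lib.MP_d41870_lc.HM.Ga
import Pool.Agent.Lib.MP_d41870_lc.HM.C1b

/-! Successor stages: the new map. -/

set_option autoImplicit false
set_option linter.unusedSectionVars false

namespace Pool.Agent.Lib.MP_d41870_lc.HM

open Set

variable {K Θ : Type} [LinearOrder K] [W1 K] [LinearOrder Θ] [WellFoundedLT Θ] [OrderBot Θ] {nm : Θ → Nm K Θ}
  {M : Mod nm} {b : ℕ → K}

/-- Row Se.  The union of the `P n` as a new map at the stage `μ`.  PROOF.  `G v = (P n).g μ v` for the first `n` with `v < (P n).l` if `v < M.δ` (there is one by `hlen`; the value does not depend on `n` by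
`P m ≤ P n` and `μ ∈ (P n).F`), `G M.δ = m`, `G v = φ v` for `v > M.δ`, where `φ` is from `exists_fresh q.l` with `S v = insert m (G '' {β | β < M.δ ∧ q.e β v})` (finite as `Nice q`).
`add_map` for `q`, `G`: let `α < β < q.l`, `q.e α β`, `G α = G β`.  `β < M.δ`: an edge of `P n` (`q ≤ (P n).res μ`) inside a class of `(P n).g μ`; use `OK` (`OKat`) of `P n ∈ PT nm ν` at `μ`
(`Pst_eq`), `s ≤ q ≤ (P n).res μ`.  `β = M.δ`: `α = b i` (`hq.edge`), `G (b i) = m`, so `σ i ↔ Odd m` by `Harm`, where `σ i` is `q ∈ C1 ..`; `hσ` gives: if `Odd m` then `q ∈ C1`, so every `s ≤ q` is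
in `C1` (it is open); if not then `q ∉ C1` so no `s ≤ q` is in it.  `β > M.δ`: `G α ≠ G β`.  The result `r` is `≤ P n`: stages `η ∈ (P n).F` are `≤ μ` (`hνμ`). -/
theorem succ_end {μ ν : Θ} (h : μ < ν) (hνμ : ∀ η, η < ν → η ≤ μ) {m : ℕ} {q : Cond K Θ} (hq : Good M b μ q)
    (hσ : ∀ i, q ∈ Dec (PT nm μ) (C1 (PT nm μ) (nm μ) (b i) M.δ)) (P : ℕ → Cond K Θ) (hP : ∀ n, P (n + 1) ≤ P n)
    (hPν : ∀ n, P n ∈ PT nm ν) (hPμ : ∀ n, μ ∈ (P n).F) (hPl : ∀ n, (P n).l < M.δ) (hqP : ∀ n, q ≤ (P n).res μ)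
    (hPh : ∀ n, Harm b (fun i => q ∈ C1 (PT nm μ) (nm μ) (b i) M.δ) μ m (P n))
    (hlen : ∀ c, c < M.δ → ∃ n, c < (P n).l) :
    ∃ r ∈ PT nm ν, r ≤ q ∧ (∀ n, r ≤ P n) ∧ μ ∈ r.F ∧ r.g μ M.δ = m := by
  classical
  have hmon : ∀ n k, n ≤ k → P k ≤ P n := by
    intro n k hk
    induction k, hk using Nat.le_induction with
    | base => exact le_rfl
    | succ k _ ih => exact (hP k).trans ih
  -- the lower part of the map
  let G0 : K → ℕ := fun v => if hv : v < M.δ then (P (Nat.find (hlen v hv))).g μ v else 0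
  have hG0 : ∀ n v, v < (P n).l → G0 v = (P n).g μ v := by
    intro n v hv
    have hvδ : v < M.δ := hv.trans (hPl n)
    have h1 : G0 v = (P (Nat.find (hlen v hvδ))).g μ v := dif_pos hvδ
    rw [h1]
    have h2 : Nat.find (hlen v hvδ) ≤ n := Nat.find_min' (hlen v hvδ) hv
    have h3 := Nat.find_spec (hlen v hvδ)
    exact ((le_def.mp (hmon _ _ h2)).2.2.2 μ (hPμ _) v h3).symm
  -- the fresh values
  obtain ⟨φ, hφ1, hφ2⟩ := exists_fresh q.l
    (fun v => if M.δ < v then insert m (G0 '' {β | β < M.δ ∧ q.e β v}) else ∅) (by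
      intro v hv
      by_cases hδv : M.δ < v
      · rw [if_pos hδv]
        exact ((hq.mem.1.2 v hv M.δ hδv).image G0).insert m
      · rw [if_neg hδv]
        exact Set.finite_empty)
  let G : K → ℕ := fun v => if v < M.δ then G0 v else if v = M.δ then m else φ v
  have hGl : ∀ v, v < M.δ → G v = G0 v := fun v hv => if_pos hv
  have hGδ : G M.δ = m := by
    show (if M.δ < M.δ then G0 M.δ else if M.δ = M.δ then m else φ M.δ) = m
    rw [if_neg (lt_irrefl _), if_pos rfl]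
  have hGu : ∀ v, M.δ < v → G v = φ v := by
    intro v hv
    show (if v < M.δ then G0 v else if v = M.δ then m else φ v) = φ v
    rw [if_neg (not_lt_of_gt hv), if_neg hv.ne']
  obtain ⟨r, hr, hrl, hre, hrF, hrq, -, hrg⟩ := add_map h hq.mem G (by
    intro α β hαβ hβl he hGG
    rcases lt_trichotomy β M.δ with hβ | hβ | hβ
    · obtain ⟨n, hn⟩ := hlen β hβ
      have hαn : α < (P n).l := hαβ.trans hn
      have he' : (P n).e α β := ((le_def.mp (hqP n)).2.2.1 α β hαβ hn).mp he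
      have h1 : OKat (PT nm μ) (nm μ) μ (P n) := by
        have h2 : OKat (Pst nm μ) (nm μ) μ (P n) := ((hPν n).2 μ (hPμ n)).2
        rw [Pst_eq] at h2
        exact h2
      have hgα : G α = (P n).g μ α := (hGl α (hαβ.trans hβ)).trans (hG0 n α hαn)
      have hgβ : G β = (P n).g μ β := (hGl β hβ).trans (hG0 n β hn)
      have h3 := h1 α β hαβ hn he' (by rw [← hgα, ← hgβ, hGG])
      rw [← hgα] at h3
      exact ⟨fun ho s hs hsq => h3.1 ho s hs (hsq.trans (hqP n)),
        fun ho s hs hsq => h3.2 ho s hs (hsq.trans (hqP n))⟩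
    · subst hβ
      obtain ⟨i, rfl⟩ := (hq.edge α hαβ).mp he
      obtain ⟨n, hn⟩ := hlen (b i) hαβ
      rw [hGG, hGδ]
      have hgα : G (b i) = (P n).g μ (b i) := (hGl _ hαβ).trans (hG0 n _ hn)
      have h1 := hPh n i hn (by rw [← hgα, hGG, hGδ])
      constructor
      · intro ho s hs hsq
        obtain ⟨-, j, t, h2, h3, h4⟩ := h1.mpr ho
        exact ⟨s, hs, le_rfl, hs, j, t, h2, h3, hsq.trans h4⟩
      · intro ho s hs hsq
        rcases (hσ i).2 with h2 | h2
        · exact absurd (h1.mp h2) ho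
        · exact h2 s hs hsq
    · exfalso
      have h1 := hφ2 β hβl
      simp only [if_pos hβ] at h1
      rw [hGu β hβ] at hGG
      rcases lt_trichotomy α M.δ with hα | hα | hα
      · apply h1
        rw [← hGG, hGl α hα]
        exact Set.mem_insert_of_mem _ ⟨α, ⟨hα, he⟩, rfl⟩
      · apply h1
        rw [← hGG, hα, hGδ]
        exact Set.mem_insert _ _
      · rw [hGu α hα] at hGG
        exact hαβ.ne (hφ1 α β (hαβ.trans hβl) hβl hGG))
  refine ⟨r, hr, hrq, ?_, ?_, ?_⟩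
  · intro n
    have hq1 := le_def.mp (hqP n)
    have hr1 := le_def.mp hrq
    have hlt : (P n).l < q.l := (hPl n).trans hq.len
    rw [le_def]
    refine ⟨?_, ?_, ?_, ?_⟩
    · rw [hrl]
      exact hlt.le
    · intro η hη
      rw [hrF]
      have h1 : η ≤ μ := hνμ η (WithTop.coe_lt_coe.mp ((hPν n).2 η hη).1)
      rcases h1.eq_or_lt with h2 | h2
      · exact Or.inl h2
      · exact Or.inr (hq1.2.1 ⟨hη, WithTop.coe_lt_coe.mpr h2⟩)
    · intro α β hα hβ
      rw [hre]
      exact hq1.2.2.1 α β hα hβ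
    · intro η hη α hα
      have h1 : η ≤ μ := hνμ η (WithTop.coe_lt_coe.mp ((hPν n).2 η hη).1)
      rcases h1.eq_or_lt with h2 | h2
      · subst h2
        rw [hrg]
        exact (hGl α (hα.trans (hPl n))).trans (hG0 n α hα)
      · have h3 : η ∈ ((P n).res μ).F := ⟨hη, WithTop.coe_lt_coe.mpr h2⟩
        exact (hr1.2.2.2 η (hq1.2.1 h3) α (hα.trans hlt)).trans (hq1.2.2.2 η h3 α hα)
  · rw [hrF]
    exact Set.mem_insert _ _
  · rw [hrg]
    exact hGδ

end Pool.Agent.Lib.MP_d41870_lc.HM
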