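import Pool.Agent.Lib.MP_d41870_lc.HM.Sc
import Pool.Agent.Lib.MP_d41870_lc.HM.Sd
import Pool.Agent.Lib.MP_d41870_lc.HM.Se

/-! Successor stages. -/

set_option autoImplicit false
set_option linter.unusedSectionVars false

namespace Pool.Agent.Lib.MP_d41870_lc.HM

open Set

variable {K Θ : Type} [LinearOrder K] [W1 K] [LinearOrder Θ] [WellFoundedLT Θ] [OrderBot Θ] {nm : Θ → Nm K Θ}
  {M : Mod nm} {b : ℕ → K}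

/-- Row Sf.  PROOF.  By `M.stage` WLOG `μ ∈ p.F` (`q ≤ p.res μ ≤ p'.res μ`).  `exists_decide`: `q' ≤ q` decides the countably many open sets `C1 (PT nm μ) (nm μ) (b i) M.δ`, `{s | ∃ γ, s ∈ Y M.δ γ}`
(`Y ∈ M.XX μ`) and `{s | ∃ γ d, SH nm μ ν m p' X M.δ γ v d s}` (`X ∈ M.XX ν`, `p' ∈ M.CO`, `m : ℕ`, `v < M.δ`); `Good M b μ q'` by `Good.mono`; write `q` for `q'`.  `exists_tau` with
`σ i := q ∈ C1 ..` gives `τ`.  Choose `m` with `Odd m ↔ τ` and `m ≠ p.g μ (b i)` for all the finitely many `i` with `b i < p.l`; so `Harm b σ μ m p`.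
`exists_seq` (row Ga): states `p'` with `I p'`: `p' ∈ M.CO`, `p' ∈ PT nm ν`, `IsS p'.l`, `μ ∈ p'.F`, `q ≤ p'.res μ`, `Harm b σ μ m p'`; `r = (≤)`; tasks (a sum of countable types):
`(X, β, γ)`: `p' ∈ Dec (PT nm ν) (X β γ)` (`succ_dec`); `(X, i₀)`: the alternative of `succ_hit`.
`hlen` of `succ_end` from the tasks `(LenX, c, c)` (`M.lenX`; the alternative in `Dec` is impossible by `ext_len`).  `succ_end` gives `r`; it is `Good M b ν`: `gen` by the tasks `(X, β, γ)`; `good`: if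
`r' ≤ r`, `r' ∈ X M.δ γ`, then in the task `(X, i₀)` (done at `n`) the right alternative is impossible: `r' ≤ r ≤ P n`, `M.δ < r.l ≤ r'.l`, `r'.g μ M.δ = r.g μ M.δ = m`, `r'.res μ ≤ q` (`r' ≤ r ≤ q`,
`res_le_iff`); so `P n ∈ X (b i) γ`, and `r ≤ P n` (`M.opn`). -/
theorem T_succ (hb : Lad M.δ b) {μ ν : Θ} (hμ : μ ∈ M.TH) (hν : ν ∈ M.TH) (h : μ < ν) (hνμ : ∀ η, η < ν → η ≤ μ) :
    Ext M b μ ν := by
  classical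
  intro q₀ p₀ hq₀ hp₀ hpν₀ hl₀ hqp₀
  obtain ⟨p, hp, hpν, hpp₀, hpl, hμp, hres⟩ := M.stage μ hμ ν hν h p₀ hp₀ hpν₀
  have hl : IsS p.l := by rw [hpl]; exact hl₀
  -- deciding countably many open sets
  let S1 : Set (Set (Cond K Θ)) := range fun i : ℕ => C1 (PT nm μ) (nm μ) (b i) M.δ
  let S2 : Set (Set (Cond K Θ)) := (fun Y : Name K Θ => {s | ∃ γ, s ∈ Y M.δ γ}) '' M.XX μ
  let S3 : Set (Set (Cond K Θ)) := (fun z : (Name K Θ × Cond K Θ) × (ℕ × K) =>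
    {s | ∃ γ d, SH nm μ ν z.2.1 z.1.2 z.1.1 M.δ γ z.2.2 d s}) ''
      ((M.XX ν ×ˢ M.CO) ×ˢ ((univ : Set ℕ) ×ˢ Iio M.δ))
  have hS1 : S1.Countable := countable_range _
  have hS2 : S2.Countable := (M.cXX μ).image _
  have hS3 : S3.Countable :=
    (((M.cXX ν).prod M.cCO).prod ((countable_univ (α := ℕ)).prod (W1.cnt M.δ))).image _
  have hopen : ∀ O ∈ S1 ∪ S2 ∪ S3, OpenIn (PT nm μ) O := by
    rintro O ((⟨i, rfl⟩ | ⟨Y, hY, rfl⟩) | ⟨z, -, rfl⟩)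
    · exact open_C1 _ _ _ _
    · exact open_union (M.opn μ Y hY) M.δ
    · exact open_SH μ ν z.2.1 z.1.2 z.1.1 M.δ z.2.2
  obtain ⟨q, hqμ, hqq₀, hqdec⟩ := exists_decide hq₀.mem (S1 ∪ S2 ∪ S3) ((hS1.union hS2).union hS3) hopen
  have hq : Good M b μ q := hq₀.mono hqμ hqq₀
  have hqp : q ≤ p.res μ := (hqq₀.trans hqp₀).trans hres
  have hσdec : ∀ i, q ∈ Dec (PT nm μ) (C1 (PT nm μ) (nm μ) (b i) M.δ) := fun i =>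
    hqdec _ (Or.inl (Or.inl ⟨i, rfl⟩))
  have hSHdec : ∀ X ∈ M.XX ν, ∀ p' ∈ M.CO, ∀ m : ℕ, ∀ v, v < M.δ →
      q ∈ Dec (PT nm μ) {s | ∃ γ d, SH nm μ ν m p' X M.δ γ v d s} := fun X hX p' hp' m v hv =>
    hqdec _ (Or.inr ⟨((X, p'), (m, v)), ⟨⟨hX, hp'⟩, ⟨mem_univ _, hv⟩⟩, rfl⟩)
  obtain ⟨τ, hτ⟩ := exists_tau hμ hq (fun i => q ∈ C1 (PT nm μ) (nm μ) (b i) M.δ)
  -- the class `m`
  obtain ⟨m, hmτ, hm⟩ : ∃ m : ℕ, (Odd m ↔ τ) ∧ ∀ i, b i < p.l → p.g μ (b i) ≠ m := by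
    obtain ⟨i₀, hi₀⟩ := hb.cof p.l (M.len p hp)
    have hbd : ∀ i, b i < p.l → p.g μ (b i) ≤ (Finset.range i₀).sup (fun i => p.g μ (b i)) := by
      intro i hi
      have h1 : i < i₀ := hb.mono.lt_iff_lt.1 (hi.trans hi₀)
      exact Finset.le_sup (f := fun i => p.g μ (b i)) (Finset.mem_range.2 h1)
    by_cases hτ' : τ
    · refine ⟨2 * (Finset.range i₀).sup (fun i => p.g μ (b i)) + 1, ?_, fun i hi h1 => ?_⟩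
      · exact ⟨fun _ => hτ', fun _ => odd_two_mul_add_one _⟩
      · have := hbd i hi
        omega
    · refine ⟨2 * ((Finset.range i₀).sup (fun i => p.g μ (b i)) + 1), ?_, fun i hi h1 => ?_⟩
      · refine ⟨fun h1 => ?_, fun h1 => (hτ' h1).elim⟩
        exact ((Nat.not_odd_iff_even.2 (even_two_mul _)) h1).elim
      · have := hbd i hi
        omega
  have hτm : ∀ Y ∈ M.XX μ, (∃ γ, q ∈ Y M.δ γ) → ∀ i₀, ∃ i, i₀ ≤ i ∧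
      (q ∈ C1 (PT nm μ) (nm μ) (b i) M.δ ↔ Odd m) ∧ ∃ γ, γ ≤ b (i + 1) ∧ q ∈ Y (b i) γ := by
    intro Y hY hqY i₀
    obtain ⟨i, h1, h2, h3⟩ := hτ Y hY hqY i₀
    exact ⟨i, h1, h2.trans hmτ.symm, h3⟩
  have hharm : Harm b (fun i => q ∈ C1 (PT nm μ) (nm μ) (b i) M.δ) μ m p :=
    fun i hi h1 => (hm i hi h1).elim
  -- the sequence
  have : Countable (M.XX ν) := (M.cXX ν).to_subtype
  have : Countable (Iio M.δ) := (W1.cnt M.δ).to_subtype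
  let I : Cond K Θ → Prop := fun p' => p' ∈ M.CO ∧ p' ∈ PT nm ν ∧ IsS p'.l ∧ μ ∈ p'.F ∧ q ≤ p'.res μ ∧
    Harm b (fun i => q ∈ C1 (PT nm μ) (nm μ) (b i) M.δ) μ m p'
  let T : (M.XX ν × Iio M.δ × Iio M.δ) ⊕ (M.XX ν × ℕ) → Cond K Θ → Prop := fun z p' =>
    Sum.elim (fun z => p' ∈ Dec (PT nm ν) (z.1.1 z.2.1.1 z.2.2.1))
      (fun z => (∃ i, z.2 ≤ i ∧ ∃ γ, γ ≤ b (i + 1) ∧ p' ∈ z.1.1 (b i) γ) ∨
        ∀ r ∈ PT nm ν, r ≤ p' → M.δ < r.l → r.g μ M.δ = m → r.res μ ≤ q → ∀ γ, r ∉ z.1.1 M.δ γ) z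
  obtain ⟨P, hP0, hPI, hPd, hPT⟩ := exists_seq I (fun a' a => a' ≤ a) (fun a => le_rfl) T p
    ⟨hp, hpν, hl, hμp, hqp, hharm⟩ (by
      rintro (⟨⟨X, hX⟩, ⟨β, hβ⟩, ⟨γ, hγ⟩⟩ | ⟨⟨X, hX⟩, i₀⟩) p' ⟨hp', hpν', hl', hμp', hqp', hh'⟩
      · obtain ⟨d, hd, hdD, hdl, hdp, hqd, hdh, -⟩ := succ_dec hμ hν h hb hp' hpν' hl' hμp' hq hqp' hh' hX
          (β := β) (γ := γ) (v := β) hβ hγ hβ
        exact ⟨d, ⟨hd, hdD.1, hdl, hdp.2.1 hμp', hqd, hdh⟩, hdp, hdD⟩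
      · obtain ⟨d, hd, hdν, hdl, hdp, hqd, hdh, hdX⟩ := succ_hit hμ hν h hb hp' hpν' hl' hμp' hq hqp' hh' hτm
          hX (fun v hv => hSHdec X hX p' hp' m v hv) i₀
        exact ⟨d, ⟨hd, hdν, hdl, hdp.2.1 hμp', hqd, hdh⟩, hdp, hdX⟩)
  have hlen : ∀ c, c < M.δ → ∃ n, c < (P n).l := by
    intro c hc
    obtain ⟨n, hn⟩ := hPT (Sum.inl (⟨LenX, M.lenX ν (Or.inr ⟨ν, hν, rfl⟩)⟩, ⟨c, hc⟩, ⟨c, hc⟩))
    refine ⟨n, ?_⟩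
    have hn' : P n ∈ Dec (PT nm ν) (LenX c c) := hn
    rcases hn'.2 with h1 | h1
    · exact h1
    · obtain ⟨s, hs, hsP, -, hcs, -⟩ := ext_len (hPI n).2.1 c
      exact (h1 s hs hsP hcs).elim
  obtain ⟨r, hrν, hrq, hrP, hμr, hrm⟩ := succ_end h hνμ hq hσdec P hPd (fun n => (hPI n).2.1)
    (fun n => (hPI n).2.2.2.1) (fun n => M.len _ (hPI n).1) (fun n => (hPI n).2.2.2.2.1)
    (fun n => (hPI n).2.2.2.2.2) hlen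
  have hrδ : M.δ < r.l := hq.len.trans_le hrq.1
  refine ⟨r, ⟨hrν, hrδ, ?_, ?_, ?_⟩, hrq.trans hqq₀, ?_⟩
  · intro β hβ
    exact (hrq.2.2.1 β M.δ hβ hq.len).trans (hq.edge β hβ)
  · intro X hX β γ hβ hγ
    obtain ⟨n, hn⟩ := hPT (Sum.inl (⟨X, hX⟩, ⟨β, hβ⟩, ⟨γ, hγ⟩))
    exact ⟨P n, (hPI n).1, hrP n, hn⟩
  · rintro X hX ⟨r', hr', hr'r, γ, hr'X⟩ i₀
    obtain ⟨n, hn⟩ := hPT (Sum.inr (⟨X, hX⟩, i₀))
    have hn' : (∃ i, i₀ ≤ i ∧ ∃ γ, γ ≤ b (i + 1) ∧ P n ∈ X (b i) γ) ∨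
        ∀ r ∈ PT nm ν, r ≤ P n → M.δ < r.l → r.g μ M.δ = m → r.res μ ≤ q → ∀ γ, r ∉ X M.δ γ := hn
    rcases hn' with ⟨i, hi, γ', hγ', hX'⟩ | h1
    · exact ⟨i, hi, γ', hγ', M.opn ν X hX (b i) γ' (P n) (hPI n).2.1 r hrν (hrP n) hX'⟩
    · refine (h1 r' hr' (hr'r.trans (hrP n)) (hrδ.trans_le hr'r.1) ?_ ?_ γ hr'X).elim
      · rw [hr'r.2.2.2 μ hμr M.δ hrδ]
        exact hrm
      · exact (res_le_iff hqμ).2 (hr'r.trans hrq)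
  · have h1 := hrP 0
    rw [hP0] at h1
    exact h1.trans hpp₀

end Pool.Agent.Lib.MP_d41870_lc.HM
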