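import Pool.Agent.Lib.MP_d41870_lc.HM.Gx
import Pool.Agent.Lib.MP_d41870_lc.HM.Lb
import Pool.Agent.Lib.MP_d41870_lc.HM.Sf

/-! All stages. -/

set_option autoImplicit false
set_option linter.unusedSectionVars false

namespace Pool.Agent.Lib.MP_d41870_lc.HM

open Set

variable {K Θ : Type} [LinearOrder K] [W1 K] [LinearOrder Θ] [WellFoundedLT Θ] [OrderBot Θ] {nm : Θ → Nm K Θ}
  {M : Mod nm} {b : ℕ → K}

/-- Row Aa.  PROOF.  Induction on `ζ : WithTop Θ` (well-founded).  If `∀ μ ∈ M.TH, μ < ζ → ∃ ν ∈ M.TH, μ < ν ∧ ν < ζ` use `T_lim`.  Otherwise there is `μ ∈ M.TH`, `μ < ζ` with no element of `M.TH` between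
`μ` and `ζ`; `M.succ` gives `ν ∈ M.TH`, the successor of `μ`, so `ζ = ν` (`ν ≤ ζ` since `μ < ζ`: for `ζ = ⊤` contradiction).  `ξ ≤ μ`.  If `ξ = μ` use `T_succ`.  If `ξ < μ`: the induction hypothesis for
`ξ`, `μ` with `p.res μ` (`M.res`, `res_mem`, `res_res`) gives `q₁`, then `T_succ` with `q₁`, `p`. -/
theorem T_all (hb : Lad M.δ b) (ζ : WithTop Θ) (hζ : ζ = ⊤ ∨ ∃ η ∈ M.TH, ζ = (η : WithTop Θ)) {ξ : Θ} (hξ : ξ ∈ M.TH)
    (hξζ : (ξ : WithTop Θ) < ζ) : Ext M b ξ ζ := by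
  induction ζ using WellFoundedLT.induction generalizing ξ with
  | _ ζ ih =>
    by_cases hA : ∀ μ ∈ M.TH, (μ : WithTop Θ) < ζ → ∃ ν ∈ M.TH, μ < ν ∧ (ν : WithTop Θ) < ζ
    · exact T_lim hb hζ hA (fun ξ' hξ' η hη h1 h2 =>
        ih η h2 (Or.inr ⟨η, hη, rfl⟩) hξ' (WithTop.coe_lt_coe.2 h1)) hξ hξζ
    · push Not at hA
      obtain ⟨μ, hμ, hμζ, hno⟩ := hA
      obtain ⟨ν, hν, hμν, hνμ⟩ := M.succ μ hμ
      have h1 : ζ ≤ (ν : WithTop Θ) := hno ν hν hμν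
      have h2 : ζ = (ν : WithTop Θ) := by
        rcases hζ with h | ⟨η, -, h⟩
        · rw [h] at h1
          exact absurd h1 (not_le.2 (WithTop.coe_lt_top ν))
        · rw [h] at h1 hμζ ⊢
          have h3 : η ≤ ν := WithTop.coe_le_coe.1 h1
          have h4 : μ < η := WithTop.coe_lt_coe.1 hμζ
          rcases h3.lt_or_eq with h5 | h5
          · exact absurd h4 (not_lt.2 (hνμ η h5))
          · rw [h5]
      subst h2
      have h3 : ξ ≤ μ := hνμ ξ (WithTop.coe_lt_coe.1 hξζ)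
      rcases h3.lt_or_eq with h4 | h4
      · intro q p hq hp hpν hl hqp
        obtain ⟨q₁, hq₁, h5, h6⟩ := ih μ hμζ (Or.inr ⟨μ, hμ, rfl⟩) hξ (WithTop.coe_lt_coe.2 h4) q
          (p.res μ) hq (M.res p hp μ hμ) (res_mem hpν μ) hl
          (by rw [res_res (WithTop.coe_le_coe.2 h3)]; exact hqp)
        obtain ⟨q₂, hq₂, h7, h8⟩ := T_succ hb hμ hν hμν hνμ q₁ p hq₁ hp hpν hl h6
        exact ⟨q₂, hq₂, h7.trans h5, h8⟩
      · rw [h4]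
        exact T_succ hb hμ hν hμν hνμ

/-- Row Aa.  PROOF.  `T_base` for `p.res ⊥` (`M.res`, `M.bot`, `res_mem`), then `T_all` with `ξ = ⊥`, `ζ = ⊤`. -/
theorem exists_good {p : Cond K Θ} (hp : p ∈ M.CO) (hpT : p ∈ PT nm ⊤) (hl : IsS p.l) :
    ∃ b, Lad M.δ b ∧ ∃ q, Good M b ⊤ q ∧ q ≤ p := by
  obtain ⟨b, hb, q, hq, hle⟩ := T_base (p := p.res ((⊥ : Θ) : WithTop Θ)) (M.res p hp ⊥ M.bot)
    (res_mem hpT _)
  obtain ⟨q', hq', -, h2⟩ := T_all hb ⊤ (Or.inl rfl) M.bot (WithTop.coe_lt_top _) q p hq hp hpT hl hle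
  exact ⟨b, hb, q', hq', h2⟩

end Pool.Agent.Lib.MP_d41870_lc.HM
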