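import Pool.Agent.Lib.MP_d41870_lc.HM.K1

/-! Adding maps, stages, vertices. -/

set_option autoImplicit false
set_option linter.unusedSectionVars false

namespace Pool.Agent.Lib.MP_d41870_lc.HM

open Set

variable {K Θ : Type} [LinearOrder K] [W1 K] [LinearOrder Θ] [WellFoundedLT Θ] {nm : Θ → Nm K Θ}

/-- `OK` passes to an extension which adds no edges (auxiliary). -/
theorem C1a_OK {η : Θ} {p q : Cond K Θ} (h : OK nm η p) (hle : q.res η ≤ p.res η)
    (hedge : ∀ α β, α < β → β < q.l → q.e α β → β < p.l ∧ p.e α β)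
    (hg : ∀ α, α < p.l → q.g η α = p.g η α) : OK nm η q := by
  intro α β hαβ hβ he hgg
  obtain ⟨hβp, hep⟩ := hedge α β hαβ hβ he
  have gα := hg α (hαβ.trans hβp)
  have gβ := hg β hβp
  rw [gα, gβ] at hgg
  obtain ⟨h1, h2⟩ := h α β hαβ hβp hep hgg
  rw [gα]
  exact ⟨fun ho s hs hsq => h1 ho s hs (hsq.trans hle),
    fun ho s hs hsq => h2 ho s hs (hsq.trans hle)⟩

/-- Row C1a.  Adding the map `G` at the stage `μ` to a condition of level `μ`.  PROOF.  `r = ⟨q.l, insert μ q.F, q.e,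
Function.update q.g μ G⟩`.  `μ ∉ q.F` (members of `q.F` are `< μ`), `Pst_eq`, and for `η ∈ q.F`: `r.res η` and `q.res η` are
`≤` each other (`η < μ`), so `OK` passes from `q` to `r`; `r.res μ` and `q` are `≤` each other. -/
theorem add_map {μ ν : Θ} (h1 : μ < ν) {q : Cond K Θ} (hq : q ∈ PT nm μ) (G : K → ℕ)
    (hG : ∀ α β, α < β → β < q.l → q.e α β → G α = G β →
      (Odd (G α) → ∀ s ∈ PT nm μ, s ≤ q → ∃ t ∈ PT nm μ, t ≤ s ∧ t ∈ C1 (PT nm μ) (nm μ) α β) ∧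
      (¬ Odd (G α) → ∀ s ∈ PT nm μ, s ≤ q → s ∉ C1 (PT nm μ) (nm μ) α β)) :
    ∃ r ∈ PT nm ν, r.l = q.l ∧ r.e = q.e ∧ r.F = insert μ q.F ∧ r ≤ q ∧ q ≤ r.res μ ∧ r.g μ = G := by
  have hne : ∀ η ∈ q.F, η ≠ μ := by
    rintro η hη rfl
    exact lt_irrefl _ (hq.2 η hη).1
  have hup : ∀ η, η ≠ μ → Function.update q.g μ G η = q.g η := fun η h =>
    Function.update_of_ne h _ _
  obtain ⟨r, hr⟩ : ∃ r : Cond K Θ, r = ⟨q.l, insert μ q.F, q.e, Function.update q.g μ G⟩ := ⟨_, rfl⟩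
  have hl : r.l = q.l := by rw [hr]
  have he : r.e = q.e := by rw [hr]
  have hF : r.F = insert μ q.F := by rw [hr]
  have hg : ∀ η, η ≠ μ → r.g η = q.g η := by
    intro η h
    rw [hr]
    exact hup η h
  have hgμ : r.g μ = G := by
    rw [hr]
    exact Function.update_self _ _ _
  have hrq : r ≤ q := by
    refine ⟨hl.ge, ?_, fun _ _ _ _ => by rw [he], fun η hη α _ => by rw [hg η (hne η hη)]⟩
    rw [hF]
    exact subset_insert _ _
  have hrμ : r.res μ ≤ q := (res_le_iff hq).2 hrq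
  refine ⟨r, ⟨⟨?_, ?_⟩, ?_⟩, hl, he, hF, hrq, ?_, hgμ⟩
  · rw [hF]
    exact hq.1.1.insert μ
  · rw [hl, he]
    exact hq.1.2
  · intro η hη
    rw [hF] at hη
    rcases hη with rfl | hη
    · refine ⟨WithTop.coe_lt_coe.2 h1, ?_⟩
      unfold OK OKat
      intro α β hαβ hβ hee hgg
      rw [Pst_eq]
      rw [hl] at hβ
      rw [he] at hee
      rw [hgμ] at hgg ⊢
      obtain ⟨h2, h3⟩ := hG α β hαβ hβ hee hgg
      exact ⟨fun ho s hs hsr => h2 ho s hs (hsr.trans hrμ),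
        fun ho s hs hsr => h3 ho s hs (hsr.trans hrμ)⟩
    · refine ⟨(hq.2 η hη).1.trans (WithTop.coe_lt_coe.2 h1), ?_⟩
      refine C1a_OK (hq.2 η hη).2 (res_mono hrq _) ?_ ?_
      · intro α β _ hβ hee
        rw [hl] at hβ
        rw [he] at hee
        exact ⟨hβ, hee⟩
      · intro α _
        rw [hg η (hne η hη)]
  · refine ⟨hl.le, ?_, fun _ _ _ _ => by rw [res_e, he], ?_⟩
    · rintro η ⟨hη, hημ⟩
      rw [hF] at hη
      rcases hη with rfl | hη
      · exact absurd hημ (lt_irrefl _)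
      · exact hη
    · rintro η ⟨_, hημ⟩ α _
      have : η ≠ μ := by
        rintro rfl
        exact lt_irrefl _ hημ
      rw [res_g, hg η this]

/-- Row C1a.  PROOF.  If `η ∈ p.F` take `q = p`.  Otherwise `q = ⟨p.l, insert η p.F, p.e, Function.update p.g η G⟩` with `G` injective
on `Iio p.l` (`exists_fresh` with `S = ∅`): no two different vertices are in one class. For the other stages
`η' ∈ p.F`: `OKat` is monotone (`q.res η' ≤ p.res η'`). -/
theorem add_stage {ζ : WithTop Θ} {p : Cond K Θ} (hp : p ∈ PT nm ζ) {η : Θ} (hη : (η : WithTop Θ) < ζ) :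
    ∃ q ∈ PT nm ζ, q ≤ p ∧ q.l = p.l ∧ η ∈ q.F ∧ p.res η ≤ q.res η := by
  by_cases hηp : η ∈ p.F
  · exact ⟨p, hp, le_rfl, rfl, hηp, le_rfl⟩
  obtain ⟨G, hG, -⟩ := exists_fresh p.l (fun _ => (∅ : Set ℕ)) (fun _ _ => Set.finite_empty)
  have hne : ∀ x ∈ p.F, x ≠ η := by
    rintro x hx rfl
    exact hηp hx
  obtain ⟨q, hr⟩ : ∃ q : Cond K Θ, q = ⟨p.l, insert η p.F, p.e, Function.update p.g η G⟩ := ⟨_, rfl⟩
  have hl : q.l = p.l := by rw [hr]
  have he : q.e = p.e := by rw [hr]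
  have hF : q.F = insert η p.F := by rw [hr]
  have hg : ∀ x, x ≠ η → q.g x = p.g x := by
    intro x h
    rw [hr]
    exact Function.update_of_ne h _ _
  have hgη : q.g η = G := by
    rw [hr]
    exact Function.update_self _ _ _
  have hqp : q ≤ p := by
    refine ⟨hl.ge, ?_, fun _ _ _ _ => by rw [he], fun x hx α _ => by rw [hg x (hne x hx)]⟩
    rw [hF]
    exact subset_insert _ _
  refine ⟨q, ⟨⟨?_, ?_⟩, ?_⟩, hqp, hl, ?_, ?_⟩
  · rw [hF]
    exact hp.1.1.insert η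
  · rw [hl, he]
    exact hp.1.2
  · intro x hx
    rw [hF] at hx
    rcases hx with rfl | hx
    · refine ⟨hη, ?_⟩
      intro α β hαβ hβ _ hgg
      exfalso
      rw [hgη] at hgg
      rw [hl] at hβ
      exact hαβ.ne (hG α β (hαβ.trans hβ) hβ hgg)
    · refine ⟨(hp.2 x hx).1, ?_⟩
      refine C1a_OK (hp.2 x hx).2 (res_mono hqp _) ?_ ?_
      · intro α β _ hβ hee
        rw [hl] at hβ
        rw [he] at hee
        exact ⟨hβ, hee⟩
      · intro α _
        rw [hg x (hne x hx)]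
  · rw [hF]
    exact mem_insert _ _
  · refine ⟨hl.le, ?_, fun _ _ _ _ => by rw [res_e, res_e, he], ?_⟩
    · rintro x ⟨hx, hxη⟩
      rw [hF] at hx
      rcases hx with rfl | hx
      · exact absurd hxη (lt_irrefl _)
      · exact ⟨hx, hxη⟩
    · rintro x ⟨_, hxη⟩ α _
      have : x ≠ η := by
        rintro rfl
        exact lt_irrefl _ hxη
      rw [res_g, res_g, hg x this]

/-- Row C1a.  PROOF.  Let `b > max a p.l` (`exists_ub`), `c` the successor of `b` (`exists_succ`), `q = ⟨c, p.F, fun α β => β < p.l ∧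
p.e α β, p.g⟩`: the new vertices are isolated. `OKat` is monotone (`q.res η ≤ p.res η`). -/
theorem ext_len {ζ : WithTop Θ} {p : Cond K Θ} (hp : p ∈ PT nm ζ) (a : K) :
    ∃ q ∈ PT nm ζ, q ≤ p ∧ IsS q.l ∧ a < q.l ∧ q.F = p.F := by
  obtain ⟨b, hb⟩ := exists_ub ({a, p.l} : Set K) ((Set.countable_singleton p.l).insert a)
  have hab : a < b := hb a (mem_insert _ _)
  have hpb : p.l < b := hb p.l (mem_insert_of_mem _ (mem_singleton _))
  obtain ⟨c, hbc, hc⟩ := exists_succ b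
  have hqp : (⟨c, p.F, fun α β => β < p.l ∧ p.e α β, p.g⟩ : Cond K Θ) ≤ p :=
    ⟨(hpb.trans hbc).le, subset_rfl, fun _ β _ hβ => ⟨fun h => h.2, fun h => ⟨hβ, h⟩⟩,
      fun _ _ _ _ => rfl⟩
  refine ⟨⟨c, p.F, fun α β => β < p.l ∧ p.e α β, p.g⟩, ⟨⟨hp.1.1, ?_⟩, ?_⟩, hqp, ⟨b, hbc, hc⟩,
    hab.trans hbc, rfl⟩
  · intro γ _ η hη
    by_cases hγ : γ < p.l
    · refine (hp.1.2 γ hγ η hη).subset ?_
      rintro β ⟨h1, -, h2⟩
      exact ⟨h1, h2⟩
    · refine Set.finite_empty.subset ?_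
      rintro β ⟨-, h1, -⟩
      exact hγ h1
  · intro η hη
    refine ⟨(hp.2 η hη).1, ?_⟩
    exact C1a_OK (hp.2 η hη).2 (res_mono hqp _) (fun _ _ _ _ h => h) (fun _ _ => rfl)

end Pool.Agent.Lib.MP_d41870_lc.HM
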