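import Pool.Agent.Lib.MP_d41870_lc.HM.K1

/-! Amalgamation. -/

set_option autoImplicit false
set_option linter.unusedSectionVars false

namespace Pool.Agent.Lib.MP_d41870_lc.HM

open Set

variable {K Θ : Type} [LinearOrder K] [W1 K] [LinearOrder Θ] [WellFoundedLT Θ] {nm : Θ → Nm K Θ}

/-- Row C1c.  Amalgamation of `p` (of level `ζ`, the length is a successor) and `q ≤ p.res ξ` (of level `ξ`).
PROOF.  `r = ⟨q.l, q.F ∪ p.F, q.e, g⟩`, `g η = q.g η` for `η < ξ`; for `η ≥ ξ`: `g η α = p.g η α` for `α < p.l` and `g η v = φ_η v` for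
`v ≥ p.l` where `φ_η` is from `exists_fresh q.l` with `S v = insert m {p.g η β | β < p.l, q.e β v}` for `p.l ≤ v`; this set is finite: `p.l` is
the successor of some `a < v`, and `{β | β < a ∧ q.e β v}` is finite (`Nice q`).  Stages `η < ξ`: `η ∈ q.F` (if `η ∈ p.F`, `η < ξ` then
`η ∈ q.F` by `q ≤ p.res ξ`), `r.res η ≤ q.res η`, so `OK` from `q`.  Stages `η ≥ ξ`, `η ∈ p.F`: edges `α β` with `β < p.l` as for `p`
(`q.e` agrees with `p.e` below `p.l`, `r.res η ≤ p.res η`); edges with `p.l ≤ β`: the classes of `α` and `β` are different. -/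
theorem amalg {ξ ζ : WithTop Θ} (hξ : ξ ≤ ζ) {p q : Cond K Θ} (hp : p ∈ PT nm ζ) (hl : IsS p.l)
    (hq : q ∈ PT nm ξ) (hqp : q ≤ p.res ξ) (m : ℕ) :
    ∃ r ∈ PT nm ζ, r ≤ p ∧ r ≤ q ∧ q ≤ r.res ξ ∧ r.l = q.l ∧
      ∀ η ∈ p.F, ξ ≤ (η : WithTop Θ) → ∀ v, p.l ≤ v → v < r.l → r.g η v ≠ m := by
  classical
  obtain ⟨a, hap, ha⟩ := hl
  have hpl : p.l ≤ q.l := hqp.1
  have hfr : ∀ η : Θ, ∃ φ : K → ℕ, (∀ v w, v < q.l → w < q.l → φ v = φ w → v = w) ∧
      ∀ v, v < q.l → φ v ∉ {n : ℕ | p.l ≤ v ∧ (n = m ∨ ∃ β, β < p.l ∧ q.e β v ∧ p.g η β = n)} := by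
    intro η
    refine exists_fresh q.l
      (fun v => {n : ℕ | p.l ≤ v ∧ (n = m ∨ ∃ β, β < p.l ∧ q.e β v ∧ p.g η β = n)}) fun v hv => ?_
    by_cases hpv : p.l ≤ v
    · have h1 : {β | β < a ∧ q.e β v}.Finite := hq.1.2 v hv a (hap.trans_le hpv)
      refine ((h1.insert a).image (p.g η)).insert m |>.subset ?_
      rintro n ⟨-, rfl | ⟨β, hβ, he, rfl⟩⟩
      · exact Set.mem_insert _ _
      · refine Set.mem_insert_of_mem _ ⟨β, ?_, rfl⟩
        rcases (ha β hβ).eq_or_lt with h | h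
        · exact h ▸ Set.mem_insert _ _
        · exact Set.mem_insert_of_mem _ ⟨h, he⟩
    · exact Set.finite_empty.subset fun n hn => absurd hn.1 hpv
  choose φ hφ1 hφ2 using hfr
  have hpq : ∀ η : Θ, η ∈ p.F → (η : WithTop Θ) < ξ → η ∈ q.F := fun η h1 h2 => hqp.2.1 ⟨h1, h2⟩
  obtain ⟨r, hr⟩ : ∃ r : Cond K Θ, r = ⟨q.l, q.F ∪ p.F, q.e, fun η α =>
      if (η : WithTop Θ) < ξ then q.g η α else if α < p.l then p.g η α else φ η α⟩ := ⟨_, rfl⟩
  have rl : r.l = q.l := by rw [hr]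
  have rF : r.F = q.F ∪ p.F := by rw [hr]
  have re : r.e = q.e := by rw [hr]
  have rg1 : ∀ (η : Θ) (α : K), (η : WithTop Θ) < ξ → r.g η α = q.g η α := by
    intro η α h
    rw [hr]
    exact if_pos h
  have rg2 : ∀ (η : Θ) (α : K), ¬ (η : WithTop Θ) < ξ → α < p.l → r.g η α = p.g η α := by
    intro η α h h'
    rw [hr]
    exact (if_neg h).trans (if_pos h')
  have rg3 : ∀ (η : Θ) (α : K), ¬ (η : WithTop Θ) < ξ → ¬ α < p.l → r.g η α = φ η α := by
    intro η α h h'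
    rw [hr]
    exact (if_neg h).trans (if_neg h')
  have hrp : r ≤ p := by
    refine ⟨rl ▸ hpl, ?_, ?_, ?_⟩
    · rw [rF]
      exact Set.subset_union_right
    · intro α β h1 h2
      rw [re]
      exact hqp.2.2.1 α β h1 h2
    · intro η hη α hα
      by_cases h : (η : WithTop Θ) < ξ
      · rw [rg1 η α h]
        exact hqp.2.2.2 η ⟨hη, h⟩ α hα
      · exact rg2 η α h hα
  have hrq : r ≤ q := by
    refine ⟨rl.ge, ?_, ?_, ?_⟩
    · rw [rF]
      exact Set.subset_union_left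
    · intro α β _ _
      rw [re]
    · intro η hη α _
      exact rg1 η α (hq.2 η hη).1
  refine ⟨r, ⟨⟨?_, ?_⟩, ?_⟩, hrp, hrq, ⟨?_, ?_, ?_, ?_⟩, rl, ?_⟩
  · rw [rF]
    exact hq.1.1.union hp.1.1
  · rw [rl, re]
    exact hq.1.2
  · intro η hη
    by_cases hx : (η : WithTop Θ) < ξ
    · have hηq : η ∈ q.F := by
        rw [rF] at hη
        rcases hη with h | h
        · exact h
        · exact hpq η h hx
      refine ⟨hx.trans_le hξ, ?_⟩
      have h1 : OKat (Pst nm η) (nm η) η q := (hq.2 η hηq).2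
      have h2 : r.res η ≤ q.res η := res_mono hrq η
      change OKat (Pst nm η) (nm η) η r
      intro α β hab hb he hg
      rw [rl] at hb
      rw [re] at he
      rw [rg1 η α hx, rg1 η β hx] at hg
      obtain ⟨h3, h4⟩ := h1 α β hab hb he hg
      rw [rg1 η α hx]
      exact ⟨fun ho s hs hsr => h3 ho s hs (hsr.trans h2), fun ho s hs hsr => h4 ho s hs (hsr.trans h2)⟩
    · have hηp : η ∈ p.F := by
        rw [rF] at hη
        rcases hη with h | h
        · exact absurd (hq.2 η h).1 hx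
        · exact h
      refine ⟨(hp.2 η hηp).1, ?_⟩
      have h1 : OKat (Pst nm η) (nm η) η p := (hp.2 η hηp).2
      have h2 : r.res η ≤ p.res η := res_mono hrp η
      change OKat (Pst nm η) (nm η) η r
      intro α β hab hb he hg
      rw [rl] at hb
      rw [re] at he
      by_cases hbp : β < p.l
      · have hap' : α < p.l := hab.trans hbp
        rw [rg2 η α hx hap', rg2 η β hx hbp] at hg
        obtain ⟨h3, h4⟩ := h1 α β hab hbp ((hqp.2.2.1 α β hab hbp).1 he) hg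
        rw [rg2 η α hx hap']
        exact ⟨fun ho s hs hsr => h3 ho s hs (hsr.trans h2),
          fun ho s hs hsr => h4 ho s hs (hsr.trans h2)⟩
      · exfalso
        rw [rg3 η β hx hbp] at hg
        by_cases hal : α < p.l
        · rw [rg2 η α hx hal] at hg
          exact hφ2 η β hb ⟨not_lt.1 hbp, Or.inr ⟨α, hal, he, hg⟩⟩
        · rw [rg3 η α hx hal] at hg
          exact hab.ne (hφ1 η α β (hab.trans hb) hb hg)
  · exact rl.le
  · rintro η ⟨h1, h2⟩
    rw [rF] at h1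
    rcases h1 with h | h
    · exact h
    · exact hpq η h h2
  · intro α β _ _
    rw [res_e, re]
  · intro η hη α _
    rw [res_g]
    exact (rg1 η α hη.2).symm
  · intro η _ hx v hv1 hv2 hm
    rw [rl] at hv2
    rw [rg3 η v (not_lt.2 hx) (not_lt.2 hv1)] at hm
    exact hφ2 η v hv2 ⟨hv1, Or.inl hm⟩

end Pool.Agent.Lib.MP_d41870_lc.HM
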