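import Pool.Agent.Lib.MP_d41870_lc.HM.C1a

/-! Canonical conditions, compatibility. -/

set_option autoImplicit false
set_option linter.unusedSectionVars false

namespace Pool.Agent.Lib.MP_d41870_lc.HM

open Set

variable {K Θ : Type} [LinearOrder K] [W1 K] [LinearOrder Θ] [WellFoundedLT Θ] {nm : Θ → Nm K Θ}

/-- Canonical representatives of conditions. -/
def Can {K Θ : Type} [LinearOrder K] (r : Cond K Θ) : Prop :=
  r.F.Countable ∧ (∀ α β, r.e α β → α < β ∧ β < r.l) ∧ ∀ η α, r.g η α ≠ 0 → η ∈ r.F ∧ α < r.l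

theorem CCa_OKat {K Θ : Type} [LinearOrder K] [LinearOrder Θ] {P : Set (Cond K Θ)} {c : Nm K Θ} {η : Θ}
    {p q : Cond K Θ} (hl : q.l = p.l) (he : ∀ α β, α < β → β < p.l → q.e α β → p.e α β)
    (hg : ∀ α, α < p.l → q.g η α = p.g η α) (hres : q.res η ≤ p.res η) (h : OKat P c η p) :
    OKat P c η q := by
  intro α β hab hb hE hG
  rw [hl] at hb
  have ha := hg α (hab.trans hb)
  rw [ha, hg β hb] at hG
  obtain ⟨h1, h2⟩ := h α β hab hb (he α β hab hb hE) hG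
  rw [ha]
  exact ⟨fun ho s hs hsq => h1 ho s hs (hsq.trans hres),
    fun ho s hs hsq => h2 ho s hs (hsq.trans hres)⟩

/-- Row CCa.  Every condition is equivalent to a canonical one.  PROOF.  Cut off `e` and `g`. -/
theorem exists_can {K Θ : Type} [LinearOrder K] [W1 K] [LinearOrder Θ] [WellFoundedLT Θ] {nm : Θ → Nm K Θ} {ζ : WithTop Θ}
    {p : Cond K Θ} (hp : p ∈ PT nm ζ) : ∃ r ∈ PT nm ζ, Can r ∧ r ≤ p ∧ p ≤ r := by
  classical
  obtain ⟨r, hr⟩ : ∃ r : Cond K Θ, r = ⟨p.l, p.F, fun α β => α < β ∧ β < p.l ∧ p.e α β,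
    fun η α => if η ∈ p.F ∧ α < p.l then p.g η α else 0⟩ := ⟨_, rfl⟩
  have rl : r.l = p.l := by rw [hr]
  have rF : r.F = p.F := by rw [hr]
  have re : ∀ α β, r.e α β ↔ (α < β ∧ β < p.l ∧ p.e α β) := by intro α β; rw [hr]
  have rg : ∀ η α, r.g η α = if η ∈ p.F ∧ α < p.l then p.g η α else 0 := by intro η α; rw [hr]
  have hle : r ≤ p := by
    refine ⟨rl.ge, rF.ge, fun α β hab hb => ?_, fun η hη α hα => ?_⟩
    · rw [re]
      exact ⟨fun h => h.2.2, fun h => ⟨hab, hb, h⟩⟩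
    · rw [rg, if_pos ⟨hη, hα⟩]
  have hge : p ≤ r := by
    refine ⟨rl.le, rF.le, fun α β hab hb => ?_, fun η hη α hα => ?_⟩
    · rw [re]
      rw [rl] at hb
      exact ⟨fun h => ⟨hab, hb, h⟩, fun h => h.2.2⟩
    · rw [rF] at hη
      rw [rl] at hα
      rw [rg, if_pos ⟨hη, hα⟩]
  obtain ⟨⟨h1, h2⟩, h3⟩ := hp
  refine ⟨r, ⟨⟨by rw [rF]; exact h1, fun γ hγ η hη => ?_⟩, fun η hη => ?_⟩, ?_, hle, hge⟩
  · rw [rl] at hγ
    refine (h2 γ hγ η hη).subset ?_
    intro β hβ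
    exact ⟨hβ.1, ((re β γ).1 hβ.2).2.2⟩
  · rw [rF] at hη
    refine ⟨(h3 η hη).1, ?_⟩
    exact CCa_OKat rl (fun α β _ _ h => ((re α β).1 h).2.2)
      (fun α hα => by rw [rg, if_pos ⟨hη, hα⟩]) (res_mono hle η) (h3 η hη).2
  · refine ⟨by rw [rF]; exact h1, fun α β h => ?_, fun η α h => ?_⟩
    · rw [rl]
      exact ⟨((re α β).1 h).1, ((re α β).1 h).2.1⟩
    · rw [rl, rF]
      by_contra hcon
      rw [rg, if_neg hcon] at h
      exact h rfl

/-- Row CCb.  Two conditions with the same graph whose maps agree at the common stages are compatible.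
PROOF.  `r = ⟨a.l, a.F ∪ b.F, a.e, fun η => if η ∈ a.F then a.g η else b.g η⟩`; `OKat` is monotone. -/
theorem compat {a b : Cond K Θ} (ha : a ∈ PT nm ⊤) (hb : b ∈ PT nm ⊤) (hl : a.l = b.l)
    (he : ∀ α β, α < β → β < a.l → (a.e α β ↔ b.e α β))
    (hg : ∀ η ∈ a.F, η ∈ b.F → ∀ α, α < a.l → a.g η α = b.g η α) :
    ∃ r ∈ PT nm ⊤, r ≤ a ∧ r ≤ b := by
  classical
  obtain ⟨r, hr⟩ : ∃ r : Cond K Θ, r = ⟨a.l, a.F ∪ b.F, a.e,
    fun η => if η ∈ a.F then a.g η else b.g η⟩ := ⟨_, rfl⟩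
  have rl : r.l = a.l := by rw [hr]
  have rF : r.F = a.F ∪ b.F := by rw [hr]
  have re : r.e = a.e := by rw [hr]
  have rg : ∀ η, r.g η = if η ∈ a.F then a.g η else b.g η := by intro η; rw [hr]
  have hra : r ≤ a := by
    refine ⟨rl.ge, by rw [rF]; exact subset_union_left, fun α β _ _ => by rw [re],
      fun η hη α hα => ?_⟩
    rw [rg, if_pos hη]
  have hrb : r ≤ b := by
    refine ⟨by rw [rl, hl], by rw [rF]; exact subset_union_right, fun α β hab hb => ?_,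
      fun η hη α hα => ?_⟩
    · rw [re]
      exact he α β hab (by rw [hl]; exact hb)
    · rw [rg]
      by_cases h : η ∈ a.F
      · rw [if_pos h]
        exact hg η h hη α (by rw [hl]; exact hα)
      · rw [if_neg h]
  refine ⟨r, ⟨⟨by rw [rF]; exact ha.1.1.union hb.1.1, fun γ hγ η hη => ?_⟩, fun η hη => ?_⟩,
    hra, hrb⟩
  · rw [rl] at hγ
    rw [re]
    exact ha.1.2 γ hγ η hη
  · refine ⟨WithTop.coe_lt_top η, ?_⟩
    by_cases h : η ∈ a.F
    · exact CCa_OKat rl (fun α β _ _ h' => by rw [re] at h'; exact h')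
        (fun α _ => by rw [rg, if_pos h]) (res_mono hra η) (ha.2 η h).2
    · have h' : η ∈ b.F := by
        rw [rF] at hη
        exact hη.resolve_left h
      exact CCa_OKat (rl.trans hl) (fun α β hab hb' hE => by
          rw [re] at hE
          exact (he α β hab (by rw [hl]; exact hb')).1 hE)
        (fun α _ => by rw [rg, if_neg h]) (res_mono hrb η) (hb.2 η h').2

end Pool.Agent.Lib.MP_d41870_lc.HM
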