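import Pool.Agent.Lib.MP_d41870_lc.HM.CCa

/-! The chain condition. -/

set_option autoImplicit false
set_option linter.unusedSectionVars false

namespace Pool.Agent.Lib.MP_d41870_lc.HM

open Set

variable {K Θ : Type} [LinearOrder K] [W1 K] [LinearOrder Θ] [WellFoundedLT Θ] {nm : Θ → Nm K Θ}

/-! ### Cardinality -/

theorem CCb_arrow {X Y : Type} (hX : Cardinal.mk X ≤ Cardinal.aleph0)
    (hY : Cardinal.mk Y ≤ 2 ^ Cardinal.aleph0) : Cardinal.mk (X → Y) ≤ 2 ^ Cardinal.aleph0 := by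
  rw [← Cardinal.power_def]
  calc Cardinal.mk Y ^ Cardinal.mk X ≤ (2 ^ Cardinal.aleph0) ^ Cardinal.mk X :=
        Cardinal.power_le_power_right hY
    _ ≤ (2 ^ Cardinal.aleph0) ^ Cardinal.aleph0 :=
        Cardinal.power_le_power_left (Cardinal.power_ne_zero _ two_ne_zero) hX
    _ = 2 ^ Cardinal.aleph0 := by rw [← Cardinal.power_mul, Cardinal.aleph0_mul_aleph0]

theorem CCb_prod {X Y : Type} (hX : Cardinal.mk X ≤ 2 ^ Cardinal.aleph0)
    (hY : Cardinal.mk Y ≤ 2 ^ Cardinal.aleph0) : Cardinal.mk (X × Y) ≤ 2 ^ Cardinal.aleph0 := by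
  rw [← Cardinal.mul_def]
  calc Cardinal.mk X * Cardinal.mk Y ≤ 2 ^ Cardinal.aleph0 * 2 ^ Cardinal.aleph0 :=
        mul_le_mul' hX hY
    _ = 2 ^ Cardinal.aleph0 := by rw [← Cardinal.power_add, Cardinal.aleph0_add_aleph0]

theorem CCb_card (K : Type) [LinearOrder K] [W1 K] : Cardinal.mk K ≤ 2 ^ Cardinal.aleph0 := by
  have h1 : Cardinal.mk K ≤ Order.succ Cardinal.aleph0 := by
    by_contra h
    rw [not_le] at h
    have h2 : (Order.succ Cardinal.aleph0).ord < Ordinal.type (α := K) (· < ·) :=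
      (Cardinal.ord_lt_ord.2 h).trans_le (Cardinal.ord_le_type _)
    obtain ⟨a, ha⟩ := Ordinal.typein_surj (α := K) (· < ·) h2
    have h3 := Ordinal.card_typein (r := ((· < ·) : K → K → Prop)) a
    rw [ha, Cardinal.card_ord] at h3
    have h4 : Cardinal.mk {y : K // y < a} ≤ Cardinal.aleph0 :=
      Cardinal.mk_le_aleph0_iff.2 ((W1.cnt a).to_subtype)
    have h5 := Order.lt_succ Cardinal.aleph0
    rw [← h3] at h4
    exact absurd (lt_of_lt_of_le h5 h4) (lt_irrefl _)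
  exact h1.trans (Order.succ_le_of_lt (Cardinal.cantor _))

/-- The traces. -/
abbrev CCb_Tr (K : Type) [LinearOrder K] : Type :=
  Σ l : K, (Iio l → Iio l → Prop) × (ℕ → Iio l → ℕ)

theorem CCb_Tr_card (K : Type) [LinearOrder K] [W1 K] :
    Cardinal.mk (CCb_Tr K) ≤ 2 ^ Cardinal.aleph0 := by
  rw [Cardinal.mk_sigma]
  have hP : Cardinal.mk Prop ≤ 2 ^ Cardinal.aleph0 := by
    rw [Cardinal.mk_Prop]
    exact (Cardinal.natCast_lt_aleph0 (n := 2)).le.trans (Cardinal.cantor _).le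
  have hN : Cardinal.mk ℕ ≤ 2 ^ Cardinal.aleph0 := by
    rw [Cardinal.mk_nat]
    exact (Cardinal.cantor _).le
  have h1 : ∀ l : K, Cardinal.mk ((Iio l → Iio l → Prop) × (ℕ → Iio l → ℕ)) ≤
      2 ^ Cardinal.aleph0 := by
    intro l
    have h2 : Cardinal.mk (Iio l) ≤ Cardinal.aleph0 :=
      Cardinal.mk_le_aleph0_iff.2 (W1.cnt l).to_subtype
    exact CCb_prod (CCb_arrow h2 (CCb_arrow h2 hP)) (CCb_arrow Cardinal.mk_nat.le (CCb_arrow h2 hN))
  calc Cardinal.sum (fun l : K => Cardinal.mk ((Iio l → Iio l → Prop) × (ℕ → Iio l → ℕ)))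
      ≤ Cardinal.sum (fun _ : K => (2 : Cardinal) ^ Cardinal.aleph0) := Cardinal.sum_le_sum _ _ h1
    _ = Cardinal.mk K * 2 ^ Cardinal.aleph0 := Cardinal.sum_const' _ _
    _ ≤ 2 ^ Cardinal.aleph0 * 2 ^ Cardinal.aleph0 := mul_le_mul' (CCb_card K) le_rfl
    _ = 2 ^ Cardinal.aleph0 := by rw [← Cardinal.power_add, Cardinal.aleph0_add_aleph0]

/-- The arities. -/
abbrev CCb_ar (X : Type) : Option X → Type := fun o => Option.elim o Empty (fun _ => ℕ)

theorem CCb_W_card (X : Type) (hX : Cardinal.mk X ≤ 2 ^ Cardinal.aleph0) :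
    Cardinal.mk (WType (CCb_ar X)) ≤ 2 ^ Cardinal.aleph0 := by
  refine WType.cardinalMk_le_of_le ?_
  have h1 : ∀ o : Option X, ((2 : Cardinal) ^ Cardinal.aleph0) ^ Cardinal.mk (CCb_ar X o) ≤
      2 ^ Cardinal.aleph0 := by
    intro o
    have h2 : Cardinal.mk (CCb_ar X o) ≤ Cardinal.aleph0 := by
      cases o with
      | none =>
        change Cardinal.mk Empty ≤ _
        rw [Cardinal.mk_eq_zero]
        exact zero_le
      | some x =>
        change Cardinal.mk ℕ ≤ _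
        exact Cardinal.mk_nat.le
    calc ((2 : Cardinal) ^ Cardinal.aleph0) ^ Cardinal.mk (CCb_ar X o)
        ≤ (2 ^ Cardinal.aleph0) ^ Cardinal.aleph0 :=
          Cardinal.power_le_power_left (Cardinal.power_ne_zero _ two_ne_zero) h2
      _ = 2 ^ Cardinal.aleph0 := by rw [← Cardinal.power_mul, Cardinal.aleph0_mul_aleph0]
  calc Cardinal.sum (fun o : Option X => ((2 : Cardinal) ^ Cardinal.aleph0) ^ Cardinal.mk (CCb_ar X o))
      ≤ Cardinal.sum (fun _ : Option X => (2 : Cardinal) ^ Cardinal.aleph0) :=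
        Cardinal.sum_le_sum _ _ h1
    _ = Cardinal.mk (Option X) * 2 ^ Cardinal.aleph0 := Cardinal.sum_const' _ _
    _ ≤ 2 ^ Cardinal.aleph0 * 2 ^ Cardinal.aleph0 := by
        refine mul_le_mul' ?_ le_rfl
        rw [Cardinal.mk_option]
        calc Cardinal.mk X + 1 ≤ 2 ^ Cardinal.aleph0 + 2 ^ Cardinal.aleph0 := by
              refine add_le_add hX ?_
              exact Cardinal.one_le_iff_ne_zero.2 (Cardinal.power_ne_zero _ two_ne_zero)
          _ = 2 ^ Cardinal.aleph0 :=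
            Cardinal.add_eq_self (Cardinal.cantor _).le
    _ = 2 ^ Cardinal.aleph0 := by rw [← Cardinal.power_add, Cardinal.aleph0_add_aleph0]

theorem CCb_enum {Θ : Type} {S : Set Θ} (hS : S.Countable) :
    ∃ e : ℕ → Option Θ, e 0 = none ∧ ∀ x, x ∈ S ↔ ∃ n, e n = some x := by
  rcases S.eq_empty_or_nonempty with rfl | hne
  · refine ⟨fun _ => none, rfl, fun x => ⟨fun h => absurd h (notMem_empty x), ?_⟩⟩
    rintro ⟨n, hn⟩
    exact absurd hn (by simp)
  · obtain ⟨f, hf⟩ := hS.exists_eq_range hne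
    refine ⟨fun n => Nat.casesOn n none (fun k => some (f k)), rfl, fun x => ⟨?_, ?_⟩⟩
    · intro hx
      rw [hf] at hx
      obtain ⟨k, rfl⟩ := hx
      exact ⟨k + 1, rfl⟩
    · rintro ⟨n, hn⟩
      cases n with
      | zero => exact absurd hn (by simp)
      | succ k =>
        have h1 : f k = x := Option.some.inj hn
        rw [hf, ← h1]
        exact mem_range_self k

/-- The trace of a condition on a sequence of stages. -/
def CCb_tr (η : ℕ → Option Θ) (a : Cond K Θ) : CCb_Tr K :=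
  ⟨a.l, fun x y => a.e x y, fun n x => (η n).elim 0 (fun y => a.g y x)⟩

theorem CCb_tr_eq {η : ℕ → Option Θ} {a b : Cond K Θ} (h : CCb_tr η a = CCb_tr η b) :
    a.l = b.l ∧ (∀ x y, x < a.l → y < a.l → (a.e x y ↔ b.e x y)) ∧
      ∀ n y, η n = some y → ∀ x, x < a.l → a.g y x = b.g y x := by
  have hl : a.l = b.l := congrArg Sigma.fst h
  refine ⟨hl, ?_, ?_⟩
  · intro x y hx hy
    have h1 := congrArg (fun t : CCb_Tr K => ∃ (hx : x < t.1) (hy : y < t.1), t.2.1 ⟨x, hx⟩ ⟨y, hy⟩) h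
    have h2 : (∃ (_ : x < a.l) (_ : y < a.l), a.e x y) = ∃ (_ : x < b.l) (_ : y < b.l), b.e x y := h1
    constructor
    · intro h3
      have h4 : ∃ (_ : x < a.l) (_ : y < a.l), a.e x y := ⟨hx, hy, h3⟩
      rw [h2] at h4
      exact h4.2.2
    · intro h3
      have h4 : ∃ (_ : x < b.l) (_ : y < b.l), b.e x y := ⟨hl ▸ hx, hl ▸ hy, h3⟩
      rw [← h2] at h4
      exact h4.2.2
  · intro n y hn x hx
    have h1 := congrArg (fun t : CCb_Tr K => ∀ (hx : x < t.1) (k : ℕ), t.2.2 n ⟨x, hx⟩ = k ↔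
      a.g y x = k) h
    have h2 : (∀ (_ : x < a.l) (k : ℕ), (η n).elim 0 (fun y => a.g y x) = k ↔ a.g y x = k) =
      ∀ (_ : x < b.l) (k : ℕ), (η n).elim 0 (fun y => b.g y x) = k ↔ a.g y x = k := h1
    rw [hn] at h2
    have h3 : ∀ (_ : x < a.l) (k : ℕ), (some y).elim 0 (fun y => a.g y x) = k ↔ a.g y x = k :=
      fun _ _ => Iff.rfl
    rw [h2] at h3
    exact ((h3 (hl ▸ hx) (b.g y x)).1 rfl)

/-- Row CCb.  Antichains have at most `2 ^ ℵ₀` elements.  PROOF.  For a countable `R ⊆ Θ` and `a ∈ A` with `R ⊆ a.F` the trace of `a` on `R` is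
`(a.l, a.e below a.l, a.g on R × Iio a.l)`.  There are at most `2 ^ ℵ₀` traces on a given `R` (and on all countable `R ⊆ S` if `#S ≤ 2 ^ ℵ₀`).
Define increasing `S ν ⊆ Θ`, `ν : K` (recursion on `ν`; `K` has type `ω₁`), `#(S ν) ≤ 2 ^ ℵ₀`: for each countable `R ⊆ ⋃_{ν' < ν} S ν'` and each
trace on `R` of an element of `A` pick one such element `a'` and put `a'.F` into `S ν`; let `M` be the set of all picked elements, `#M ≤ 2 ^ ℵ₀`.
Claim `A ⊆ M`: for `a ∈ A` let `R = a.F ∩ ⋃_ν S ν`; it is countable so it is contained in `⋃_{ν' < ν} S ν'` for some `ν` (`exists_ub`); let `a'` be the element picked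
for `R` and the trace of `a`; `a'.F ⊆ S ν`, so `a.F ∩ a'.F ⊆ R`, and `a`, `a'` are compatible by `compat`; so `a = a' ∈ M`.
(Any other proof is fine, e.g. a Δ-system lemma for countable sets.) -/
theorem antichain_le (A : Set (Cond K Θ)) (hA : A ⊆ PT nm ⊤)
    (hinc : ∀ a ∈ A, ∀ b ∈ A, a ≠ b → ∀ r ∈ PT nm ⊤, ¬ (r ≤ a ∧ r ≤ b)) :
    Cardinal.mk A ≤ 2 ^ Cardinal.aleph0 := by
  classical
  rcases A.eq_empty_or_nonempty with rfl | ⟨a0, ha0⟩
  · rw [Cardinal.mk_eq_zero]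
    exact zero_le
  have hen : ∀ a : A, ∃ e : ℕ → Option Θ, e 0 = none ∧ ∀ x, x ∈ a.1.F ↔ ∃ n, e n = some x :=
    fun a => CCb_enum (hA a.2).1.1
  choose en hen0 hen1 using hen
  obtain ⟨ch, hch⟩ : ∃ ch : (ℕ → ℕ) × CCb_Tr K → (ℕ → A) → A, ∀ (k : ℕ → ℕ) (t : CCb_Tr K) (s : ℕ → A),
      (∃ a : A, (∀ n y, en (s n) (k n) = some y → y ∈ a.1.F) ∧
        CCb_tr (fun n => en (s n) (k n)) a.1 = t) →
      (∀ n y, en (s n) (k n) = some y → y ∈ (ch (k, t) s).1.F) ∧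
        CCb_tr (fun n => en (s n) (k n)) (ch (k, t) s).1 = t := by
    refine ⟨fun x s => if h : ∃ a : A, (∀ n y, en (s n) (x.1 n) = some y → y ∈ a.1.F) ∧
        CCb_tr (fun n => en (s n) (x.1 n)) a.1 = x.2 then h.choose else ⟨a0, ha0⟩, ?_⟩
    intro k t s h
    simp only [dif_pos h]
    exact h.choose_spec
  let op : (Σ o : Option ((ℕ → ℕ) × CCb_Tr K), (CCb_ar _ o → A)) → A := fun p =>
    match p with
    | ⟨none, _⟩ => ⟨a0, ha0⟩
    | ⟨some x, s⟩ => ch x s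
  let ev : WType (CCb_ar ((ℕ → ℕ) × CCb_Tr K)) → A := fun w => WType.elim A op w
  have hev : ∀ (x : (ℕ → ℕ) × CCb_Tr K) (w : ℕ → WType (CCb_ar ((ℕ → ℕ) × CCb_Tr K))),
      ev (WType.mk (some x) w) = ch x (fun n => ev (w n)) := fun x w => rfl
  have hsurj : Function.Surjective ev := by
    intro a
    have hRc : {x | x ∈ a.1.F ∧ ∃ w, x ∈ (ev w).1.F}.Countable :=
      ((hA a.2).1.1).mono fun x hx => hx.1
    obtain ⟨ρ, -, hρ⟩ := CCb_enum hRc
    have h1 : ∀ n, ∃ w : WType (CCb_ar ((ℕ → ℕ) × CCb_Tr K)), ∃ k, en (ev w) k = ρ n := by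
      intro n
      cases hn : ρ n with
      | none =>
        exact ⟨WType.mk none (fun x => Empty.elim x), 0, hen0 _⟩
      | some x =>
        obtain ⟨-, w, hw⟩ := (hρ x).2 ⟨n, hn⟩
        obtain ⟨k, hk⟩ := (hen1 (ev w) x).1 hw
        exact ⟨w, k, hk⟩
    choose w k hk using h1
    refine ⟨WType.mk (some (k, CCb_tr ρ a.1)) w, ?_⟩
    have hk' : (fun n => en (ev (w n)) (k n)) = ρ := funext hk
    have h2 := hch k (CCb_tr ρ a.1) (fun n => ev (w n)) ⟨a, ?_, by rw [hk']⟩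
    · rw [← hev, hk'] at h2
      obtain ⟨a', ha'⟩ : ∃ a' : A, a' = ev (WType.mk (some (k, CCb_tr ρ a.1)) w) := ⟨_, rfl⟩
      rw [← ha'] at h2 ⊢
      obtain ⟨hl, he, hg⟩ := CCb_tr_eq h2.2
      by_contra hne
      have hne' : a'.1 ≠ a.1 := fun h => hne (Subtype.ext h)
      obtain ⟨r, hr, hra', hra⟩ := compat (hA a'.2) (hA a.2) hl
        (fun α β hαβ hβ => he α β (hαβ.trans hβ) hβ) (fun η hη' hη α hα => by
          obtain ⟨n, hn⟩ := (hρ η).1 ⟨hη, _, ha' ▸ hη'⟩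
          exact hg n η hn α hα)
      exact hinc _ a'.2 _ a.2 hne' r hr ⟨hra', hra⟩
    · intro n y hn
      rw [hk n] at hn
      exact ((hρ y).2 ⟨n, hn⟩).1
  refine (Cardinal.mk_le_of_surjective hsurj).trans (CCb_W_card _ ?_)
  exact CCb_prod (CCb_arrow Cardinal.mk_nat.le (by rw [Cardinal.mk_nat]; exact (Cardinal.cantor _).le))
    (CCb_Tr_card K)

end Pool.Agent.Lib.MP_d41870_lc.HM
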