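import Pool.Agent.Lib.MP_d41870_lc.HM.CCa

/-! Stages and names. -/

set_option autoImplicit false
set_option linter.unusedSectionVars false

namespace Pool.Agent.Lib.MP_d41870_lc.HM

open Set

theorem CCk_mk_K (K : Type) [LinearOrder K] [W1 K] : Cardinal.mk K ≤ 2 ^ Cardinal.aleph0 := by
  by_contra hcon
  rw [not_le] at hcon
  have h1 : Cardinal.aleph 1 ≤ 2 ^ Cardinal.aleph0 := by
    rw [Cardinal.two_power_aleph0]
    exact Cardinal.aleph_one_le_continuum
  have h2 : Cardinal.aleph 1 < Cardinal.mk K := h1.trans_lt hcon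
  obtain ⟨S, hS⟩ := Cardinal.le_mk_iff_exists_set.1 h2.le
  have h0 : Cardinal.aleph0 ≤ Cardinal.aleph 1 := Cardinal.aleph0_le_aleph 1
  have h3 : Cardinal.mk (⋃ s : S, Iio (s : K)) ≤ Cardinal.aleph 1 := by
    refine (Cardinal.mk_iUnion_le _).trans ?_
    refine Cardinal.mul_le_of_le h0 hS.le ?_
    refine ciSup_le' fun s => ?_
    exact (Cardinal.le_aleph0_iff_set_countable.2 (W1.cnt (s : K))).trans h0
  have h4 : ∃ x, x ∉ ⋃ s : S, Iio (s : K) := by
    by_contra h5
    push Not at h5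
    have h6 : (⋃ s : S, Iio (s : K)) = univ := eq_univ_of_forall h5
    rw [h6, Cardinal.mk_univ] at h3
    exact absurd h2 (not_lt.2 h3)
  obtain ⟨x, hx⟩ := h4
  have h5 : S ⊆ Iic x := by
    intro s hs
    by_contra h6
    exact hx (mem_iUnion.2 ⟨⟨s, hs⟩, not_le.1 h6⟩)
  have h6 : (Iic x).Countable := by
    rw [← Iio_insert]
    exact (W1.cnt x).insert x
  have h7 := Cardinal.le_aleph0_iff_set_countable.2 (h6.mono h5)
  rw [hS] at h7
  exact absurd Cardinal.aleph0_lt_aleph_one (not_lt.2 h7)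

/-- The data of a canonical condition. -/
abbrev CCk_Data (K Θ : Type) : Type := K × (ℕ → Option Θ) × (K × K → Prop) × (ℕ × K → ℕ)

open Classical in
noncomputable def CCk_toCond {K Θ : Type} (x : CCk_Data K Θ) : Cond K Θ where
  l := x.1
  F := {η | ∃ n, x.2.1 n = some η}
  e := fun α β => x.2.2.1 (α, β)
  g := fun η α => if h : ∃ n, x.2.1 n = some η then x.2.2.2 (Nat.find h, α) else 0

theorem CCk_surj {K Θ : Type} [LinearOrder K] [Nonempty Θ] (r : Cond K Θ) (hr : Can r) :
    ∃ x : CCk_Data K Θ, CCk_toCond x = r := by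
  classical
  obtain ⟨hF, -, hg⟩ := hr
  obtain ⟨v, hv⟩ := Set.countable_iff_exists_subset_range.1 hF
  let u : ℕ → Option Θ := fun n => if v n ∈ r.F then some (v n) else none
  have hu : ∀ n η, u n = some η → η ∈ r.F := by
    intro n η h
    show η ∈ r.F
    by_cases h1 : v n ∈ r.F
    · have h2 : u n = some (v n) := if_pos h1
      rw [h2] at h
      rw [← Option.some.inj h]
      exact h1
    · have h2 : u n = none := if_neg h1
      rw [h2] at h
      exact absurd h (by simp)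
  have hu' : ∀ η ∈ r.F, ∃ n, u n = some η := by
    intro η hη
    obtain ⟨n, hn⟩ := hv hη
    refine ⟨n, ?_⟩
    show (if v n ∈ r.F then some (v n) else none) = some η
    rw [hn, if_pos hη]
  let h : ℕ × K → ℕ := fun y => (u y.1).elim 0 (fun η => r.g η y.2)
  refine ⟨(r.l, u, fun y => r.e y.1 y.2, h), ?_⟩
  unfold CCk_toCond
  have e1 : {η | ∃ n, u n = some η} = r.F := by
    ext η
    exact ⟨fun ⟨n, hn⟩ => hu n η hn, fun hη => hu' η hη⟩
  have e2 : (fun η α => if h' : ∃ n, u n = some η then h (Nat.find h', α) else 0) = r.g := by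
    funext η α
    by_cases h' : ∃ n, u n = some η
    · rw [dif_pos h']
      show (u (Nat.find h')).elim 0 (fun η => r.g η α) = r.g η α
      rw [Nat.find_spec h']
      rfl
    · rw [dif_neg h']
      by_contra hne
      exact h' (hu' η (hg η α (fun h0 => hne h0.symm)).1)
  show (⟨r.l, {η | ∃ n, u n = some η}, fun α β => r.e α β,
    fun η α => if h' : ∃ n, u n = some η then h (Nat.find h', α) else 0⟩ : Cond K Θ) = r
  rw [e1, e2]

theorem CCk_mk_can (K Θ : Type) [LinearOrder K] [W1 K] [Nonempty Θ]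
    (h : Cardinal.mk Θ = 2 ^ (2 ^ Cardinal.aleph0 : Cardinal.{0})) :
    Cardinal.mk (Option {r : Cond K Θ // Can r}) ≤ 2 ^ (2 ^ Cardinal.aleph0 : Cardinal.{0}) := by
  classical
  have hK := CCk_mk_K K
  have hc : Cardinal.aleph0 ≤ 2 ^ Cardinal.aleph0 := (Cardinal.cantor _).le
  have hlc : (2 ^ Cardinal.aleph0 : Cardinal.{0}) ≤ 2 ^ (2 ^ Cardinal.aleph0 : Cardinal.{0}) :=
    (Cardinal.cantor _).le
  have h2 : Cardinal.aleph0 ≤ 2 ^ (2 ^ Cardinal.aleph0 : Cardinal.{0}) := hc.trans hlc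
  have hpow : ∀ (a b : Cardinal.{0}), a ≤ 2 ^ (2 ^ Cardinal.aleph0 : Cardinal.{0}) →
      b ≤ 2 ^ Cardinal.aleph0 → a ^ b ≤ 2 ^ (2 ^ Cardinal.aleph0 : Cardinal.{0}) := by
    intro a b ha hb
    have h20 : (2 ^ (2 ^ Cardinal.aleph0 : Cardinal.{0}) : Cardinal.{0}) ≠ 0 :=
      (Cardinal.aleph0_pos.trans_le h2).ne'
    calc a ^ b ≤ (2 ^ (2 ^ Cardinal.aleph0 : Cardinal.{0})) ^ b := Cardinal.power_le_power_right ha
      _ ≤ (2 ^ (2 ^ Cardinal.aleph0 : Cardinal.{0})) ^ (2 ^ Cardinal.aleph0 : Cardinal.{0}) :=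
          Cardinal.power_le_power_left h20 hb
      _ = 2 ^ (2 ^ Cardinal.aleph0 : Cardinal.{0}) := by
          rw [← Cardinal.power_mul, Cardinal.mul_eq_self hc]
  have h3 : Cardinal.mk (CCk_Data K Θ) ≤ 2 ^ (2 ^ Cardinal.aleph0 : Cardinal.{0}) := by
    unfold CCk_Data
    simp only [Cardinal.mk_prod, Cardinal.lift_id]
    refine Cardinal.mul_le_of_le h2 (hK.trans hlc) (Cardinal.mul_le_of_le h2 ?_
      (Cardinal.mul_le_of_le h2 ?_ ?_))
    · rw [← Cardinal.power_def]
      refine hpow _ _ ?_ (Cardinal.mk_nat ▸ hc)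
      rw [Cardinal.mk_option, h]
      exact Cardinal.add_le_of_le h2 le_rfl (Cardinal.one_le_aleph0.trans h2)
    · rw [← Cardinal.power_def, Cardinal.mk_prod, Cardinal.lift_id]
      refine hpow _ _ ?_ (Cardinal.mul_le_of_le hc hK hK)
      exact ((Cardinal.mk_le_aleph0 (α := Prop)).trans h2)
    · rw [← Cardinal.power_def, Cardinal.mk_prod, Cardinal.lift_id, Cardinal.lift_id]
      refine hpow _ _ ?_ (Cardinal.mul_le_of_le hc (Cardinal.mk_nat.le.trans hc) hK)
      exact (Cardinal.mk_nat).le.trans h2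
  have h4 : Cardinal.mk {r : Cond K Θ // Can r} ≤ 2 ^ (2 ^ Cardinal.aleph0 : Cardinal.{0}) := by
    refine le_trans ?_ h3
    choose x hx using fun r : {r : Cond K Θ // Can r} => CCk_surj r.1 r.2
    refine Cardinal.mk_le_of_injective (f := x) ?_
    intro r s hrs
    apply Subtype.ext
    rw [← hx r, ← hx s, hrs]
  rw [Cardinal.mk_option]
  exact Cardinal.add_le_of_le h2 h4 (Cardinal.one_le_aleph0.trans h2)

/-- Row CCa.  Stages of the iteration and names for all stages.  PROOF.  As `Forc.exists_book` in `NSIter.lean` (copy it): let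
`lam = 2 ^ (2 ^ ℵ₀)`, `Θ = lam.ord.ToType`.  The cofinality of `lam` is greater than `2 ^ ℵ₀` (König) and
`#(K × K × AC × ℕ) = 2 ^ ℵ₀`, so the first statement; there are at most `lam ^ ℵ₀ = lam` canonical conditions
(`l`: `ℵ₁`; `F` countable; `e` and `g` have countable supports), so at most `lam ^ (2 ^ ℵ₀) = lam` names `c` all of whose values are
canonical, so there is a map of `Θ` onto `(names) × Θ`, hence (`lam` is a cardinal) every name is a value at stages above any `ξ`. -/
theorem exists_book (K : Type) [LinearOrder K] [W1 K] : ∃ (Θ : Type) (_ : LinearOrder Θ)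
    (_ : WellFoundedLT Θ) (_ : OrderBot Θ) (_ : NoMaxOrder Θ) (nm : Θ → Nm K Θ),
    (∀ f : K × K × AC × ℕ → Θ, ∃ η, ∀ x, f x < η) ∧
    ∀ (c : Nm K Θ) (ξ : Θ), (∀ α β i r, c α β i = some r → Can r) → ∃ η, ξ < η ∧ nm η = c := by
  classical
  have hK := CCk_mk_K K
  have hc : Cardinal.aleph0 ≤ 2 ^ Cardinal.aleph0 := (Cardinal.cantor _).le
  set lam : Cardinal.{0} := 2 ^ (2 ^ Cardinal.aleph0 : Cardinal.{0}) with hlam
  have hlc : (2 ^ Cardinal.aleph0 : Cardinal.{0}) ≤ lam := (Cardinal.cantor _).le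
  have h2 : Cardinal.aleph0 ≤ lam := hc.trans hlc
  set Θ : Type := lam.ord.ToType with hΘ
  have hcard : Cardinal.mk Θ = lam := by simp [hΘ]
  have : Infinite Θ := Cardinal.aleph0_le_mk_iff.1 (by rw [hcard]; exact h2)
  have hbot : ∃ b : Θ, ∀ a, b ≤ a := by
    obtain ⟨b, -, hb⟩ := (wellFounded_lt (α := Θ)).has_min univ ⟨Classical.arbitrary Θ, trivial⟩
    exact ⟨b, fun a => not_lt.1 (hb a trivial)⟩
  obtain ⟨b, hb⟩ := hbot
  have hKne : Nonempty K := by
    by_contra hne
    rw [not_nonempty_iff] at hne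
    exact W1.unc (K := K) (Set.countable_univ)
  have hIio : ∀ i : Θ, Cardinal.mk (Iic i) < lam := by
    intro i
    have h3 := Cardinal.mk_Iio_toType_ord_lt i
    have h4 : Cardinal.mk (Iic i) ≤ Cardinal.mk (Iio i) + 1 := by
      rw [← Iio_insert]
      exact Cardinal.mk_insert_le
    exact h4.trans_lt (Cardinal.add_lt_of_lt h2 h3
      (Cardinal.one_lt_aleph0.trans_le h2))
  have hAC : Cardinal.mk AC = 2 ^ Cardinal.aleph0 := by
    unfold AC
    rw [← Cardinal.power_def, Cardinal.mk_nat, Cardinal.mk_bool]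
  have hKKN : Cardinal.mk (K × K × AC × ℕ) ≤ 2 ^ Cardinal.aleph0 := by
    simp only [Cardinal.mk_prod, Cardinal.lift_id]
    refine Cardinal.mul_le_of_le hc hK (Cardinal.mul_le_of_le hc hK (Cardinal.mul_le_of_le hc ?_ ?_))
    · rw [hAC]
    · rw [Cardinal.mk_nat]; exact hc
  have hKKA : Cardinal.mk (K × K × AC) ≤ 2 ^ Cardinal.aleph0 := by
    simp only [Cardinal.mk_prod, Cardinal.lift_id]
    refine Cardinal.mul_le_of_le hc hK (Cardinal.mul_le_of_le hc hK ?_)
    rw [hAC]
  have hNm : Cardinal.mk (K × K × AC → Option {r : Cond K Θ // Can r}) ≤ lam := by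
    have h3 := CCk_mk_can K Θ hcard
    rw [← Cardinal.power_def]
    have hne : lam ≠ 0 := (Cardinal.aleph0_pos.trans_le h2).ne'
    calc Cardinal.mk (Option {r : Cond K Θ // Can r}) ^ Cardinal.mk (K × K × AC)
        ≤ lam ^ Cardinal.mk (K × K × AC) := Cardinal.power_le_power_right h3
      _ ≤ lam ^ (2 ^ Cardinal.aleph0 : Cardinal.{0}) := Cardinal.power_le_power_left hne hKKA
      _ = lam := by
          rw [hlam, ← Cardinal.power_mul, Cardinal.mul_eq_self hc]
  have hNm0 : Cardinal.mk (K × K × AC → Option {r : Cond K Θ // Can r}) ≠ 0 := by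
    rw [Cardinal.mk_ne_zero_iff]
    exact ⟨fun _ => none⟩
  obtain ⟨e⟩ : Nonempty (Θ ≃ Θ × (K × K × AC → Option {r : Cond K Θ // Can r})) := by
    rw [← Cardinal.eq, Cardinal.mk_prod, Cardinal.lift_id, Cardinal.lift_id, hcard,
      Cardinal.mul_eq_left h2 hNm hNm0]
  have hcof : ∀ f : K × K × AC × ℕ → Θ, ∃ η, ∀ x, f x < η := by
    intro f
    by_contra hcon
    push Not at hcon
    have h3 : IsCofinal (range f) := fun η => by
      obtain ⟨x, hx⟩ := hcon η
      exact ⟨f x, mem_range_self x, hx⟩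
    have h4 := Order.cof_le h3
    have h5 : Order.cof Θ = lam.ord.cof := Ordinal.cof_toType _
    have h6 : (2 ^ Cardinal.aleph0 : Cardinal.{0}) < lam.ord.cof := Cardinal.lt_cof_ord_power hc (by
      exact Cardinal.one_lt_two)
    rw [h5] at h4
    exact absurd (h6.trans_le (h4.trans (Cardinal.mk_range_le.trans hKKN))) (lt_irrefl _)
  have hmax : NoMaxOrder Θ := by
    refine ⟨fun a => ?_⟩
    obtain ⟨η, hη⟩ := hcof (fun _ => a)
    exact ⟨η, hη (Classical.arbitrary K, Classical.arbitrary K, (fun _ => true), 0)⟩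
  refine ⟨Θ, inferInstance, inferInstance, { bot := b, bot_le := hb }, hmax,
    fun ξ α β i => ((e ξ).2 (α, β, i)).map Subtype.val, hcof, ?_⟩
  intro c ξ hcan
  let d : K × K × AC → Option {r : Cond K Θ // Can r} := fun x =>
    if h : ∃ r, c x.1 x.2.1 x.2.2 = some r then some ⟨h.choose, hcan _ _ _ _ h.choose_spec⟩ else none
  have hd : (fun α β i => (d (α, β, i)).map Subtype.val) = c := by
    funext α β i
    show Option.map Subtype.val (if h : ∃ r, c α β i = some r then
      some (⟨h.choose, hcan _ _ _ _ h.choose_spec⟩ : {r : Cond K Θ // Can r}) else none) = c α β i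
    by_cases h : ∃ r, c α β i = some r
    · rw [dif_pos h, Option.map_some]
      exact h.choose_spec.symm
    · rw [dif_neg h]
      push Not at h
      exact (Option.eq_none_iff_forall_ne_some.2 h).symm
  by_contra hcon
  push Not at hcon
  have h3 : Cardinal.mk Θ ≤ Cardinal.mk (Iic ξ) := by
    refine Cardinal.mk_le_of_injective (f := fun x => ⟨e.symm (x, d), ?_⟩) ?_
    · by_contra h4
      refine hcon _ (not_le.1 h4) ?_
      rw [Equiv.apply_symm_apply]
      exact hd
    · intro x y hxy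
      have h5 := congrArg Subtype.val hxy
      simpa using h5
  rw [hcard] at h3
  exact absurd (hIio ξ) (not_lt.2 h3)

end Pool.Agent.Lib.MP_d41870_lc.HM
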