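import Mathlib

/-! Countable closed sets. -/

set_option autoImplicit false
set_option linter.unusedSectionVars false

namespace Pool.Agent.Lib.MP_d41870_lc.HM

open Set

theorem Ma_lists {A : Type} (M : Set A) (h : M.Countable) : {L : List A | ∀ x ∈ L, x ∈ M}.Countable := by
  have := h.to_subtype
  rw [← Set.range_list_map_coe]
  exact Set.countable_range _

theorem Ma_list_mem {A : Type} (N : ℕ → Set A) (hN : Monotone N) (L : List A) (hL : ∀ x ∈ L, x ∈ ⋃ k, N k) :
    ∃ k, ∀ x ∈ L, x ∈ N k := by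
  induction L with
  | nil => exact ⟨0, by simp⟩
  | cons a L ih =>
    obtain ⟨k, hk⟩ := ih fun x hx => hL x (List.mem_cons_of_mem _ hx)
    obtain ⟨j, hj⟩ := Set.mem_iUnion.1 (hL a List.mem_cons_self)
    refine ⟨max j k, fun x hx => ?_⟩
    rcases List.mem_cons.1 hx with rfl | hx
    · exact hN (le_max_left _ _) hj
    · exact hN (le_max_right _ _) (hk x hx)

/-- Row Ma.  PROOF.  `Φ' L = Φ L ∪ ⋃ n, {x | x ∈ y n L}` where `y n L` is a chosen list with `R n L (y n L)` if there is one (`[]` otherwise);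
`N 0 = S`, `N (k+1) = N k ∪ ⋃ {L | ∀ x ∈ L, x ∈ N k}, Φ' L`, `N = ⋃ k, N k`.  Lists over a countable set are a countable set
(`Set.Countable.setOf_list`-like; or lists over the subtype); a finite list in `N` is in some `N k`. -/
theorem exists_closed {A : Type} (S : Set A) (hS : S.Countable) (Φ : List A → Set A)
    (hΦ : ∀ L, (Φ L).Countable) (R : ℕ → List A → List A → Prop) :
    ∃ N : Set A, N.Countable ∧ S ⊆ N ∧ (∀ L : List A, (∀ x ∈ L, x ∈ N) → Φ L ⊆ N) ∧
      ∀ (n : ℕ) (L : List A), (∀ x ∈ L, x ∈ N) → (∃ y, R n L y) → ∃ y, (∀ x ∈ y, x ∈ N) ∧ R n L y := by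
  classical
  have hy : ∀ (n : ℕ) (L : List A), ∃ y : List A, (∃ y', R n L y') → R n L y := by
    intro n L
    by_cases h : ∃ y', R n L y'
    · exact ⟨h.choose, fun _ => h.choose_spec⟩
    · exact ⟨[], fun h' => absurd h' h⟩
  choose y hy using hy
  set Φ' : List A → Set A := fun L => Φ L ∪ ⋃ n, {x | x ∈ y n L} with hΦ'
  have hc : ∀ L, (Φ' L).Countable := fun L =>
    (hΦ L).union (Set.countable_iUnion fun n => (List.finite_toSet (y n L)).countable)
  set step : Set A → Set A := fun M => M ∪ ⋃ L ∈ {L : List A | ∀ x ∈ L, x ∈ M}, Φ' L with hstep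
  set N : ℕ → Set A := fun k => Nat.rec S (fun _ M => step M) k with hN
  have hsucc : ∀ k, N (k + 1) = step (N k) := fun k => rfl
  have hcount : ∀ k, (N k).Countable := by
    intro k
    induction k with
    | zero => exact hS
    | succ k ih =>
      rw [hsucc]
      exact ih.union (Set.Countable.biUnion (Ma_lists _ ih) fun L _ => hc L)
  have hmono : Monotone N := monotone_nat_of_le_succ fun k => by
    rw [hsucc]
    exact Set.subset_union_left
  have hstepmem : ∀ k (L : List A), (∀ x ∈ L, x ∈ N k) → Φ' L ⊆ N (k + 1) := by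
    intro k L hL x hx
    rw [hsucc]
    exact Or.inr (Set.mem_biUnion hL hx)
  refine ⟨⋃ k, N k, Set.countable_iUnion hcount, Set.subset_iUnion N 0, ?_, ?_⟩
  · intro L hL x hx
    obtain ⟨k, hk⟩ := Ma_list_mem N hmono L hL
    exact Set.mem_iUnion.2 ⟨k + 1, hstepmem k L hk (Or.inl hx)⟩
  · intro n L hL hex
    obtain ⟨k, hk⟩ := Ma_list_mem N hmono L hL
    refine ⟨y n L, fun x hx => ?_, hy n L hex⟩
    exact Set.mem_iUnion.2 ⟨k + 1, hstepmem k L hk (Or.inr (Set.mem_iUnion.2 ⟨n, hx⟩))⟩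

end Pool.Agent.Lib.MP_d41870_lc.HM
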