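import Pool.Agent.Lib.MP_d41870_lc.HM.Mo
import Pool.Agent.Lib.MP_d41870_lc.HM.Ma
import Pool.Agent.Lib.MP_d41870_lc.HM.C1a
import Pool.Agent.Lib.MP_d41870_lc.HM.C1b

/-! Existence of countable models. -/

set_option autoImplicit false
set_option linter.unusedSectionVars false

namespace Pool.Agent.Lib.MP_d41870_lc.HM

open Set

/-- The objects of a countable model. -/
inductive Ob (K Θ : Type) : Type
  | k (a : K) : Ob K Θ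
  | t (ξ : WithTop Θ) : Ob K Θ
  | c (p : Cond K Θ) : Ob K Θ
  | x (ξ : WithTop Θ) (X : Name K Θ) : Ob K Θ

variable {K Θ : Type} [LinearOrder K] [W1 K] [LinearOrder Θ] [WellFoundedLT Θ]

open Ob

/-- Skolem functions. -/
inductive Rel [OrderBot Θ] (nm : Θ → Nm K Θ) : ℕ → ℕ → List (Ob K Θ) → List (Ob K Θ) → Prop
  | len (p : Cond K Θ) : Rel nm 0 0 [c p] [k p.l]
  | res (p : Cond K Θ) (ξ : WithTop Θ) : Rel nm 1 0 [c p, t ξ] [c (p.res ξ)]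
  | lenX (ζ : WithTop Θ) : Rel nm 2 0 [t ζ] [x ζ LenX]
  | and (ξ : WithTop Θ) (X Y : Name K Θ) : Rel nm 3 0 [x ξ X, x ξ Y] [x ξ (andX X Y)]
  | up (ξ : WithTop Θ) (X : Name K Θ) : Rel nm 4 0 [x ξ X] [x ξ (upX X)]
  | lE (ζ ξ : WithTop Θ) (p : Cond K Θ) (X : Name K Θ) (β γ : K) :
      Rel nm 5 0 [t ξ, c p, x ζ X, k β, k γ] [x ξ (LEX nm ζ ξ p (X β γ))]
  | lY (ζ ξ : WithTop Θ) (p : Cond K Θ) (X : Name K Θ) : Rel nm 6 0 [t ξ, c p, x ζ X] [x ξ (LYX nm ζ ξ p X)]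
  | sE (μ ν : Θ) (m : ℕ) (p : Cond K Θ) (X : Name K Θ) (β γ : K) :
      Rel nm 7 m [t μ, c p, x ν X, k β, k γ] [x μ (SEX nm μ ν m p (X β γ))]
  | sY (μ ν : Θ) (m : ℕ) (p : Cond K Θ) (X : Name K Θ) :
      Rel nm 8 m [t μ, c p, x ν X] [x μ (SYX nm μ ν m p X)]
  | lim (a a' : K) (h : a < a') : Rel nm 9 0 [k a] [k a']
  | succ (μ ν : Θ) (h : μ < ν) (h' : ∀ η, η < ν → η ≤ μ) : Rel nm 10 0 [t μ] [t ν]
  | stage (μ ν : Θ) (p q : Cond K Θ) (h1 : q ∈ PT nm ν) (h2 : q ≤ p) (h3 : q.l = p.l) (h4 : μ ∈ q.F)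
      (h5 : p.res μ ≤ q.res μ) : Rel nm 11 0 [t μ, t ν, c p] [c q]
  | dec (p d : Cond K Θ) (X : Name K Θ) (β γ : K) (h1 : d ∈ Dec (PT nm (⊥ : Θ)) (X β γ)) (h2 : d ≤ p) :
      Rel nm 12 0 [c p, x (⊥ : Θ) X, k β, k γ] [c d]
  | upS (s : Cond K Θ) (X : Name K Θ) (β β' γ' : K) (h1 : β < β') (h2 : s ∈ X β' γ') :
      Rel nm 13 0 [c s, x (⊥ : Θ) X, k β] [k β', k γ']
  | lES (ζ ξ : WithTop Θ) (p d s : Cond K Θ) (X : Name K Θ) (β γ : K) (h : LE nm ζ ξ p (X β γ) d s) :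
      Rel nm 14 0 [t ξ, c p, x ζ X, k β, k γ, c s] [c d]
  | lYS (ζ ξ : WithTop Θ) (p d s : Cond K Θ) (X : Name K Θ) (β γ : K) (h : LY nm ζ ξ p (X β γ) d s) :
      Rel nm 15 0 [t ξ, c p, x ζ X, k β, k γ, c s] [c d]
  | sES (μ ν : Θ) (m : ℕ) (p s : Cond K Θ) (X : Name K Θ) (β γ α : K) (h : SC nm μ ν m p (X β γ) α s) :
      Rel nm 16 m [t μ, c p, x ν X, k β, k γ, c s] [k α]
  | sES' (μ ν : Θ) (m : ℕ) (p d s : Cond K Θ) (X : Name K Θ) (β γ α v : K) (h : SD nm μ ν m p (X β γ) α v d s) :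
      Rel nm 17 m [t μ, c p, x ν X, k β, k γ, c s, k α, k v] [c d]
  | sYS (μ ν : Θ) (m : ℕ) (p d s : Cond K Θ) (X : Name K Θ) (β γ v : K) (h : SH nm μ ν m p X β γ v d s) :
      Rel nm 18 m [t μ, c p, x ν X, k β, k γ, c s, k v] [c d]

theorem Mb_Phi (L : List (Ob K Θ)) :
    {o : Ob K Θ | (∃ a a', L = [k a] ∧ a' < a ∧ o = k a') ∨
      ∃ p : Cond K Θ, ∃ η, L = [c p] ∧ p.F.Countable ∧ η ∈ p.F ∧ o = t (η : WithTop Θ)}.Countable := by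
  by_cases h1 : ∃ a, L = [k a]
  · obtain ⟨a, rfl⟩ := h1
    refine ((W1.cnt a).image k).mono ?_
    rintro o (⟨a1, a', h, h2, rfl⟩ | ⟨p, η, h, -⟩)
    · simp only [List.cons.injEq, Ob.k.injEq, and_true] at h
      subst h
      exact ⟨a', h2, rfl⟩
    · simp at h
  · by_cases h2 : ∃ p : Cond K Θ, L = [c p] ∧ p.F.Countable
    · obtain ⟨p, rfl, hp⟩ := h2
      refine (hp.image fun η : Θ => t (η : WithTop Θ)).mono ?_
      rintro o (⟨a1, a', h, h2, rfl⟩ | ⟨p', η, h, h3, h4, rfl⟩)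
      · simp at h
      · simp only [List.cons.injEq, Ob.c.injEq, and_true] at h
        subst h
        exact ⟨η, h4, rfl⟩
    · refine Set.countable_empty.mono ?_
      rintro o (⟨a1, a', h, -⟩ | ⟨p', η, h, h3, h4⟩)
      · exact h1 ⟨a1, h⟩
      · exact h2 ⟨p', h, h3⟩

theorem exists_Mod [OrderBot Θ] [NoMaxOrder Θ] (nm : Θ → Nm K Θ) (p : Cond K Θ) (hp : p.F.Countable)
    (X : ℕ → Name K Θ) (hX : ∀ n β γ, OpenIn (PT nm ⊤) (X n β γ)) :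
    ∃ M : Mod nm, p ∈ M.CO ∧ ∀ n, X n ∈ M.XX ⊤ := by
  classical
  obtain ⟨N, hN, hS, hΦ, hR0⟩ := exists_closed (A := Ob K Θ)
    (insert (c p) (insert (t ⊤) (insert (t ((⊥ : Θ) : WithTop Θ)) (range fun n => x ⊤ (X n)))))
    (((((countable_range _).insert _).insert _).insert _)) _ Mb_Phi
    (fun n => Rel nm (Nat.unpair n).1 (Nat.unpair n).2)
  have hR : ∀ (i m : ℕ) (L : List (Ob K Θ)), (∀ y ∈ L, y ∈ N) → (∃ y, Rel nm i m L y) →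
      ∃ y, (∀ z ∈ y, z ∈ N) ∧ Rel nm i m L y := by
    intro i m L hL h
    have := hR0 (Nat.pair i m) L hL
    simp only [Nat.unpair_pair] at this
    exact this h
  clear hR0
  have hcp : c p ∈ N := hS (by simp)
  have htt : t ⊤ ∈ N := hS (by simp)
  have htb : t ((⊥ : Θ) : WithTop Θ) ∈ N := hS (by simp)
  have hxX : ∀ n, x ⊤ (X n) ∈ N := fun n => hS (by simp)
  have hbel : ∀ a a', k a ∈ N → a' < a → k a' ∈ N := by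
    intro a a' h1 h2
    exact hΦ [k a] (by simpa using h1) (Or.inl ⟨a, a', rfl, h2, rfl⟩)
  have hsup : ∀ q : Cond K Θ, c q ∈ N → q.F.Countable → ∀ η ∈ q.F, t (η : WithTop Θ) ∈ N := by
    intro q h1 h2 η h3
    exact hΦ [c q] (by simpa using h1) (Or.inr ⟨q, η, rfl, h2, h3, rfl⟩)
  clear hΦ
  -- the vertices
  have hne : ∃ a : K, k a ∉ N := by
    by_contra hcon
    push Not at hcon
    refine W1.unc (K := K) ?_
    have h1 : (k ⁻¹' N : Set K).Countable := hN.preimage fun a b h => by simpa using h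
    exact h1.mono fun a _ => hcon a
  obtain ⟨δ, hδ, hmin⟩ := (wellFounded_lt (α := K)).has_min {a : K | k a ∉ N} hne
  have hk : ∀ a, k a ∈ N ↔ a < δ := by
    intro a
    constructor
    · intro h
      by_contra hle
      rcases (not_lt.1 hle).eq_or_lt with h1 | h1
      · subst h1
        exact hδ h
      · exact hδ (hbel a δ h h1)
    · intro h
      by_contra h1
      exact hmin a h1 h
  have hζ : ∀ ζ : WithTop Θ, (ζ = ⊤ ∨ ∃ η ∈ {ξ : Θ | t (ξ : WithTop Θ) ∈ N}, ζ = (η : WithTop Θ)) → t ζ ∈ N := by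
    rintro ζ (rfl | ⟨η, h, rfl⟩)
    · exact htt
    · exact h
  let M : Mod nm :=
  { δ := δ
    TH := {ξ | t (ξ : WithTop Θ) ∈ N}
    CO := {q | c q ∈ N ∧ q.F.Countable}
    XX := fun ξ => {Y | x ξ Y ∈ N ∧ ∀ β γ, OpenIn (PT nm ξ) (Y β γ)}
    cTH := hN.preimage fun a b h => by simpa using h
    cCO := (hN.preimage (f := c) fun a b h => by simpa using h).mono fun q h => h.1
    cXX := fun ξ => (hN.preimage (f := x ξ) fun a b h => by simpa using h).mono fun q h => h.1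
    pos := by
      obtain ⟨y, hy, h⟩ := hR 0 0 [c p] (by simpa using hcp) ⟨_, .len p⟩
      cases h
      exact ⟨p.l, (hk _).1 (hy _ (by simp))⟩
    lim := by
      intro a ha
      obtain ⟨a1, ha1⟩ := exists_ub ({a} : Set K) (countable_singleton a)
      obtain ⟨y, hy, h⟩ := hR 9 0 [k a] (by simpa using (hk a).2 ha) ⟨_, .lim a a1 (ha1 a rfl)⟩
      cases h with
      | lim _ a' h => exact ⟨a', h, (hk _).1 (hy _ (by simp))⟩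
    bot := htb
    succ := by
      intro μ hμ
      obtain ⟨ν, h1, h2⟩ : ∃ ν, μ < ν ∧ ∀ η, η < ν → η ≤ μ := by
        obtain ⟨ν, h1, h2⟩ := (wellFounded_lt (α := Θ)).has_min {ν | μ < ν} (exists_gt μ)
        exact ⟨ν, h1, fun η h => not_lt.1 fun h3 => h2 η h3 h⟩
      obtain ⟨y, hy, h⟩ := hR 10 0 [t μ] (by simpa using hμ) ⟨_, .succ μ ν h1 h2⟩
      cases h with
      | succ _ ν' h h' => exact ⟨ν', hy _ (by simp), h, h'⟩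
    len := by
      rintro q ⟨hq, hq2⟩
      obtain ⟨y, hy, h⟩ := hR 0 0 [c q] (by simpa using hq) ⟨_, .len q⟩
      cases h
      exact (hk _).1 (hy _ (by simp))
    supp := by
      rintro q ⟨hq, hq2⟩ η hη
      exact hsup q hq hq2 η hη
    res := by
      rintro q ⟨hq, hq2⟩ ξ hξ
      obtain ⟨y, hy, h⟩ := hR 1 0 [c q, t ξ] (by simpa using ⟨hq, hξ⟩) ⟨_, .res q ξ⟩
      cases h
      exact ⟨hy _ (by simp), hq2.mono fun _ h => h.1⟩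
    opn := fun ξ Y hY => hY.2
    stage := by
      rintro μ hμ ν hν h q ⟨hq, hq2⟩ hqν
      obtain ⟨q', h1, h2, h3, h4, h5⟩ := add_stage hqν (WithTop.coe_lt_coe.2 h)
      obtain ⟨y, hy, h⟩ := hR 11 0 [t μ, t ν, c q] (by simpa using ⟨hμ, hν, hq⟩)
        ⟨_, .stage μ ν q q' h1 h2 h3 h4 h5⟩
      cases h with
      | stage _ _ _ q' h1 h2 h3 h4 h5 => exact ⟨q', ⟨hy _ (by simp), h1.1.1⟩, h1, h2, h3, h4, h5⟩
    dec := by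
      rintro q ⟨hq, hq2⟩ hq0 Y ⟨hY, hY2⟩ β γ hβ hγ
      obtain ⟨d, h1, h2⟩ : ∃ d, d ∈ Dec (PT nm (⊥ : Θ)) (Y β γ) ∧ d ≤ q := by
        by_cases h : ∃ s ∈ PT nm (⊥ : Θ), s ≤ q ∧ s ∈ Y β γ
        · obtain ⟨s, h1, h2, h3⟩ := h
          exact ⟨s, ⟨h1, Or.inl h3⟩, h2⟩
        · push Not at h
          exact ⟨q, ⟨hq0, Or.inr h⟩, le_rfl⟩
      obtain ⟨y, hy, h⟩ := hR 12 0 [c q, x (⊥ : Θ) Y, k β, k γ]
        (by simpa using ⟨hq, hY, (hk β).2 hβ, (hk γ).2 hγ⟩) ⟨_, .dec q d Y β γ h1 h2⟩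
      cases h with
      | dec _ d _ _ _ h1 h2 => exact ⟨d, ⟨hy _ (by simp), h1.1.1.1⟩, h1, h2⟩
    lenX := by
      intro ζ h
      obtain ⟨y, hy, h⟩ := hR 2 0 [t ζ] (by simpa using hζ ζ h) ⟨_, .lenX ζ⟩
      cases h
      exact ⟨hy _ (by simp), open_LenX ζ⟩
    and := by
      rintro ξ hξ Y ⟨hY, hY2⟩ Z ⟨hZ, hZ2⟩
      obtain ⟨y, hy, h⟩ := hR 3 0 [x ξ Y, x ξ Z] (by simpa using ⟨hY, hZ⟩) ⟨_, .and ξ Y Z⟩
      cases h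
      exact ⟨hy _ (by simp), open_andX hY2 hZ2⟩
    up := by
      rintro Y ⟨hY, hY2⟩
      obtain ⟨y, hy, h⟩ := hR 4 0 [x (⊥ : Θ) Y] (by simpa using hY) ⟨_, .up (⊥ : Θ) Y⟩
      cases h
      exact ⟨hy _ (by simp), open_upX hY2⟩
    upS := by
      rintro Y ⟨hY, hY2⟩ s ⟨hs, hs2⟩ β γ hβ hγ ⟨β', γ', h1, h2⟩
      obtain ⟨y, hy, h⟩ := hR 13 0 [c s, x (⊥ : Θ) Y, k β]
        (by simpa using ⟨hs, hY, (hk β).2 hβ⟩) ⟨_, .upS s Y β β' γ' h1 h2⟩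
      cases h with
      | upS _ _ _ β' γ' h1 h2 => exact ⟨β', γ', h1, (hk _).1 (hy _ (by simp)), (hk _).1 (hy _ (by simp)), h2⟩
    lE := by
      rintro ζ h ξ hξ hξζ q ⟨hq, hq2⟩ Y ⟨hY, hY2⟩ β γ hβ hγ
      obtain ⟨y, hy, h⟩ := hR 5 0 [t ξ, c q, x ζ Y, k β, k γ]
        (by simpa using ⟨hξ, hq, hY, (hk β).2 hβ, (hk γ).2 hγ⟩) ⟨_, .lE ζ ξ q Y β γ⟩
      cases h
      exact ⟨hy _ (by simp), open_LEX _ _ _ _⟩
    lES := by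
      rintro ζ h ξ hξ hξζ q ⟨hq, hq2⟩ Y ⟨hY, hY2⟩ β γ hβ hγ s ⟨hs, hs2⟩ ⟨d, hd⟩
      obtain ⟨y, hy, h⟩ := hR 14 0 [t ξ, c q, x ζ Y, k β, k γ, c s]
        (by simpa using ⟨hξ, hq, hY, (hk β).2 hβ, (hk γ).2 hγ, hs⟩) ⟨_, .lES ζ ξ q d s Y β γ hd⟩
      cases h with
      | lES _ _ _ d _ _ _ _ h => exact ⟨d, ⟨hy _ (by simp), h.1.1.1.1⟩, h⟩
    lY := by
      rintro ζ h ξ hξ hξζ q ⟨hq, hq2⟩ Y ⟨hY, hY2⟩
      obtain ⟨y, hy, h⟩ := hR 6 0 [t ξ, c q, x ζ Y]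
        (by simpa using ⟨hξ, hq, hY⟩) ⟨_, .lY ζ ξ q Y⟩
      cases h
      exact ⟨hy _ (by simp), open_LYX _ _ _ _⟩
    lYS := by
      rintro ζ h ξ hξ hξζ q ⟨hq, hq2⟩ Y ⟨hY, hY2⟩ β γ hβ hγ s ⟨hs, hs2⟩ ⟨d, hd⟩
      obtain ⟨y, hy, h⟩ := hR 15 0 [t ξ, c q, x ζ Y, k β, k γ, c s]
        (by simpa using ⟨hξ, hq, hY, (hk β).2 hβ, (hk γ).2 hγ, hs⟩) ⟨_, .lYS ζ ξ q d s Y β γ hd⟩
      cases h with
      | lYS _ _ _ d _ _ _ _ h => exact ⟨d, ⟨hy _ (by simp), h.1.1.1⟩, h⟩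
    sE := by
      rintro μ hμ ν hν h m q ⟨hq, hq2⟩ Y ⟨hY, hY2⟩ β γ hβ hγ
      obtain ⟨y, hy, h⟩ := hR 7 m [t μ, c q, x ν Y, k β, k γ]
        (by simpa using ⟨hμ, hq, hY, (hk β).2 hβ, (hk γ).2 hγ⟩) ⟨_, .sE μ ν m q Y β γ⟩
      cases h
      exact ⟨hy _ (by simp), open_SEX _ _ _ _ _⟩
    sES := by
      rintro μ hμ ν hν h m q ⟨hq, hq2⟩ Y ⟨hY, hY2⟩ β γ hβ hγ s ⟨hs, hs2⟩ ⟨α, hα⟩
      obtain ⟨y, hy, h⟩ := hR 16 m [t μ, c q, x ν Y, k β, k γ, c s]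
        (by simpa using ⟨hμ, hq, hY, (hk β).2 hβ, (hk γ).2 hγ, hs⟩) ⟨_, .sES μ ν m q s Y β γ α hα⟩
      cases h with
      | sES _ _ _ _ _ _ _ _ α h =>
        have hα : k α ∈ N := hy _ (by simp)
        refine ⟨α, (hk _).1 hα, h.1, fun v hv => ?_⟩
        obtain ⟨d, hd⟩ := h.2 v hv
        obtain ⟨y, hy, h⟩ := hR 17 m [t μ, c q, x ν Y, k β, k γ, c s, k α, k v]
          (by simpa using ⟨hμ, hq, hY, (hk β).2 hβ, (hk γ).2 hγ, hs, hα, hbel α v hα hv⟩)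
          ⟨_, .sES' μ ν m q d s Y β γ α v hd⟩
        cases h with
        | sES' _ _ _ _ d _ _ _ _ _ _ h => exact ⟨d, ⟨hy _ (by simp), h.1.1.1.1⟩, h⟩
    sY := by
      rintro μ hμ ν hν h m q ⟨hq, hq2⟩ Y ⟨hY, hY2⟩
      obtain ⟨y, hy, h⟩ := hR 8 m [t μ, c q, x ν Y]
        (by simpa using ⟨hμ, hq, hY⟩) ⟨_, .sY μ ν m q Y⟩
      cases h
      exact ⟨hy _ (by simp), open_SYX _ _ _ _ _⟩
    sYS := by
      rintro μ hμ ν hν h m q ⟨hq, hq2⟩ Y ⟨hY, hY2⟩ β γ v hβ hγ hv s ⟨hs, hs2⟩ ⟨d, hd⟩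
      obtain ⟨y, hy, h⟩ := hR 18 m [t μ, c q, x ν Y, k β, k γ, c s, k v]
        (by simpa using ⟨hμ, hq, hY, (hk β).2 hβ, (hk γ).2 hγ, hs, (hk v).2 hv⟩)
        ⟨_, .sYS μ ν m q d s Y β γ v hd⟩
      cases h with
      | sYS _ _ _ _ d _ _ _ _ _ h => exact ⟨d, ⟨hy _ (by simp), h.1.1.1⟩, h⟩ }
  exact ⟨M, ⟨hcp, hp⟩, fun n => ⟨hxX n, hX n⟩⟩

end Pool.Agent.Lib.MP_d41870_lc.HM
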