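import Pool.Agent.Lib.MP_d41870_lc.HM.Al
import Pool.Agent.Lib.MP_d41870_lc.HM.Mb

/-! The chromatic number. -/

set_option autoImplicit false
set_option linter.unusedSectionVars false

namespace Pool.Agent.Lib.MP_d41870_lc.HM

open Set

variable {K Θ : Type} [LinearOrder K] [W1 K] [LinearOrder Θ] [WellFoundedLT Θ] [OrderBot Θ] {nm : Θ → Nm K Θ}

/-- Row Ab.  PROOF.  WLOG `IsS p.l` (`ext_len`).  `X n β γ = {q | q ∈ PT nm ⊤ ∧ F β n q}`, `exists_Mod` with `p`, `X`, then `exists_good`: `b`, `q`.  Let `r ≤ q` in `PT nm ⊤` with `F M.δ n r`.  `good` (for `X n`,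
`γ` arbitrary e.g. `M.δ`) gives `i` with `q ∈ X n (b i) γ`.  `α = b i`, `β = M.δ`: `r.e α β` by `edge`, `r ≤ q`, `M.δ < q.l`. -/
theorem chrom [NoMaxOrder Θ] (F : K → ℕ → Cond K Θ → Prop)
    (hF : ∀ α n, ∀ p ∈ PT nm ⊤, ∀ q ∈ PT nm ⊤, q ≤ p → F α n p → F α n q) {p : Cond K Θ} (hp : p ∈ PT nm ⊤)
    (hd : ∀ α, ∀ q ∈ PT nm ⊤, q ≤ p → ∃ r ∈ PT nm ⊤, r ≤ q ∧ ∃ n, F α n r) :
    ∃ α β n, α < β ∧ ∃ r ∈ PT nm ⊤, r ≤ p ∧ β < r.l ∧ r.e α β ∧ F α n r ∧ F β n r := by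
  classical
  obtain ⟨p₁, hp₁, hp₁p, hS, -, -⟩ := ext_len hp p.l
  obtain ⟨M, hM, hX⟩ := exists_Mod nm p₁ hp₁.1.1
    (fun n β _ => {q | q ∈ PT nm ⊤ ∧ F β n q})
    (fun n β _ s hs t ht hts h => ⟨ht, hF β n s hs t ht hts h.2⟩)
  obtain ⟨b, hb, q, hq, hqp⟩ := exists_good hM hp₁ hS
  obtain ⟨r, hr, hrq, n, hn⟩ := hd M.δ q hq.mem (le_trans hqp hp₁p)
  obtain ⟨i, -, γ, -, hi⟩ := hq.good _ (hX n) ⟨r, hr, hrq, M.δ, hr, hn⟩ 0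
  have hlt : b i < M.δ := hb.lt i
  refine ⟨b i, M.δ, n, hlt, r, hr, le_trans hrq (le_trans hqp hp₁p), ?_, ?_, ?_, hn⟩
  · exact lt_of_lt_of_le hq.len hrq.1
  · exact (hrq.2.2.1 (b i) M.δ hlt hq.len).2 ((hq.edge (b i) hlt).2 ⟨i, rfl⟩)
  · exact hF (b i) n q hq.mem r hr hrq hi.2

end Pool.Agent.Lib.MP_d41870_lc.HM
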