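import Mathlib

/-!
# The forcing for a graph on `ω₁` that does not split, without large cardinals: definitions

Conditions are countable.  `K` is the vertex set (of type `ω₁`), `Θ` the index set of the iteration.
-/

set_option autoImplicit false
set_option linter.unusedSectionVars false

namespace Pool.Agent.Lib.MP_d41870_lc.HM

open Set

/-- `K` is of order type `ω₁`. -/
class W1 (K : Type) [LinearOrder K] : Prop where
  wf : WellFoundedLT K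
  cnt : ∀ a : K, (Iio a).Countable
  unc : ¬ (univ : Set K).Countable

/-- `a` is a successor in `K`. -/
def IsS {K : Type} [LinearOrder K] (a : K) : Prop := ∃ b, b < a ∧ ∀ c, c < a → c ≤ b

/-- Forcing conditions: a graph `e` on the vertices `< l`, and for each stage `η ∈ F` a map `g η` of the
vertices `< l` to `ℕ`. -/
structure Cond (K Θ : Type) where
  l : K
  F : Set Θ
  e : K → K → Prop
  g : Θ → K → ℕ

/-- Index set of antichains (of the size of the continuum). -/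
abbrev AC : Type := ℕ → Bool

/-- Names for sets of pairs. -/
abbrev Nm (K Θ : Type) : Type := K → K → AC → Option (Cond K Θ)

/-- Families of sets of conditions. -/
abbrev Name (K Θ : Type) : Type := K → K → Set (Cond K Θ)

section

variable {K Θ : Type} [LinearOrder K] [LinearOrder Θ]

instance : Preorder (Cond K Θ) where
  le q p := p.l ≤ q.l ∧ p.F ⊆ q.F ∧ (∀ α β, α < β → β < p.l → (q.e α β ↔ p.e α β)) ∧
    ∀ η ∈ p.F, ∀ α, α < p.l → q.g η α = p.g η α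
  le_refl p := ⟨le_rfl, subset_rfl, fun _ _ _ _ => Iff.rfl, fun _ _ _ _ => rfl⟩
  le_trans r q p h1 h2 := ⟨h2.1.trans h1.1, h2.2.1.trans h1.2.1,
    fun α β hα hβ => (h1.2.2.1 α β hα (hβ.trans_le h2.1)).trans (h2.2.2.1 α β hα hβ),
    fun η hη α hα => (h1.2.2.2 η (h2.2.1 hη) α (hα.trans_le h2.1)).trans (h2.2.2.2 η hη α hα)⟩

theorem le_def {q p : Cond K Θ} : q ≤ p ↔ p.l ≤ q.l ∧ p.F ⊆ q.F ∧
    (∀ α β, α < β → β < p.l → (q.e α β ↔ p.e α β)) ∧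
    ∀ η ∈ p.F, ∀ α, α < p.l → q.g η α = p.g η α := Iff.rfl

/-- Restriction of a condition to the stages below `ξ`. -/
def Cond.res (p : Cond K Θ) (ξ : WithTop Θ) : Cond K Θ :=
  ⟨p.l, {η | η ∈ p.F ∧ (η : WithTop Θ) < ξ}, p.e, p.g⟩

/-- Countably many stages; a Hajnal-Máté graph: below every `η < γ` only finitely many neighbours of `γ`. -/
def Nice (p : Cond K Θ) : Prop :=
  p.F.Countable ∧ ∀ γ, γ < p.l → ∀ η, η < γ → {β | β < η ∧ p.e β γ}.Finite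

/-- Conditions of `P` which decide that `α β` has colour `1`. -/
def C1 (P : Set (Cond K Θ)) (c : Nm K Θ) (α β : K) : Set (Cond K Θ) :=
  {q | q ∈ P ∧ ∃ i r, c α β i = some r ∧ r ∈ P ∧ q ≤ r}

/-- `p` is correct at stage `η`: an edge inside a class `m` of `g η` is forced to have the parity of `m`
as its colour. -/
def OKat (P : Set (Cond K Θ)) (c : Nm K Θ) (η : Θ) (p : Cond K Θ) : Prop :=
  ∀ α β, α < β → β < p.l → p.e α β → p.g η α = p.g η β →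
    (Odd (p.g η α) → ∀ s ∈ P, s ≤ p.res η → ∃ t ∈ P, t ≤ s ∧ t ∈ C1 P c α β) ∧
    (¬ Odd (p.g η α) → ∀ s ∈ P, s ≤ p.res η → s ∉ C1 P c α β)

variable [WellFoundedLT Θ] (nm : Θ → Nm K Θ)

/-- The conditions of the iteration up to stage `ξ`. -/
noncomputable def Pst : Θ → Set (Cond K Θ) :=
  (wellFounded_lt (α := Θ)).fix fun ξ rec => {p | Nice p ∧ ∀ η ∈ p.F, ∃ h : η < ξ,
    OKat (rec η h) (nm η) η p}

/-- `p` is a correct condition at stage `η`. -/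
def OK (η : Θ) (p : Cond K Θ) : Prop := OKat (Pst nm η) (nm η) η p

theorem mem_Pst {ξ : Θ} {p : Cond K Θ} :
    p ∈ Pst nm ξ ↔ Nice p ∧ ∀ η ∈ p.F, η < ξ ∧ OK nm η p := by
  unfold Pst
  rw [WellFounded.fix_eq]
  constructor
  · rintro ⟨h0, h⟩
    refine ⟨h0, fun η hη => ?_⟩
    obtain ⟨h1, h2⟩ := h η hη
    exact ⟨h1, h2⟩
  · rintro ⟨h0, h⟩
    refine ⟨h0, fun η hη => ?_⟩
    obtain ⟨h1, h2⟩ := h η hη
    exact ⟨h1, h2⟩

/-- The iteration up to stage `ξ : WithTop Θ` (`⊤`: the whole iteration). -/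
def PT (ξ : WithTop Θ) : Set (Cond K Θ) :=
  {p | Nice p ∧ ∀ η ∈ p.F, (η : WithTop Θ) < ξ ∧ OK nm η p}

theorem Pst_eq (ξ : Θ) : Pst nm ξ = PT nm ξ := by
  ext p
  rw [mem_Pst]
  simp only [PT, mem_ofPred_eq, WithTop.coe_lt_coe]

/-! ### Basic facts -/

variable {nm}

theorem mem_PT {ξ : WithTop Θ} {p : Cond K Θ} :
    p ∈ PT nm ξ ↔ Nice p ∧ ∀ η ∈ p.F, (η : WithTop Θ) < ξ ∧ OK nm η p := Iff.rfl

@[simp] theorem res_l (p : Cond K Θ) (ξ : WithTop Θ) : (p.res ξ).l = p.l := rfl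

@[simp] theorem res_e (p : Cond K Θ) (ξ : WithTop Θ) : (p.res ξ).e = p.e := rfl

@[simp] theorem res_g (p : Cond K Θ) (ξ : WithTop Θ) : (p.res ξ).g = p.g := rfl

theorem mem_res {p : Cond K Θ} {ξ : WithTop Θ} {η : Θ} :
    η ∈ (p.res ξ).F ↔ η ∈ p.F ∧ (η : WithTop Θ) < ξ := Iff.rfl

theorem le_res (p : Cond K Θ) (ξ : WithTop Θ) : p ≤ p.res ξ :=
  ⟨le_rfl, fun _ h => h.1, fun _ _ _ _ => Iff.rfl, fun _ _ _ _ => rfl⟩

theorem res_mono {p q : Cond K Θ} (h : q ≤ p) (ξ : WithTop Θ) : q.res ξ ≤ p.res ξ :=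
  ⟨h.1, fun _ hη => ⟨h.2.1 hη.1, hη.2⟩, h.2.2.1, fun η hη α hα => h.2.2.2 η hη.1 α hα⟩

theorem res_res {p : Cond K Θ} {ξ ζ : WithTop Θ} (h : ξ ≤ ζ) : (p.res ζ).res ξ = p.res ξ := by
  unfold Cond.res
  congr 1
  ext η
  constructor
  · rintro ⟨⟨h1, -⟩, h3⟩
    exact ⟨h1, h3⟩
  · rintro ⟨h1, h3⟩
    exact ⟨⟨h1, h3.trans_le h⟩, h3⟩

theorem res_anti {p : Cond K Θ} {ξ ζ : WithTop Θ} (h : ξ ≤ ζ) : p.res ζ ≤ p.res ξ :=
  ⟨le_rfl, fun _ hη => ⟨hη.1, hη.2.trans_le h⟩, fun _ _ _ _ => Iff.rfl, fun _ _ _ _ => rfl⟩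

theorem res_mem {p : Cond K Θ} {ζ : WithTop Θ} (hp : p ∈ PT nm ζ) (ξ : WithTop Θ) :
    p.res ξ ∈ PT nm ξ := by
  obtain ⟨⟨h0, h1⟩, h2⟩ := hp
  refine ⟨⟨h0.mono fun _ h => h.1, h1⟩, fun η hη => ⟨hη.2, ?_⟩⟩
  have h3 : (p.res ξ).res η = p.res η := res_res hη.2.le
  have h4 : OKat (Pst nm η) (nm η) η p := (h2 η hη.1).2
  show OKat (Pst nm η) (nm η) η (p.res ξ)
  intro α β ha hb hc hd
  rw [h3]
  exact h4 α β ha hb hc hd

theorem PT_mono {ξ ζ : WithTop Θ} (h : ξ ≤ ζ) : PT nm ξ ⊆ PT nm ζ :=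
  fun _ hp => ⟨hp.1, fun η hη => ⟨(hp.2 η hη).1.trans_le h, (hp.2 η hη).2⟩⟩

theorem res_le_of_mem {p : Cond K Θ} {ξ : WithTop Θ} (hp : p ∈ PT nm ξ) : p.res ξ ≤ p :=
  ⟨le_rfl, fun η hη => ⟨hη, (hp.2 η hη).1⟩, fun _ _ _ _ => Iff.rfl, fun _ _ _ _ => rfl⟩

/-- For `q` of level `ξ`: `q ≤ p.res ξ` if `q ≤ p`; and `r ≤ q` iff `r.res ξ ≤ q`. -/
theorem res_le_iff {q r : Cond K Θ} {ξ : WithTop Θ} (hq : q ∈ PT nm ξ) : r.res ξ ≤ q ↔ r ≤ q :=
  ⟨fun h => (le_res r ξ).trans h, fun h => (res_mono h ξ).trans (res_le_of_mem hq)⟩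

/-- A set of conditions which is open in `P`. -/
def OpenIn (P : Set (Cond K Θ)) (O : Set (Cond K Θ)) : Prop :=
  ∀ s ∈ P, ∀ t ∈ P, t ≤ s → s ∈ O → t ∈ O

/-- The conditions of `P` deciding `O`. -/
def Dec (P : Set (Cond K Θ)) (O : Set (Cond K Θ)) : Set (Cond K Θ) :=
  {d | d ∈ P ∧ (d ∈ O ∨ ∀ s ∈ P, s ≤ d → s ∉ O)}

end

end Pool.Agent.Lib.MP_d41870_lc.HM
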