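import Pool.Agent.Lib.MP_d41870_lc.HM.CCb

/-! Predense sets. -/

set_option autoImplicit false
set_option linter.unusedSectionVars false

namespace Pool.Agent.Lib.MP_d41870_lc.HM

open Set

variable {K Θ : Type} [LinearOrder K] [W1 K] [LinearOrder Θ] [WellFoundedLT Θ] [OrderBot Θ] {nm : Θ → Nm K Θ}

/-- Row Fa.  PROOF.  As `Forc.exists_countable_predense` in `NSIter.lean`: Zorn gives a maximal antichain `A` of `{r ∈ S | Can r}`; `antichain_le` gives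
`#A ≤ 2 ^ ℵ₀ = #AC`, so `A` is enumerated by some `f : AC → Option (Cond K Θ)`.  For `s ∈ S` take `r ≤ s`, `Can r` (`exists_can`), `r ∈ S` (open); by maximality `r` is compatible with
an element of `A` (`r` itself if `r ∈ A`). -/
theorem exists_predense (S : Set (Cond K Θ)) (hS : S ⊆ PT nm ⊤) (hop : OpenIn (PT nm ⊤) S) :
    ∃ f : AC → Option (Cond K Θ), (∀ i r, f i = some r → r ∈ S ∧ Can r) ∧
      ∀ s ∈ S, ∃ i r, f i = some r ∧ ∃ t ∈ PT nm ⊤, t ≤ s ∧ t ≤ r := by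
  classical
  obtain ⟨A, hA⟩ := zorn_subset {A : Set (Cond K Θ) | A ⊆ {r | r ∈ S ∧ Can r} ∧
      ∀ a ∈ A, ∀ b ∈ A, a ≠ b → ∀ r ∈ PT nm ⊤, ¬ (r ≤ a ∧ r ≤ b)} (by
    intro C hC hchain
    refine ⟨⋃₀ C, ⟨?_, ?_⟩, fun s hs => subset_sUnion_of_mem hs⟩
    · exact sUnion_subset fun s hs => (hC hs).1
    · rintro a ⟨s, hs, ha⟩ b ⟨t, ht, hb⟩ hab
      rcases hchain.total hs ht with h | h
      · exact (hC ht).2 a (h ha) b hb hab
      · exact (hC hs).2 a ha b (h hb) hab)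
  have hcard : Cardinal.mk A ≤ Cardinal.mk AC := by
    have h1 : Cardinal.mk AC = 2 ^ Cardinal.aleph0 := by
      rw [Cardinal.mk_pi, Cardinal.mk_bool, Cardinal.prod_const]
      simp
    rw [h1]
    exact antichain_le A (fun a ha => hS (hA.prop.1 ha).1) hA.prop.2
  obtain ⟨g⟩ : Nonempty (A ↪ AC) := Cardinal.le_def _ _ |>.1 hcard
  obtain ⟨f, hf⟩ : ∃ f : AC → Option (Cond K Θ), ∀ r, (∃ n, f n = some r) ↔ r ∈ A := by
    refine ⟨fun i => if h : ∃ a : A, g a = i then some (h.choose : A) else none, fun r => ⟨?_, fun hr => ?_⟩⟩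
    · rintro ⟨i, hi⟩
      by_cases h : ∃ a : A, g a = i
      · simp only [dif_pos h] at hi
        rw [← Option.some.inj hi]
        exact h.choose.2
      · simp only [dif_neg h] at hi
        exact absurd hi (by simp)
    · have h : ∃ a : A, g a = g ⟨r, hr⟩ := ⟨⟨r, hr⟩, rfl⟩
      refine ⟨g ⟨r, hr⟩, ?_⟩
      simp only [dif_pos h]
      have h2 : h.choose = ⟨r, hr⟩ := g.injective h.choose_spec
      rw [h2]
  refine ⟨f, fun n r h => hA.prop.1 ((hf r).1 ⟨n, h⟩), fun s hs => ?_⟩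
  obtain ⟨s', hs', hcan, hle, -⟩ := exists_can (hS hs)
  have hs'S : s' ∈ S := hop s (hS hs) s' hs' hle hs
  by_contra hcon
  push Not at hcon
  have hcon' : ∀ i r, f i = some r → ∀ t ∈ PT nm ⊤, t ≤ s' → ¬ t ≤ r := fun i r hi t ht h =>
    hcon i r hi t ht (h.trans hle)
  have hins : insert s' A ∈ {A : Set (Cond K Θ) | A ⊆ {r | r ∈ S ∧ Can r} ∧
      ∀ a ∈ A, ∀ b ∈ A, a ≠ b → ∀ r ∈ PT nm ⊤, ¬ (r ≤ a ∧ r ≤ b)} := by
    refine ⟨insert_subset ⟨hs'S, hcan⟩ hA.prop.1, ?_⟩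
    rintro a (rfl | ha) b (rfl | hb) hab
    · exact absurd rfl hab
    · obtain ⟨n, hn⟩ := (hf b).2 hb
      exact fun r hr h => hcon' n b hn r hr h.1 h.2
    · obtain ⟨n, hn⟩ := (hf a).2 ha
      exact fun r hr h => hcon' n a hn r hr h.2 h.1
    · exact hA.prop.2 a ha b hb hab
  have hsA : s' ∈ A := hA.le_of_ge hins (subset_insert s' A) (mem_insert s' A)
  obtain ⟨n, hn⟩ := (hf s').2 hsA
  exact hcon' n s' hn s' hs' le_rfl le_rfl

end Pool.Agent.Lib.MP_d41870_lc.HM
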