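import Pool.Agent.Lib.MP_d41870_lc.HM.Ch
import Pool.Agent.Lib.MP_d41870_lc.HM.Fa
import Pool.Agent.Lib.MP_d41870_lc.HM.CCk
import Pool.Agent.Lib.MP_d41870_lc.HM.C1c
import Pool.Agent.Lib.MP_d41870_lc.NSMain

/-! The model. -/

set_option autoImplicit false
set_option linter.unusedSectionVars false

namespace Pool.Agent.Lib.MP_d41870_lc.HM

open Set

variable {K Θ : Type} [LinearOrder K] [W1 K] [LinearOrder Θ] [WellFoundedLT Θ] [OrderBot Θ] {nm : Θ → Nm K Θ}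

/-- The edges of the generic graph. -/
def edgeSet (nm : Θ → Nm K Θ) (α β : K) : LowerSet ↥(PT nm ⊤) where
  carrier := {p | α < β ∧ β < p.1.l ∧ p.1.e α β}
  lower' := by
    rintro p q hqp ⟨h1, h2, h3⟩
    exact ⟨h1, h2.trans_le hqp.1, (hqp.2.2.1 α β h1 h2).2 h3⟩

theorem exists_killer [NoMaxOrder Θ] (hcof : ∀ f : K × K × AC × ℕ → Θ, ∃ η, ∀ x, f x < η)
    (hnm : ∀ (c : Nm K Θ) (ξ : Θ), (∀ α β i r, c α β i = some r → Can r) → ∃ η, ξ < η ∧ nm η = c) :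
    Nonempty (Forc.Killer ↥(PT nm ⊤) K) := by
  classical
  refine ⟨⟨edgeSet nm, ?_, ?_⟩⟩
  · -- the graph is uncountably chromatic
    intro F hF p hp
    obtain ⟨α, β, n, h1, r, hr, hrp, h2, h3, ⟨h4, h5⟩, ⟨h6, h7⟩⟩ := chrom (nm := nm)
      (fun α n q => ∃ h : q ∈ PT nm ⊤, F α n ⟨q, h⟩)
      (by
        rintro α n q hq q' hq' hle ⟨h, h'⟩
        exact ⟨hq', hF α n ⟨q, h⟩ ⟨q', hq'⟩ hle h'⟩) p.2
      (by
        intro α q hq hqp
        obtain ⟨r, hr, n, hn⟩ := hp α ⟨q, hq⟩ hqp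
        exact ⟨r.1, r.2, hr, n, r.2, hn⟩)
    exact ⟨α, β, n, h1, ⟨r, hr⟩, hrp, ⟨h1, h2, h3⟩, h5, h7⟩
  · -- colourings
    intro c hc
    have hname : ∀ x : K × K, ∃ f : AC → Option (Cond K Θ),
        (∀ i r, f i = some r → r ∈ {r | ∃ h : r ∈ PT nm ⊤, c x.1 x.2 ⟨r, h⟩} ∧ Can r) ∧
        ∀ s ∈ {r | ∃ h : r ∈ PT nm ⊤, c x.1 x.2 ⟨r, h⟩},
          ∃ i r, f i = some r ∧ ∃ t ∈ PT nm ⊤, t ≤ s ∧ t ≤ r := by
      intro x
      refine exists_predense _ (fun r hr => hr.1) ?_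
      rintro s _ t ht hts ⟨h, h'⟩
      exact ⟨ht, hc x.1 x.2 ⟨s, h⟩ ⟨t, ht⟩ hts h'⟩
    choose f hf1 hf2 using hname
    set cn : Nm K Θ := fun α β i => f (α, β) i with hcn
    -- a stage after all conditions of the name
    have hen : ∀ x : K × K × AC, ∃ en : ℕ → Θ, ∀ r, f (x.1, x.2.1) x.2.2 = some r →
        ∀ η ∈ r.F, ∃ n, en n = η := by
      intro x
      cases hx : f (x.1, x.2.1) x.2.2 with
      | none => exact ⟨fun _ => ⊥, fun r hr => by simp at hr⟩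
      | some r =>
        have hcnt : r.F.Countable := (hf1 _ _ _ hx).1.1.1.1
        rcases r.F.eq_empty_or_nonempty with h | h
        · refine ⟨fun _ => ⊥, fun r' hr' η hη => ?_⟩
          simp only [Option.some.injEq] at hr'
          subst hr'
          rw [h] at hη
          exact absurd hη (notMem_empty η)
        · obtain ⟨en, hen⟩ := hcnt.exists_eq_range h
          refine ⟨en, fun r' hr' η hη => ?_⟩
          simp only [Option.some.injEq] at hr'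
          subst hr'
          rw [hen] at hη
          exact hη
    choose en hen using hen
    obtain ⟨η₀, hη₀⟩ := hcof fun x => en (x.1, x.2.1, x.2.2.1) x.2.2.2
    obtain ⟨ξ, hηξ, hξ⟩ := hnm cn η₀ fun α β i r h => (hf1 _ _ _ h).2
    have hfξ : ∀ α β i r, f (α, β) i = some r → r ∈ PT nm ξ := by
      intro α β i r hr
      obtain ⟨⟨h1, -⟩, -⟩ := hf1 _ _ _ hr
      refine ⟨h1.1, fun η hη => ⟨?_, (h1.2 η hη).2⟩⟩
      obtain ⟨n, hn⟩ := hen (α, β, i) r hr η hη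
      have h2 := hη₀ (α, β, i, n)
      simp only [hn] at h2
      exact WithTop.coe_lt_coe.2 (h2.trans hηξ)
    -- membership in `C1` and the colour
    have hC1 : ∀ α β (p : ↥(PT nm ⊤)), c α β p →
        ∃ r ∈ PT nm ξ, r ≤ p.1.res ξ ∧ r ∈ C1 (PT nm ξ) (nm ξ) α β := by
      intro α β p hp
      obtain ⟨i, r, hr, t, ht, htp, htr⟩ := hf2 (α, β) p.1 ⟨p.2, hp⟩
      refine ⟨t.res ξ, res_mem ht ξ, res_mono htp ξ, res_mem ht ξ, i, r, ?_, hfξ α β i r hr, ?_⟩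
      · rw [hξ]; exact hr
      · exact (res_le_iff (hfξ α β i r hr)).2 htr
    have hC1' : ∀ α β (p : ↥(PT nm ⊤)) r, r ∈ PT nm ξ → IsS p.1.l → r ≤ p.1.res ξ →
        r ∈ C1 (PT nm ξ) (nm ξ) α β → ∃ q ≤ p, c α β q := by
      intro α β p r hrP hl hrp hr
      obtain ⟨-, i, s, hs, hsP, hrs⟩ := hr
      obtain ⟨t, ht, htp, htr, -⟩ := amalg le_top p.2 hl hrP hrp 0
      rw [hξ] at hs
      obtain ⟨⟨h1, h2⟩, -⟩ := hf1 (α, β) i s hs
      exact ⟨⟨t, ht⟩, htp, hc α β ⟨s, h1⟩ ⟨t, ht⟩ (htr.trans hrs) h2⟩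
    -- the classes
    let G : K → ℕ → LowerSet ↥(PT nm ⊤) := fun α k =>
      ⟨{p | ξ ∈ p.1.F ∧ α < p.1.l ∧ p.1.g ξ α = k}, by
        rintro p q hqp ⟨h1, h2, h3⟩
        refine ⟨hqp.2.1 h1, h2.trans_le hqp.1, ?_⟩
        rw [hqp.2.2.2 ξ h1 α h2]
        exact h3⟩
    refine ⟨G, ?_, ?_, ?_⟩
    · intro α p
      obtain ⟨q, hq, hqp, -, h1, -⟩ := add_stage p.2 (η := ξ) (WithTop.coe_lt_top ξ)
      obtain ⟨r, hr, hrq, -, h2, -⟩ := ext_len hq α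
      exact ⟨⟨r, hr⟩, hrq.trans hqp, _, hrq.2.1 h1, h2, rfl⟩
    · rintro α n m p ⟨-, -, h1⟩ ⟨-, -, h2⟩
      exact h1.symm.trans h2
    · intro k
      by_cases hk : Odd k
      · left
        rintro α β p hαβ ⟨-, hβ, he⟩ ⟨h1, -, h2⟩ ⟨-, -, h3⟩
        obtain ⟨p₁, hp₁, hle, hl, -⟩ := ext_len p.2 p.1.l
        have hOK : OKat (Pst nm ξ) (nm ξ) ξ p.1 := (p.2.2 ξ h1).2
        rw [Pst_eq] at hOK
        obtain ⟨t, ht, htp, htC⟩ := (hOK α β hαβ hβ he (h2.trans h3.symm)).1 (by rw [h2]; exact hk)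
          (p₁.res ξ) (res_mem hp₁ ξ) (res_mono hle ξ)
        obtain ⟨q, hq, hcq⟩ := hC1' α β ⟨p₁, hp₁⟩ t ht hl htp htC
        exact ⟨q, le_trans hq (show (⟨p₁, hp₁⟩ : ↥(PT nm ⊤)) ≤ p from hle), hcq⟩
      · right
        rintro α β p hαβ ⟨-, hβ, he⟩ ⟨h1, -, h2⟩ ⟨-, -, h3⟩ hcp
        have hOK : OKat (Pst nm ξ) (nm ξ) ξ p.1 := (p.2.2 ξ h1).2
        rw [Pst_eq] at hOK
        obtain ⟨r, hr, hrp, hrC⟩ := hC1 α β p hcp
        exact (hOK α β hαβ hβ he (h2.trans h3.symm)).2 (by rw [h2]; exact hk) r hr hrp hrC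

theorem exists_nonsplitting : ∃ (M : Type 1) (E : M → M → Prop), MP9708F.ModelsZFC E ∧
    ∃ h H, Forc.IsGraph E h H ∧ Forc.UncountablyChromatic E h H ∧ ¬ Forc.SplitsToTwo E h H := by
  obtain ⟨K, _, _⟩ := exists_W1
  obtain ⟨Θ, _, _, _, _, nm, hcof, hnm⟩ := exists_book K
  obtain ⟨κ'⟩ := exists_killer (nm := nm) hcof hnm
  obtain ⟨a⟩ : Nonempty K := by
    by_contra h
    rw [not_nonempty_iff] at h
    exact W1.unc (K := K) (by simp [Set.eq_empty_of_isEmpty])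
  have : Nonempty ↥(PT nm ⊤) := ⟨⟨⟨a, ∅, fun _ _ => False, fun _ _ => 0⟩,
    ⟨by simp, by simp⟩, by simp⟩⟩
  exact Forc.exists_model_of_killer κ'

end Pool.Agent.Lib.MP_d41870_lc.HM
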