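import Pool.Agent.Lib.MP_d41870_lc.HM.Gd
import Pool.Agent.Lib.MP_d41870_lc.HM.C1a

/-! Good conditions: first facts; sequences. -/

set_option autoImplicit false
set_option linter.unusedSectionVars false

namespace Pool.Agent.Lib.MP_d41870_lc.HM

open Set

variable {K Θ : Type} [LinearOrder K] [W1 K] [LinearOrder Θ] [WellFoundedLT Θ] [OrderBot Θ] {nm : Θ → Nm K Θ}
  {M : Mod nm} {b : ℕ → K} {ξ : WithTop Θ} {q : Cond K Θ}

/-- Row Ga.  PROOF.  `M.opn` for `good`, `le_def` for `edge`. -/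
theorem Good.mono (h : Good M b ξ q) {q' : Cond K Θ} (h1 : q' ∈ PT nm ξ) (h2 : q' ≤ q) : Good M b ξ q' := by
  have h3 := le_def.1 h2
  refine ⟨h1, h.len.trans_le h3.1, ?_, ?_, ?_⟩
  · intro β hβ
    rw [h3.2.2.1 β M.δ hβ h.len]
    exact h.edge β hβ
  · intro X hX β γ hβ hγ
    obtain ⟨t, ht, h4, h5⟩ := h.gen X hX β γ hβ hγ
    exact ⟨t, ht, le_trans h2 h4, h5⟩
  · rintro X hX ⟨r, hr, hr2, γ, hγ⟩ i₀
    obtain ⟨i, hi, γ', hγ', h4⟩ := h.good X hX ⟨r, hr, le_trans hr2 h2, γ, hγ⟩ i₀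
    exact ⟨i, hi, γ', hγ', M.opn ξ X hX (b i) γ' q h.mem q' h1 h2 h4⟩

/-- Row Ga.  PROOF.  `gen`: the alternative in `Dec` is impossible as `q ≤ t` is in `X β γ`. -/
theorem Good.mem_gen (h : Good M b ξ q) {X : Name K Θ} (hX : X ∈ M.XX ξ) {β γ : K} (hβ : β < M.δ) (hγ : γ < M.δ)
    (hq : q ∈ X β γ) : ∃ t ∈ M.CO, q ≤ t ∧ t ∈ PT nm ξ ∧ t ∈ X β γ := by
  obtain ⟨t, ht, h4, h5, h6⟩ := h.gen X hX β γ hβ hγ
  rcases h6 with h6 | h6
  · exact ⟨t, ht, h4, h5, h6⟩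
  · exact absurd hq (h6 q h.mem h4)

/-- Row Ga.  Sequences doing countably many tasks.  PROOF.  `Classical.choose`; enumerate `ι` (if it is empty the constant sequence). -/
theorem exists_seq {A ι : Type} [Countable ι] (I : A → Prop) (r : A → A → Prop) (hr : ∀ a, r a a) (T : ι → A → Prop)
    (a : A) (ha : I a) (h : ∀ i a, I a → ∃ a', I a' ∧ r a' a ∧ T i a') :
    ∃ P : ℕ → A, P 0 = a ∧ (∀ n, I (P n)) ∧ (∀ n, r (P (n + 1)) (P n)) ∧ ∀ i, ∃ n, T i (P n) := by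
  rcases isEmpty_or_nonempty ι with hι | hι
  · exact ⟨fun _ => a, rfl, fun _ => ha, fun _ => hr a, fun i => (hι.false i).elim⟩
  · obtain ⟨f, hf⟩ := exists_surjective_nat ι
    choose g hg1 hg2 hg3 using h
    obtain ⟨Q, hQ0, hQ⟩ : ∃ Q : ℕ → {a : A // I a}, Q 0 = ⟨a, ha⟩ ∧
        ∀ n, Q (n + 1) = ⟨g (f n) (Q n).1 (Q n).2, hg1 (f n) (Q n).1 (Q n).2⟩ :=
      ⟨fun n => Nat.rec ⟨a, ha⟩ (fun n x => ⟨g (f n) x.1 x.2, hg1 (f n) x.1 x.2⟩) n, rfl, fun _ => rfl⟩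
    refine ⟨fun n => (Q n).1, congrArg Subtype.val hQ0, fun n => (Q n).2, fun n => ?_, fun i => ?_⟩
    · show r (Q (n + 1)).1 (Q n).1
      rw [hQ n]
      exact hg2 (f n) (Q n).1 (Q n).2
    · obtain ⟨n, rfl⟩ := hf i
      refine ⟨n + 1, ?_⟩
      show T (f n) (Q (n + 1)).1
      rw [hQ n]
      exact hg3 (f n) (Q n).1 (Q n).2

end Pool.Agent.Lib.MP_d41870_lc.HM
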