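import Pool.Agent.Lib.MP_d41870_lc.HM.Ga
import Pool.Agent.Lib.MP_d41870_lc.HM.C1b

/-! The base case: the generic sequence. -/

set_option autoImplicit false
set_option linter.unusedSectionVars false

namespace Pool.Agent.Lib.MP_d41870_lc.HM

open Set

variable {K Θ : Type} [LinearOrder K] [W1 K] [LinearOrder Θ] [WellFoundedLT Θ] [OrderBot Θ] {nm : Θ → Nm K Θ}
  {M : Mod nm} {b : ℕ → K}

/-- Row Gb.  PROOF.  `exists_seq` with tasks `(X, β, γ) ∈ M.XX ⊥ × Iio M.δ × Iio M.δ` (countable: `M.cXX`, `W1.cnt`), `I p = p ∈ M.CO ∧ p ∈ PT nm ⊥`, `M.dec`; `fusion` gives `s`.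
`s.l = M.δ`: `≤` since `c < s.l` implies `c < (P n).l < M.δ` (`M.len`) (if `M.δ < s.l` then `M.δ < (P n).l`);
`≥`: for `c < M.δ` the task `(LenX, c, c)` (`M.lenX`) gives `P n ∈ Dec (LenX c c)`; the alternative is impossible by `ext_len`, so `c < (P n).l ≤ s.l`. -/
theorem base_seq {p : Cond K Θ} (hp : p ∈ M.CO) (hp0 : p ∈ PT nm (⊥ : Θ)) :
    ∃ s ∈ PT nm (⊥ : Θ), s ≤ p ∧ s.l = M.δ ∧ ∀ X ∈ M.XX (⊥ : Θ), ∀ β γ, β < M.δ → γ < M.δ →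
      ∃ t ∈ M.CO, s ≤ t ∧ t ∈ Dec (PT nm (⊥ : Θ)) (X β γ) := by
  have c1 : Countable (M.XX (⊥ : Θ)) := (M.cXX _).to_subtype
  have c2 : Countable (Iio M.δ) := (W1.cnt M.δ).to_subtype
  obtain ⟨P, hP0, hPI, hPd, hPT⟩ := exists_seq (ι := M.XX (⊥ : Θ) × Iio M.δ × Iio M.δ)
    (fun a : Cond K Θ => a ∈ M.CO ∧ a ∈ PT nm (⊥ : Θ)) (fun a' a => a' ≤ a) (fun a => le_refl a)
    (fun i a => a ∈ Dec (PT nm (⊥ : Θ)) (i.1.1 i.2.1.1 i.2.2.1)) p ⟨hp, hp0⟩ (by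
      rintro ⟨⟨X, hX⟩, ⟨β, hβ⟩, ⟨γ, hγ⟩⟩ a ⟨ha, ha0⟩
      obtain ⟨d, hd, hd1, hd2⟩ := M.dec a ha ha0 X hX β γ hβ hγ
      exact ⟨d, ⟨hd, hd1.1⟩, hd2, hd1⟩)
  obtain ⟨s, hs, hsP, hsl, -⟩ := fusion P (fun n => (hPI n).2) hPd
  refine ⟨s, hs, hP0 ▸ hsP 0, ?_, ?_⟩
  · apply le_antisymm
    · by_contra hlt
      rw [not_le] at hlt
      obtain ⟨n, hn⟩ := hsl M.δ hlt
      exact lt_irrefl _ (hn.trans (M.len _ (hPI n).1))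
    · by_contra hlt
      rw [not_le] at hlt
      obtain ⟨n, hn⟩ := hPT ⟨⟨LenX, M.lenX _ (Or.inr ⟨⊥, M.bot, rfl⟩)⟩, ⟨s.l, hlt⟩, ⟨s.l, hlt⟩⟩
      obtain ⟨hn1, hn2 | hn2⟩ := hn
      · have h1 : s.l < (P n).l := hn2
        exact lt_irrefl _ (h1.trans_le (hsP n).1)
      · obtain ⟨q, hq, hqP, -, hql, -⟩ := ext_len hn1 s.l
        exact hn2 q hq hqP hql
  · intro X hX β γ hβ hγ
    obtain ⟨n, hn⟩ := hPT ⟨⟨X, hX⟩, ⟨β, hβ⟩, ⟨γ, hγ⟩⟩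
    exact ⟨P n, (hPI n).1, hsP n, hn⟩

end Pool.Agent.Lib.MP_d41870_lc.HM
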