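import Pool.Agent.Lib.MP_d41870_lc.HM.Gd

/-! The base case: the ladder. -/

set_option autoImplicit false
set_option linter.unusedSectionVars false

namespace Pool.Agent.Lib.MP_d41870_lc.HM

open Set

variable {K : Type} [LinearOrder K] [W1 K]

/-- Row Gc.  PROOF.  Let `e : ℕ → K` enumerate `Iio δ` (countable, nonempty).  Recursion: given the strictly smaller elements `b (i-1)` and the witness `γ` of
the previous step, let `ε < δ` be above `b (i-1)`, `γ` and `e i` (`hlim`); if `W n`, `n = (Nat.unpair i).1`, satisfies the hypothesis (`∀ ε < δ, ∃ β γ, ...`)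
let `b i > ε` with `W n (b i) γ`, `γ < δ`, otherwise `b i` any element of `(ε, δ)`. (The step `i ↦ (b i, γ i)`: a sequence of pairs.) -/
theorem exists_ladder {δ : K} (hpos : ∃ a, a < δ) (hlim : ∀ a, a < δ → ∃ b, a < b ∧ b < δ) (W : ℕ → K → K → Prop) :
    ∃ b : ℕ → K, Lad δ b ∧ ∀ n, (∀ ε, ε < δ → ∃ β γ, ε < β ∧ β < δ ∧ γ < δ ∧ W n β γ) →
      ∀ i₀, ∃ i, i₀ ≤ i ∧ ∃ γ, γ ≤ b (i + 1) ∧ W n (b i) γ := by
  obtain ⟨a0, ha0⟩ := hpos
  obtain ⟨e, he⟩ := (W1.cnt δ).exists_eq_range ⟨a0, ha0⟩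
  have heδ : ∀ i, e i < δ := by
    intro i
    have h1 : e i ∈ Iio δ := by
      rw [he]
      exact mem_range_self i
    exact h1
  have step : ∀ (i : ℕ) (s : {p : K × K // p.1 < δ ∧ p.2 < δ}),
      ∃ t : {p : K × K // p.1 < δ ∧ p.2 < δ}, s.1.1 < t.1.1 ∧ s.1.2 < t.1.1 ∧ e i < t.1.1 ∧
        ((∀ ε, ε < δ → ∃ β γ, ε < β ∧ β < δ ∧ γ < δ ∧ W (Nat.unpair i).1 β γ) →
          W (Nat.unpair i).1 t.1.1 t.1.2) := by
    intro i s
    have hm : max (max s.1.1 s.1.2) (e i) < δ := max_lt (max_lt s.2.1 s.2.2) (heδ i)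
    have h1 : s.1.1 ≤ max (max s.1.1 s.1.2) (e i) := (le_max_left _ _).trans (le_max_left _ _)
    have h2 : s.1.2 ≤ max (max s.1.1 s.1.2) (e i) := (le_max_right _ _).trans (le_max_left _ _)
    have h3 : e i ≤ max (max s.1.1 s.1.2) (e i) := le_max_right _ _
    by_cases hW : ∀ ε, ε < δ → ∃ β γ, ε < β ∧ β < δ ∧ γ < δ ∧ W (Nat.unpair i).1 β γ
    · obtain ⟨β, γ, hβ, hβδ, hγδ, hWβ⟩ := hW _ hm
      exact ⟨⟨(β, γ), hβδ, hγδ⟩, h1.trans_lt hβ, h2.trans_lt hβ, h3.trans_lt hβ, fun _ => hWβ⟩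
    · obtain ⟨β, hβ, hβδ⟩ := hlim _ hm
      exact ⟨⟨(β, β), hβδ, hβδ⟩, h1.trans_lt hβ, h2.trans_lt hβ, h3.trans_lt hβ,
        fun h => absurd h hW⟩
  choose f hf1 hf2 hf3 hf4 using step
  let s : ℕ → {p : K × K // p.1 < δ ∧ p.2 < δ} := fun i =>
    Nat.rec ⟨(a0, a0), ha0, ha0⟩ (fun i t => f i t) i
  have hs : ∀ i, s (i + 1) = f i (s i) := fun i => rfl
  refine ⟨fun i => (s (i + 1)).1.1, ⟨?_, ?_, ?_⟩, ?_⟩
  · refine strictMono_nat_of_lt_succ fun i => ?_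
    have h1 := hf1 (i + 1) (s (i + 1))
    rw [← hs (i + 1)] at h1
    exact h1
  · intro i
    exact (s (i + 1)).2.1
  · intro a ha
    have h1 : a ∈ range e := by
      rw [← he]
      exact ha
    obtain ⟨i, rfl⟩ := h1
    refine ⟨i, ?_⟩
    have h2 := hf3 i (s i)
    rw [← hs i] at h2
    exact h2
  · intro n hn i₀
    refine ⟨Nat.pair n i₀, Nat.right_le_pair n i₀, (s (Nat.pair n i₀ + 1)).1.2, ?_, ?_⟩
    · have h1 := hf2 (Nat.pair n i₀ + 1) (s (Nat.pair n i₀ + 1))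
      rw [← hs (Nat.pair n i₀ + 1)] at h1
      exact h1.le
    · have h1 := hf4 (Nat.pair n i₀) (s (Nat.pair n i₀))
      rw [Nat.unpair_pair, ← hs (Nat.pair n i₀)] at h1
      exact h1 hn

end Pool.Agent.Lib.MP_d41870_lc.HM
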