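import Pool.Agent.Lib.MP_d41870_lc.HM.Mo

/-! Good conditions: definitions. -/

set_option autoImplicit false
set_option linter.unusedSectionVars false

namespace Pool.Agent.Lib.MP_d41870_lc.HM

open Set

variable {K Θ : Type} [LinearOrder K] [W1 K] [LinearOrder Θ] [WellFoundedLT Θ] [OrderBot Θ] {nm : Θ → Nm K Θ}

/-- `b` is a ladder in `δ`. -/
structure Lad (δ : K) (b : ℕ → K) : Prop where
  mono : StrictMono b
  lt : ∀ i, b i < δ
  cof : ∀ a, a < δ → ∃ i, a < b i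

/-- Good conditions of level `ξ`: the vertex `M.δ` has the neighbours `b i` below it, the condition is generic for `M`, and every name of `M` which
some extension puts at `δ` is hit infinitely often at the `b i`. -/
structure Good (M : Mod nm) (b : ℕ → K) (ξ : WithTop Θ) (q : Cond K Θ) : Prop where
  mem : q ∈ PT nm ξ
  len : M.δ < q.l
  edge : ∀ β, β < M.δ → (q.e β M.δ ↔ ∃ i, β = b i)
  gen : ∀ X ∈ M.XX ξ, ∀ β γ, β < M.δ → γ < M.δ → ∃ t ∈ M.CO, q ≤ t ∧ t ∈ Dec (PT nm ξ) (X β γ)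
  good : ∀ X ∈ M.XX ξ, (∃ r ∈ PT nm ξ, r ≤ q ∧ ∃ γ, r ∈ X M.δ γ) →
    ∀ i₀, ∃ i, i₀ ≤ i ∧ ∃ γ, γ ≤ b (i + 1) ∧ q ∈ X (b i) γ

/-- Conditions of `M` of level `ζ` can be added to good conditions of level `ξ`. -/
def Ext (M : Mod nm) (b : ℕ → K) (ξ : Θ) (ζ : WithTop Θ) : Prop :=
  ∀ q p, Good M b ξ q → p ∈ M.CO → p ∈ PT nm ζ → IsS p.l → q ≤ p.res ξ → ∃ q', Good M b ζ q' ∧ q' ≤ q ∧ q' ≤ p

/-- All `b i` in the class `m` satisfy: `σ i` iff `m` is odd. -/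
def Harm (b : ℕ → K) (σ : ℕ → Prop) (μ : Θ) (m : ℕ) (p : Cond K Θ) : Prop :=
  ∀ i, b i < p.l → p.g μ (b i) = m → (σ i ↔ Odd m)

end Pool.Agent.Lib.MP_d41870_lc.HM
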