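import Pool.Agent.Lib.MP_d41870_lc.HM.Gb
import Pool.Agent.Lib.MP_d41870_lc.HM.Gc

/-! The base case. -/

set_option autoImplicit false
set_option linter.unusedSectionVars false

namespace Pool.Agent.Lib.MP_d41870_lc.HM

open Set

variable {K Θ : Type} [LinearOrder K] [W1 K] [LinearOrder Θ] [WellFoundedLT Θ] [OrderBot Θ] {nm : Θ → Nm K Θ}
  {M : Mod nm} {b : ℕ → K}

/-- Row Gd.  PROOF.  `s` from `base_seq`, `b` from `exists_ladder` for `W X β γ := s ∈ X β γ`, `X ∈ M.XX ⊥` (countable; `M.lenX` shows it is nonempty),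
`q = ⟨c, s.F, fun α β => (β < M.δ ∧ s.e α β) ∨ (β = M.δ ∧ ∃ i, α = b i), s.g⟩` with `c` the successor of `M.δ` (`exists_succ`).
`s.F = ∅` as `s ∈ PT nm ⊥` (no stage is `< ⊥`).  `Nice q`: for `γ = M.δ`, `η < M.δ`: `b i < η` only for finitely many `i` (`Lad.cof`, `Lad.mono`).  `q ≤ s ≤ p`.
`gen`: from `base_seq`.  `good`: let `r ≤ q`, `r ∈ X M.δ γ`.  It is enough that for every `ε < M.δ` there are `ε < β' < M.δ`, `γ' < M.δ` with `s ∈ X β' γ'`:
`r ∈ upX X ε ε` (with `β' = M.δ`); take `t` for `upX X`, `ε`, `ε` (`M.up`) from `base_seq`; `r ≤ q ≤ s ≤ t` so the alternative in `Dec` is impossible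
and `t ∈ upX X ε ε`; `M.upS` gives `β'`, `γ'` with `t ∈ X β' γ'`; `s ∈ X β' γ'` by `M.opn`.  Then `exists_ladder` and `q ≤ s` (`M.opn`). -/
theorem T_base {p : Cond K Θ} (hp : p ∈ M.CO) (hp0 : p ∈ PT nm (⊥ : Θ)) :
    ∃ b, Lad M.δ b ∧ ∃ q, Good M b (⊥ : Θ) q ∧ q ≤ p := by
  obtain ⟨s, hs, hsp, hsl, hgen⟩ := base_seq hp hp0
  have hne : (M.XX ((⊥ : Θ) : WithTop Θ)).Nonempty :=
    ⟨LenX, M.lenX ((⊥ : Θ) : WithTop Θ) (Or.inr ⟨⊥, M.bot, rfl⟩)⟩
  obtain ⟨f, hf⟩ := (M.cXX ((⊥ : Θ) : WithTop Θ)).exists_eq_range hne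
  obtain ⟨b, hb, hbW⟩ := exists_ladder M.pos M.lim (fun n β γ => s ∈ f n β γ)
  obtain ⟨c, hc1, hc2⟩ := exists_succ M.δ
  have hsF : ∀ η, η ∉ s.F := by
    intro η hη
    have h1 := (hs.2 η hη).1
    exact absurd (WithTop.coe_lt_coe.mp h1) not_lt_bot
  obtain ⟨q, hq⟩ : ∃ q : Cond K Θ, q = ⟨c, s.F, fun α β => (β < M.δ ∧ s.e α β) ∨ (β = M.δ ∧ ∃ i, α = b i), s.g⟩ :=
    ⟨_, rfl⟩
  have hql : q.l = c := by rw [hq]
  have hqF : q.F = s.F := by rw [hq]
  have hqe : ∀ α β, q.e α β ↔ ((β < M.δ ∧ s.e α β) ∨ (β = M.δ ∧ ∃ i, α = b i)) := by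
    intro α β
    rw [hq]
  have hqg : q.g = s.g := by rw [hq]
  have hqs : q ≤ s := by
    refine le_def.mpr ⟨?_, ?_, ?_, ?_⟩
    · rw [hql, hsl]
      exact hc1.le
    · rw [hqF]
    · intro α β _ hβ
      rw [hsl] at hβ
      rw [hqe]
      constructor
      · rintro (⟨-, h⟩ | ⟨h, -⟩)
        · exact h
        · exact absurd h hβ.ne
      · intro h
        exact Or.inl ⟨hβ, h⟩
    · intro η hη
      exact absurd hη (hsF η)
  have hqP : q ∈ PT nm ((⊥ : Θ) : WithTop Θ) := by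
    refine ⟨⟨?_, ?_⟩, ?_⟩
    · rw [hqF]
      exact hs.1.1
    · intro γ hγ η hη
      rw [hql] at hγ
      rcases (hc2 γ hγ).lt_or_eq with h | h
      · refine (hs.1.2 γ (by rw [hsl]; exact h) η hη).subset ?_
        rintro β ⟨h1, h2⟩
        refine ⟨h1, ?_⟩
        rcases (hqe β γ).mp h2 with h3 | h3
        · exact h3.2
        · exact absurd h3.1 h.ne
      · obtain ⟨i₀, hi₀⟩ := hb.cof η (by rw [← h]; exact hη)
        refine ((Set.finite_Iio i₀).image b).subset ?_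
        rintro β ⟨h1, h2⟩
        rcases (hqe β γ).mp h2 with h3 | h3
        · exact absurd h3.1 (by rw [h]; exact lt_irrefl _)
        · obtain ⟨i, hi⟩ := h3.2
          refine ⟨i, ?_, hi.symm⟩
          have h4 : b i < b i₀ := by
            rw [← hi]
            exact h1.trans hi₀
          exact hb.mono.lt_iff_lt.mp h4
    · intro η hη
      rw [hqF] at hη
      exact absurd hη (hsF η)
  refine ⟨b, hb, q, ?_, hqs.trans hsp⟩
  refine
    { mem := hqP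
      len := ?_
      edge := ?_
      gen := ?_
      good := ?_ }
  · rw [hql]
    exact hc1
  · intro β _
    rw [hqe]
    constructor
    · rintro (⟨h, -⟩ | ⟨-, h⟩)
      · exact absurd h (lt_irrefl _)
      · exact h
    · intro h
      exact Or.inr ⟨rfl, h⟩
  · intro X hX β γ hβ hγ
    obtain ⟨t, ht1, ht2, ht3⟩ := hgen X hX β γ hβ hγ
    exact ⟨t, ht1, hqs.trans ht2, ht3⟩
  · rintro X hX ⟨r, hrP, hrq, γ, hrγ⟩ i₀
    have hXr : X ∈ Set.range f := by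
      rw [← hf]
      exact hX
    obtain ⟨n, hn⟩ := hXr
    have hW : ∀ ε, ε < M.δ → ∃ β γ, ε < β ∧ β < M.δ ∧ γ < M.δ ∧ s ∈ f n β γ := by
      intro ε hε
      obtain ⟨t, ht1, ht2, ht3⟩ := hgen (upX X) (M.up X hX) ε ε hε hε
      have hru : r ∈ upX X ε ε := ⟨M.δ, γ, hε, hrγ⟩
      have htu : t ∈ upX X ε ε := by
        rcases ht3.2 with h | h
        · exact h
        · exact absurd hru (h r hrP ((hrq.trans hqs).trans ht2))
      obtain ⟨β', γ', h1, h2, h3, h4⟩ := M.upS X hX t ht1 ε ε hε hε htu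
      refine ⟨β', γ', h1, h2, h3, ?_⟩
      rw [hn]
      exact M.opn _ X hX β' γ' t ht3.1 s hs ht2 h4
    obtain ⟨i, hi, γ', hγ', hsi⟩ := hbW n hW i₀
    refine ⟨i, hi, γ', hγ', ?_⟩
    have h5 : s ∈ X (b i) γ' := by
      rw [← hn]
      exact hsi
    exact M.opn _ X hX (b i) γ' s hs q hqP hqs h5

end Pool.Agent.Lib.MP_d41870_lc.HM
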