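import Pool.Agent.Lib.MP_d41870_lc.HM.Defs

/-! Countable suprema in `K` (order type `ω₁`), fresh numbers. -/

set_option autoImplicit false
set_option linter.unusedSectionVars false

namespace Pool.Agent.Lib.MP_d41870_lc.HM

open Set

variable {K : Type} [LinearOrder K] [W1 K]

instance W1.wellFoundedLT : WellFoundedLT K := W1.wf

theorem K1_cnt {α : Type} {s : Set α} (h : Cardinal.mk s < Cardinal.aleph 1) : s.Countable := by
  rw [← Cardinal.succ_aleph0, Order.lt_succ_iff] at h
  exact Cardinal.le_aleph0_iff_set_countable.1 h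

/-- A countable set `S` is bounded.  PROOF.  Otherwise every `a` is `≤ s` for some `s ∈ S`, so `univ` is the union of the
countable sets `Iic s = insert s (Iio s)`, `s ∈ S`; contradiction to `W1.unc`. -/
theorem exists_ub (S : Set K) (hS : S.Countable) : ∃ a, ∀ s ∈ S, s < a := by
  by_contra hcon
  push Not at hcon
  apply W1.unc (K := K)
  have h1 : (⋃ s ∈ S, Iic s).Countable := by
    refine hS.biUnion fun s _ => ?_
    rw [← Iio_insert]
    exact (W1.cnt s).insert s
  refine h1.mono fun a _ => ?_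
  obtain ⟨s, hs, has⟩ := hcon a
  exact mem_biUnion hs has

/-- PROOF.  `exists_ub {a}`, then the least element of `Ioi a` (well-foundedness). -/
theorem exists_succ (a : K) : ∃ b, a < b ∧ ∀ c, c < b → c ≤ a := by
  obtain ⟨b, hb⟩ := exists_ub ({a} : Set K) (countable_singleton a)
  have hne : {b : K | a < b}.Nonempty := ⟨b, hb a rfl⟩
  refine ⟨wellFounded_lt.min {b : K | a < b} hne, wellFounded_lt.min_mem _ hne, fun c hc => ?_⟩
  by_contra hcon
  exact wellFounded_lt.not_lt_min {b : K | a < b} (show c ∈ {b : K | a < b} from not_le.1 hcon) hc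

/-- PROOF.  The least upper bound of the range of `f` (`exists_ub`, well-foundedness). -/
theorem exists_sup (f : ℕ → K) : ∃ l, (∀ n, f n ≤ l) ∧ ∀ c, c < l → ∃ n, c < f n := by
  obtain ⟨b, hb⟩ := exists_ub (range f) (countable_range f)
  have hne : {b : K | ∀ n, f n ≤ b}.Nonempty := ⟨b, fun n => (hb _ ⟨n, rfl⟩).le⟩
  refine ⟨wellFounded_lt.min {b : K | ∀ n, f n ≤ b} hne, wellFounded_lt.min_mem _ hne,
    fun c hc => ?_⟩
  by_contra hcon
  push Not at hcon
  exact wellFounded_lt.not_lt_min {b : K | ∀ n, f n ≤ b}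
    (show c ∈ {b : K | ∀ n, f n ≤ b} from hcon) hc

/-- PROOF.  Let `ι` be an injective enumeration of `Iio a` (`Set.Countable`), `φ v = Nat.pair (ι v) k` with `k` such that
`Nat.pair (ι v) k ∉ S v` (`k ↦ Nat.pair (ι v) k` is injective, `S v` is finite). -/
theorem exists_fresh (a : K) (S : K → Set ℕ) (hS : ∀ v, v < a → (S v).Finite) :
    ∃ φ : K → ℕ, (∀ v w, v < a → w < a → φ v = φ w → v = w) ∧ ∀ v, v < a → φ v ∉ S v := by
  obtain ⟨ι, hι⟩ := countable_iff_exists_injOn.mp (W1.cnt a)
  have h : ∀ v, ∃ k, v < a → Nat.pair (ι v) k ∉ S v := by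
    intro v
    by_cases hv : v < a
    · have hinf : (range fun k => Nat.pair (ι v) k).Infinite := by
        refine infinite_range_of_injective fun k k' hk => ?_
        exact (Nat.pair_eq_pair.1 hk).2
      obtain ⟨x, ⟨k, hk⟩, hx⟩ := hinf.exists_notMem_finite (hS v hv)
      refine ⟨k, fun _ => ?_⟩
      have hk' : Nat.pair (ι v) k = x := hk
      rw [hk']
      exact hx
    · exact ⟨0, fun h => absurd h hv⟩
  choose k hk using h
  refine ⟨fun v => Nat.pair (ι v) (k v), fun v w hv hw hvw => ?_, fun v hv => hk v hv⟩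
  exact hι hv hw (Nat.pair_eq_pair.1 hvw).1

/-- PROOF.  `K = (Cardinal.aleph 1).ord.ToType`: initial segments have fewer than `ℵ₁` elements
(`Cardinal.mk_Iio_toType_ord_lt`, `Cardinal.mk_le_aleph0_iff`, `Order.lt_succ_iff`). -/
theorem exists_W1 : ∃ (K : Type) (_ : LinearOrder K), W1 K := by
  refine ⟨(Cardinal.aleph 1).ord.ToType, inferInstance, ⟨inferInstance, fun a => ?_, fun h => ?_⟩⟩
  · have h1 : Cardinal.mk (Iio a) < Cardinal.mk (Cardinal.aleph 1).ord.ToType :=
      Cardinal.mk_Iio_lt a (by simp)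
    rw [Cardinal.mk_ord_toType] at h1
    exact K1_cnt h1
  · have h1 := Cardinal.le_aleph0_iff_set_countable.2 h
    rw [Cardinal.mk_univ, Cardinal.mk_ord_toType] at h1
    exact absurd h1 (not_le.2 Cardinal.aleph0_lt_aleph_one)

end Pool.Agent.Lib.MP_d41870_lc.HM
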