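import Pool.Agent.Lib.MP_d41870_lc.HM.Ga
import Pool.Agent.Lib.MP_d41870_lc.HM.C1c

/-! Limit stages: one step. -/

set_option autoImplicit false
set_option linter.unusedSectionVars false

namespace Pool.Agent.Lib.MP_d41870_lc.HM

open Set

variable {K Θ : Type} [LinearOrder K] [W1 K] [LinearOrder Θ] [WellFoundedLT Θ] [OrderBot Θ] {nm : Θ → Nm K Θ}
  {M : Mod nm} {b : ℕ → K}

/-- Row La.  PROOF.  `LEX nm ζ ξ p (X β γ) ∈ M.XX ξ` (`M.lE`); `hq.gen` for it (at `β`, `γ`) gives `t ∈ M.CO`, `q ≤ t` in `Dec (PT nm ξ) (LEX ..)`.  The alternative (no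
extension of `t` is in `LEX`) is impossible: some extension `s` of `q` is in `LEX`:  `q ≤ p.res ξ`; WLOG the length of `q` is a successor (`ext_len`, the extension
`q₁ ≤ q ≤ p.res ξ`); `amalg` gives `r ∈ PT nm ζ`, `r ≤ p`, `r ≤ q₁`, `q₁ ≤ r.res ξ`; if some `r' ≤ r` is in `X β γ` extend it to a
successor length (`M.opn`, `ext_len`): `d`; otherwise `d = r` (its length is that of `q₁`); `s = d.res ξ ≤ q₁`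
(`res_le_iff`), `LE nm ζ ξ p (X β γ) d s`.  So `t ∈ LEX`, and since `q ≤ t`, `q ≤ p.res ξ` there is `d` with `LE nm ζ ξ p (X β γ) d t`; `M.lES`
gives it in `M.CO`; `q ≤ t ≤ d.res ξ`. -/
theorem lim_dec {ζ : WithTop Θ} (hζ : ζ = ⊤ ∨ ∃ η ∈ M.TH, ζ = (η : WithTop Θ)) {ξ : Θ} (hξ : ξ ∈ M.TH)
    (hξζ : (ξ : WithTop Θ) < ζ) {p q : Cond K Θ} (hp : p ∈ M.CO) (hpζ : p ∈ PT nm ζ) (hl : IsS p.l)
    (hq : Good M b ξ q) (hqp : q ≤ p.res ξ) {X : Name K Θ} (hX : X ∈ M.XX ζ) {β γ : K} (hβ : β < M.δ) (hγ : γ < M.δ) :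
    ∃ d ∈ M.CO, d ∈ Dec (PT nm ζ) (X β γ) ∧ IsS d.l ∧ d ≤ p ∧ q ≤ d.res ξ := by
  have hL := M.lE ζ hζ ξ hξ hξζ p hp X hX β γ hβ hγ
  obtain ⟨t, ht, hqt, htP, htD⟩ := hq.gen _ hL β γ hβ hγ
  -- some extension of `q` is in `LEX`
  have key : ∃ s ∈ PT nm (ξ : WithTop Θ), s ≤ q ∧ s ∈ LEX nm ζ ξ p (X β γ) β γ := by
    obtain ⟨q₁, hq₁, hq₁q, hq₁l, -, -⟩ := ext_len hq.mem p.l
    obtain ⟨r, hr, hrp, hrq, -, hrl, -⟩ := amalg hξζ.le hpζ hl hq₁ (hq₁q.trans hqp) 0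
    have hd : ∃ d ∈ Dec (PT nm ζ) (X β γ), IsS d.l ∧ d ≤ r := by
      by_cases h : ∃ r' ∈ PT nm ζ, r' ≤ r ∧ r' ∈ X β γ
      · obtain ⟨r', hr', hr'r, hr'X⟩ := h
        obtain ⟨d, hd, hdr, hdl, -, -⟩ := ext_len hr' p.l
        exact ⟨d, ⟨hd, Or.inl (M.opn ζ X hX β γ r' hr' d hd hdr hr'X)⟩, hdl, hdr.trans hr'r⟩
      · refine ⟨r, ⟨hr, Or.inr fun s hs hsr hsX => h ⟨s, hs, hsr, hsX⟩⟩, ?_, le_rfl⟩
        rw [hrl]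
        exact hq₁l
    obtain ⟨d, hdD, hdl, hdr⟩ := hd
    refine ⟨d.res ξ, res_mem hdD.1 ξ, ?_, Or.inl ⟨d, hdD, hdl, hdr.trans hrp, le_rfl⟩⟩
    exact ((res_le_iff hq₁).2 (hdr.trans hrq)).trans hq₁q
  obtain ⟨s, hs, hsq, hsX⟩ := key
  have htL : t ∈ LEX nm ζ ξ p (X β γ) β γ := by
    rcases htD with h | h
    · exact h
    · exact absurd hsX (h s hs (hsq.trans hqt))
  rcases htL with h | h
  · obtain ⟨d, hd, hdD, hdl, hdp, htd⟩ := M.lES ζ hζ ξ hξ hξζ p hp X hX β γ hβ hγ t ht h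
    exact ⟨d, hd, hdD, hdl, hdp, hqt.trans htd⟩
  · exact absurd hqp (h q hq.mem hqt)

/-- Row La.  PROOF.  `LYX nm ζ ξ p X ∈ M.XX ξ` (`M.lY`).  Case A: some `r ∈ PT nm ξ`, `r ≤ q` is in `LYX .. M.δ γ` for some `γ`.  Then `hq.good` gives `i ≥ i₀`, `γ ≤ b (i+1)` with
`q ∈ LYX .. (b i) γ`; `Good.mem_gen` gives `t ∈ M.CO`, `q ≤ t` there (`b i`, `γ < M.δ` by `Lad.lt`), `M.lYS` gives `d ∈ M.CO`.  Case B: otherwise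
`d = p`: if `r ∈ PT nm ζ`, `r ≤ p`, `r.res ξ ≤ q`, `r ∈ X M.δ γ` then extend `r` to a successor length (`ext_len`, `M.opn`): `r'`;
`r'.res ξ ∈ LYX .. M.δ γ` (with `d = r'`), `r'.res ξ ≤ q`; contradiction. -/
theorem lim_hit (hb : Lad M.δ b) {ζ : WithTop Θ} (hζ : ζ = ⊤ ∨ ∃ η ∈ M.TH, ζ = (η : WithTop Θ)) {ξ : Θ} (hξ : ξ ∈ M.TH)
    (hξζ : (ξ : WithTop Θ) < ζ) {p q : Cond K Θ} (hp : p ∈ M.CO) (hpζ : p ∈ PT nm ζ) (hl : IsS p.l)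
    (hq : Good M b ξ q) (hqp : q ≤ p.res ξ) {X : Name K Θ} (hX : X ∈ M.XX ζ) (i₀ : ℕ) :
    ∃ d ∈ M.CO, d ∈ PT nm ζ ∧ IsS d.l ∧ d ≤ p ∧ q ≤ d.res ξ ∧
      ((∃ i, i₀ ≤ i ∧ ∃ γ, γ ≤ b (i + 1) ∧ d ∈ X (b i) γ) ∨
        ∀ r ∈ PT nm ζ, r ≤ p → r.res ξ ≤ q → ∀ γ, r ∉ X M.δ γ) := by
  have hL := M.lY ζ hζ ξ hξ hξζ p hp X hX
  by_cases h : ∃ r ∈ PT nm (ξ : WithTop Θ), r ≤ q ∧ ∃ γ, r ∈ LYX nm ζ ξ p X M.δ γ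
  · obtain ⟨i, hi, γ, hγ, hqi⟩ := hq.good _ hL h i₀
    have hγδ : γ < M.δ := lt_of_le_of_lt hγ (hb.lt (i + 1))
    obtain ⟨t, ht, hqt, -, htX⟩ := hq.mem_gen hL (hb.lt i) hγδ hqi
    obtain ⟨d, hd, hdP, hdX, hdl, hdp, htd⟩ :=
      M.lYS ζ hζ ξ hξ hξζ p hp X hX (b i) γ (hb.lt i) hγδ t ht htX
    exact ⟨d, hd, hdP, hdl, hdp, hqt.trans htd, Or.inl ⟨i, hi, γ, hγ, hdX⟩⟩
  · refine ⟨p, hp, hpζ, hl, le_rfl, hqp, Or.inr fun r hr hrp hrq γ hrX => h ?_⟩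
    obtain ⟨r', hr', hr'r, hr'l, -, -⟩ := ext_len hr p.l
    exact ⟨r'.res ξ, res_mem hr' ξ, (res_mono hr'r ξ).trans hrq, γ, r', hr',
      M.opn ζ X hX M.δ γ r hr r' hr' hr'r hrX, hr'l, hr'r.trans hrp, le_rfl⟩

end Pool.Agent.Lib.MP_d41870_lc.HM
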