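import Pool.Agent.Lib.MP_d41870_lc.HM.K1

/-! Names and countable models: definitions. -/

set_option autoImplicit false
set_option linter.unusedSectionVars false

namespace Pool.Agent.Lib.MP_d41870_lc.HM

open Set

variable {K Θ : Type} [LinearOrder K] [W1 K] [LinearOrder Θ] [WellFoundedLT Θ]

/-- The length is greater than `β`. -/
def LenX : Name K Θ := fun β _ => {t | β < t.l}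

/-- Conjunction. -/
def andX (X Y : Name K Θ) : Name K Θ := fun β γ =>
  {t | (∃ γ', γ' ≤ γ ∧ t ∈ X β γ') ∧ ∃ γ', γ' ≤ γ ∧ t ∈ Y β γ'}

/-- A pair with first coordinate above `β` is in `X`. -/
def upX (X : Name K Θ) : Name K Θ := fun β _ => {t | ∃ β' γ', β < β' ∧ t ∈ X β' γ'}

/-- `d` is below `p`, decides `O` and its restriction is above `t`. -/
def LE (nm : Θ → Nm K Θ) (ζ ξ : WithTop Θ) (p : Cond K Θ) (O : Set (Cond K Θ)) (d t : Cond K Θ) : Prop :=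
  d ∈ Dec (PT nm ζ) O ∧ IsS d.l ∧ d ≤ p ∧ t ≤ d.res ξ

def LEX (nm : Θ → Nm K Θ) (ζ ξ : WithTop Θ) (p : Cond K Θ) (O : Set (Cond K Θ)) : Name K Θ := fun _ _ =>
  {t | (∃ d, LE nm ζ ξ p O d t) ∨ ∀ s ∈ PT nm ξ, s ≤ t → ¬ s ≤ p.res ξ}

/-- `d` is below `p`, in `O` and its restriction is above `t`. -/
def LY (nm : Θ → Nm K Θ) (ζ ξ : WithTop Θ) (p : Cond K Θ) (O : Set (Cond K Θ)) (d t : Cond K Θ) : Prop :=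
  d ∈ PT nm ζ ∧ d ∈ O ∧ IsS d.l ∧ d ≤ p ∧ t ≤ d.res ξ

def LYX (nm : Θ → Nm K Θ) (ζ ξ : WithTop Θ) (p : Cond K Θ) (X : Name K Θ) : Name K Θ := fun β γ =>
  {t | ∃ d, LY nm ζ ξ p (X β γ) d t}

/-- As `LE`, and the new vertices `≤ v` are not in the class `m`; the length is bounded by `α`. -/
def SD (nm : Θ → Nm K Θ) (μ ν : Θ) (m : ℕ) (p : Cond K Θ) (O : Set (Cond K Θ)) (α v : K) (d t : Cond K Θ) : Prop :=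
  d ∈ Dec (PT nm ν) O ∧ IsS d.l ∧ d ≤ p ∧ d.l ≤ α ∧ (∀ u, p.l ≤ u → u ≤ v → u < d.l → d.g μ u ≠ m) ∧
    t ≤ d.res μ

def SC (nm : Θ → Nm K Θ) (μ ν : Θ) (m : ℕ) (p : Cond K Θ) (O : Set (Cond K Θ)) (α : K) (t : Cond K Θ) : Prop :=
  (∃ v, v < α) ∧ ∀ v, v < α → ∃ d, SD nm μ ν m p O α v d t

def SEX (nm : Θ → Nm K Θ) (μ ν : Θ) (m : ℕ) (p : Cond K Θ) (O : Set (Cond K Θ)) : Name K Θ := fun _ _ =>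
  {t | (∃ α, SC nm μ ν m p O α t) ∨ ∀ s ∈ PT nm μ, s ≤ t → ¬ s ≤ p.res μ}

/-- `d` is below `p` and in `X β γ'` for some `γ' ≤ γ`, its length is at most `γ`, `β` is in the class `m` and no new vertex `≤ v` is. -/
def SH (nm : Θ → Nm K Θ) (μ ν : Θ) (m : ℕ) (p : Cond K Θ) (X : Name K Θ) (β γ v : K) (d t : Cond K Θ) : Prop :=
  d ∈ PT nm ν ∧ IsS d.l ∧ d ≤ p ∧ (∃ γ', γ' ≤ γ ∧ d ∈ X β γ') ∧ d.l ≤ γ ∧ β < d.l ∧ d.g μ β = m ∧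
    (∀ u, p.l ≤ u → u ≤ v → d.g μ u ≠ m) ∧ t ≤ d.res μ

def SYX (nm : Θ → Nm K Θ) (μ ν : Θ) (m : ℕ) (p : Cond K Θ) (X : Name K Θ) : Name K Θ := fun β γ =>
  {t | ∀ v, v < β → ∃ d, SH nm μ ν m p X β γ v d t}

/-- Countable closed families: `δ` (a countable set of vertices, `Iio δ`), stages `TH`, conditions `CO`, names `XX ξ` of level `ξ`. -/
structure Mod [OrderBot Θ] (nm : Θ → Nm K Θ) where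
  δ : K
  TH : Set Θ
  CO : Set (Cond K Θ)
  XX : WithTop Θ → Set (Name K Θ)
  cTH : TH.Countable
  cCO : CO.Countable
  cXX : ∀ ξ, (XX ξ).Countable
  pos : ∃ a, a < δ
  lim : ∀ a, a < δ → ∃ b, a < b ∧ b < δ
  bot : ⊥ ∈ TH
  succ : ∀ μ ∈ TH, ∃ ν ∈ TH, μ < ν ∧ ∀ η, η < ν → η ≤ μ
  len : ∀ p ∈ CO, p.l < δ
  supp : ∀ p ∈ CO, p.F ⊆ TH
  res : ∀ p ∈ CO, ∀ ξ ∈ TH, p.res ξ ∈ CO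
  opn : ∀ ξ, ∀ X ∈ XX ξ, ∀ β γ, OpenIn (PT nm ξ) (X β γ)
  stage : ∀ μ ∈ TH, ∀ ν ∈ TH, μ < ν → ∀ p ∈ CO, p ∈ PT nm ν →
    ∃ q ∈ CO, q ∈ PT nm ν ∧ q ≤ p ∧ q.l = p.l ∧ μ ∈ q.F ∧ p.res μ ≤ q.res μ
  dec : ∀ p ∈ CO, p ∈ PT nm (⊥ : Θ) → ∀ X ∈ XX (⊥ : Θ), ∀ β γ, β < δ → γ < δ →
    ∃ d ∈ CO, d ∈ Dec (PT nm (⊥ : Θ)) (X β γ) ∧ d ≤ p
  lenX : ∀ ζ : WithTop Θ, (ζ = ⊤ ∨ ∃ η ∈ TH, ζ = (η : WithTop Θ)) → LenX ∈ XX ζ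
  and : ∀ ξ ∈ TH, ∀ X ∈ XX ξ, ∀ Y ∈ XX ξ, andX X Y ∈ XX ξ
  up : ∀ X ∈ XX (⊥ : Θ), upX X ∈ XX (⊥ : Θ)
  upS : ∀ X ∈ XX (⊥ : Θ), ∀ t ∈ CO, ∀ β γ, β < δ → γ < δ → t ∈ upX X β γ →
    ∃ β' γ', β < β' ∧ β' < δ ∧ γ' < δ ∧ t ∈ X β' γ'
  lE : ∀ ζ : WithTop Θ, (ζ = ⊤ ∨ ∃ η ∈ TH, ζ = (η : WithTop Θ)) → ∀ ξ ∈ TH, (ξ : WithTop Θ) < ζ → ∀ p ∈ CO,
    ∀ X ∈ XX ζ, ∀ β γ, β < δ → γ < δ → LEX nm ζ ξ p (X β γ) ∈ XX ξ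
  lES : ∀ ζ : WithTop Θ, (ζ = ⊤ ∨ ∃ η ∈ TH, ζ = (η : WithTop Θ)) → ∀ ξ ∈ TH, (ξ : WithTop Θ) < ζ → ∀ p ∈ CO,
    ∀ X ∈ XX ζ, ∀ β γ, β < δ → γ < δ → ∀ t ∈ CO, (∃ d, LE nm ζ ξ p (X β γ) d t) →
      ∃ d ∈ CO, LE nm ζ ξ p (X β γ) d t
  lY : ∀ ζ : WithTop Θ, (ζ = ⊤ ∨ ∃ η ∈ TH, ζ = (η : WithTop Θ)) → ∀ ξ ∈ TH, (ξ : WithTop Θ) < ζ → ∀ p ∈ CO,
    ∀ X ∈ XX ζ, LYX nm ζ ξ p X ∈ XX ξ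
  lYS : ∀ ζ : WithTop Θ, (ζ = ⊤ ∨ ∃ η ∈ TH, ζ = (η : WithTop Θ)) → ∀ ξ ∈ TH, (ξ : WithTop Θ) < ζ → ∀ p ∈ CO,
    ∀ X ∈ XX ζ, ∀ β γ, β < δ → γ < δ → ∀ t ∈ CO, (∃ d, LY nm ζ ξ p (X β γ) d t) →
      ∃ d ∈ CO, LY nm ζ ξ p (X β γ) d t
  sE : ∀ μ ∈ TH, ∀ ν ∈ TH, μ < ν → ∀ m, ∀ p ∈ CO, ∀ X ∈ XX ν, ∀ β γ, β < δ → γ < δ →
    SEX nm μ ν m p (X β γ) ∈ XX μ
  sES : ∀ μ ∈ TH, ∀ ν ∈ TH, μ < ν → ∀ m, ∀ p ∈ CO, ∀ X ∈ XX ν, ∀ β γ, β < δ → γ < δ →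
    ∀ t ∈ CO, (∃ α, SC nm μ ν m p (X β γ) α t) →
      ∃ α, α < δ ∧ (∃ v, v < α) ∧ ∀ v, v < α → ∃ d ∈ CO, SD nm μ ν m p (X β γ) α v d t
  sY : ∀ μ ∈ TH, ∀ ν ∈ TH, μ < ν → ∀ m, ∀ p ∈ CO, ∀ X ∈ XX ν, SYX nm μ ν m p X ∈ XX μ
  sYS : ∀ μ ∈ TH, ∀ ν ∈ TH, μ < ν → ∀ m, ∀ p ∈ CO, ∀ X ∈ XX ν, ∀ β γ v, β < δ → γ < δ → v < δ →
    ∀ t ∈ CO, (∃ d, SH nm μ ν m p X β γ v d t) → ∃ d ∈ CO, SH nm μ ν m p X β γ v d t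

end Pool.Agent.Lib.MP_d41870_lc.HM
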