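import Pool.Agent.Lib.MP_d41870_lc.HM.Md

/-! The names of `Md` are open. -/

set_option autoImplicit false
set_option linter.unusedSectionVars false

namespace Pool.Agent.Lib.MP_d41870_lc.HM

open Set

variable {K Θ : Type} [LinearOrder K] [W1 K] [LinearOrder Θ] [WellFoundedLT Θ] {nm : Θ → Nm K Θ}

/-- PROOF.  `le_def`. -/
theorem open_LenX (ξ : WithTop Θ) (β γ : K) : OpenIn (PT nm ξ) (LenX β γ) := by
  intro s _ t _ hts hs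
  exact lt_of_lt_of_le hs hts.1

theorem open_andX {ξ : WithTop Θ} {X Y : Name K Θ} (hX : ∀ β γ, OpenIn (PT nm ξ) (X β γ))
    (hY : ∀ β γ, OpenIn (PT nm ξ) (Y β γ)) (β γ : K) : OpenIn (PT nm ξ) (andX X Y β γ) := by
  rintro s hs t ht hts ⟨⟨g1, hg1, h1⟩, g2, hg2, h2⟩
  exact ⟨⟨g1, hg1, hX β g1 s hs t ht hts h1⟩, g2, hg2, hY β g2 s hs t ht hts h2⟩

theorem open_upX {ξ : WithTop Θ} {X : Name K Θ} (hX : ∀ β γ, OpenIn (PT nm ξ) (X β γ)) (β γ : K) :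
    OpenIn (PT nm ξ) (upX X β γ) := by
  rintro s hs t ht hts ⟨β', γ', h1, h2⟩
  exact ⟨β', γ', h1, hX β' γ' s hs t ht hts h2⟩

theorem open_LEX (ζ ξ : WithTop Θ) (p : Cond K Θ) (O : Set (Cond K Θ)) (β γ : K) :
    OpenIn (PT nm ξ) (LEX nm ζ ξ p O β γ) := by
  rintro s hs t ht hts (⟨d, h1, h2, h3, h4⟩ | h)
  · exact Or.inl ⟨d, h1, h2, h3, hts.trans h4⟩
  · exact Or.inr fun r hr hrt => h r hr (hrt.trans hts)

theorem open_LYX (ζ ξ : WithTop Θ) (p : Cond K Θ) (X : Name K Θ) (β γ : K) :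
    OpenIn (PT nm ξ) (LYX nm ζ ξ p X β γ) := by
  rintro s hs t ht hts ⟨d, h0, h1, h2, h3, h4⟩
  exact ⟨d, h0, h1, h2, h3, hts.trans h4⟩

theorem open_SEX (μ ν : Θ) (m : ℕ) (p : Cond K Θ) (O : Set (Cond K Θ)) (β γ : K) :
    OpenIn (PT nm μ) (SEX nm μ ν m p O β γ) := by
  rintro s hs t ht hts (⟨α, h1, h2⟩ | h)
  · refine Or.inl ⟨α, h1, fun v hv => ?_⟩
    obtain ⟨d, h3, h4, h5, h6, h7, h8⟩ := h2 v hv
    exact ⟨d, h3, h4, h5, h6, h7, hts.trans h8⟩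
  · exact Or.inr fun r hr hrt => h r hr (hrt.trans hts)

theorem open_SYX (μ ν : Θ) (m : ℕ) (p : Cond K Θ) (X : Name K Θ) (β γ : K) :
    OpenIn (PT nm μ) (SYX nm μ ν m p X β γ) := by
  intro s hs t ht hts h v hv
  obtain ⟨d, h1, h2, h3, h4, h5, h6, h7, h8, h9⟩ := h v hv
  exact ⟨d, h1, h2, h3, h4, h5, h6, h7, h8, hts.trans h9⟩

/-- For fixed `β`, the union over the second coordinate. -/
theorem open_union {ξ : WithTop Θ} {X : Name K Θ} (hX : ∀ β γ, OpenIn (PT nm ξ) (X β γ)) (β : K) :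
    OpenIn (PT nm ξ) {s | ∃ γ, s ∈ X β γ} := by
  rintro s hs t ht hts ⟨γ, h⟩
  exact ⟨γ, hX β γ s hs t ht hts h⟩

theorem open_SH (μ ν : Θ) (m : ℕ) (p : Cond K Θ) (X : Name K Θ) (β v : K) :
    OpenIn (PT nm μ) {s | ∃ γ d, SH nm μ ν m p X β γ v d s} := by
  rintro s hs t ht hts ⟨γ, d, h1, h2, h3, h4, h5, h6, h7, h8, h9⟩
  exact ⟨γ, d, h1, h2, h3, h4, h5, h6, h7, h8, hts.trans h9⟩

theorem open_C1 (ξ : WithTop Θ) (c : Nm K Θ) (α β : K) : OpenIn (PT nm ξ) (C1 (PT nm ξ) c α β) := by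
  rintro s hs t ht hts ⟨h1, i, r, h2, h3, h4⟩
  exact ⟨ht, i, r, h2, h3, hts.trans h4⟩

end Pool.Agent.Lib.MP_d41870_lc.HM
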