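import Pool.Agent.Lib.MP_d41870_lc.HM.Gd
import Pool.Agent.Lib.MP_d41870_lc.HM.C1a
import Pool.Agent.Lib.MP_d41870_lc.HM.C1b
import Pool.Agent.Lib.MP_d41870_lc.HM.C1c

/-! Successor stages: density. -/

set_option autoImplicit false
set_option linter.unusedSectionVars false

namespace Pool.Agent.Lib.MP_d41870_lc.HM

open Set

variable {K Θ : Type} [LinearOrder K] [W1 K] [LinearOrder Θ] [WellFoundedLT Θ] [OrderBot Θ] {nm : Θ → Nm K Θ}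

/-- One step of the construction. -/
theorem Sa_step {μ ν : Θ} (h : μ < ν) (m : ℕ) {p : Cond K Θ} (hp : p ∈ PT nm ν) (hl : IsS p.l) (hμ : μ ∈ p.F)
    (O : Set (Cond K Θ)) (hO : OpenIn (PT nm ν) O) (s : Cond K Θ) (hs : s ∈ PT nm μ) (hsp : s ≤ p.res μ) :
    ∃ d s' : Cond K Θ, d ∈ Dec (PT nm ν) O ∧ IsS d.l ∧ d ≤ p ∧ (∀ u, p.l ≤ u → u < s.l → d.g μ u ≠ m) ∧
      s' ∈ PT nm μ ∧ s' ≤ d.res μ ∧ d.l < s'.l ∧ s' ≤ s := by
  have hμν : (μ : WithTop Θ) ≤ (ν : WithTop Θ) := WithTop.coe_le_coe.mpr h.le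
  obtain ⟨r, hr, hrp, hrs, -, hrl, hrm⟩ := amalg hμν hp hl hs hsp m
  have hfin : ∀ d0 : Cond K Θ, d0 ∈ PT nm ν → d0 ≤ r → IsS d0.l → d0 ∈ Dec (PT nm ν) O →
      ∃ d s' : Cond K Θ, d ∈ Dec (PT nm ν) O ∧ IsS d.l ∧ d ≤ p ∧ (∀ u, p.l ≤ u → u < s.l → d.g μ u ≠ m) ∧
      s' ∈ PT nm μ ∧ s' ≤ d.res μ ∧ d.l < s'.l ∧ s' ≤ s := by
    intro d0 hd0 hdr hdl hdO
    obtain ⟨s', hs', hsd, -, hlt, -⟩ := ext_len (res_mem hd0 (μ : WithTop Θ)) d0.l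
    refine ⟨d0, s', hdO, hdl, hdr.trans hrp, ?_, hs', hsd, hlt, ?_⟩
    · intro u hu1 hu2
      have hur : u < r.l := by rw [hrl]; exact hu2
      rw [hdr.2.2.2 μ (hrp.2.1 hμ) u hur]
      exact hrm μ hμ le_rfl u hu1 hur
    · exact hsd.trans ((res_le_iff hs).mpr (hdr.trans hrs))
  by_cases hc : ∃ o ∈ PT nm ν, o ≤ r ∧ o ∈ O
  · obtain ⟨o, ho, hor, hoO⟩ := hc
    obtain ⟨d0, hd0, hdo, hdl, -, -⟩ := ext_len ho o.l
    exact hfin d0 hd0 (hdo.trans hor) hdl ⟨hd0, Or.inl (hO o ho d0 hd0 hdo hoO)⟩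
  · obtain ⟨d0, hd0, hdr, hdl, -, -⟩ := ext_len hr r.l
    refine hfin d0 hd0 hdr hdl ⟨hd0, Or.inr ?_⟩
    intro q hq hqd hqO
    exact hc ⟨q, hq, hqd.trans hdr, hqO⟩

/-- Row Sa.  PROOF.  Construct `t n ∈ PT nm μ` of successor length, decreasing, `t 0 ≤ t`, and `d n ∈ Dec (PT nm ν) O`, `d n ≤ p`, `IsS (d n).l`, `(t n).l ≤ (d n).l < (t (n+1)).l`,
`t (n+1) ≤ (d n).res μ`, and the new vertices `v < (t n).l` of `d n` are not in the class `m`: `amalg` (with `ξ = μ`, `ζ = ν`, `m`) of `p` and `t n` is `r ∈ PT nm ν`,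
`r.l = (t n).l`, `t n ≤ r.res μ`, `r.g μ v ≠ m` for `p.l ≤ v < r.l` (as `μ ∈ p.F`); let `d n = r` if no `s ≤ r` is in `O`, otherwise an extension in `O` of
successor length (`ext_len`, `hO`); note `(d n).g μ v = r.g μ v` for `v < r.l`; `t (n+1) ≤ (d n).res μ` of successor length `> (d n).l` (`ext_len`); `(d n).res μ ≤ t n` by
`res_le_iff`.  Let `t'` be the `fusion` of the `t n` (so `c < t'.l` implies `c < (t n).l` for some `n`), `α = t'.l`.  For `v < α` let `v < (t n).l`, `d = d n`: `(d n).l ≤ α`, no new `u ≤ v` in the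
class `m`, `t' ≤ t (n+1) ≤ (d n).res μ`. -/
theorem dense_SC {μ ν : Θ} (h : μ < ν) (m : ℕ) {p t : Cond K Θ} (hp : p ∈ PT nm ν) (hl : IsS p.l) (hμ : μ ∈ p.F)
    (ht : t ∈ PT nm μ) (htp : t ≤ p.res μ) (O : Set (Cond K Θ)) (hO : OpenIn (PT nm ν) O) :
    ∃ t' ∈ PT nm μ, t' ≤ t ∧ ∃ α, SC nm μ ν m p O α t' := by
  classical
  choose! D S' hD using fun (s : Cond K Θ) (hs : s ∈ PT nm μ ∧ s ≤ p.res μ) =>
    Sa_step h m hp hl hμ O hO s hs.1 hs.2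
  let T : ℕ → Cond K Θ := fun n => S'^[n] t
  have hTs : ∀ n, T (n + 1) = S' (T n) := fun n => Function.iterate_succ_apply' S' n t
  have hT : ∀ n, T n ∈ PT nm μ ∧ T n ≤ p.res μ := by
    intro n
    induction n with
    | zero => exact ⟨ht, htp⟩
    | succ n ih =>
      rw [hTs n]
      obtain ⟨-, -, -, -, h5, -, -, h8⟩ := hD (T n) ih
      exact ⟨h5, h8.trans ih.2⟩
  obtain ⟨t', ht', hle, hlen, -⟩ := fusion T (fun n => (hT n).1) (fun n => by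
    rw [hTs n]; exact (hD (T n) (hT n)).2.2.2.2.2.2.2)
  have hlt : ∀ n, (D (T n)).l < t'.l := by
    intro n
    have h1 := (hD (T n) (hT n)).2.2.2.2.2.2.1
    have h2 := (hle (n + 1)).1
    rw [hTs n] at h2
    exact h1.trans_le h2
  refine ⟨t', ht', hle 0, t'.l, ⟨_, hlt 0⟩, fun v hv => ?_⟩
  obtain ⟨n, hn⟩ := hlen v hv
  obtain ⟨h1, h2, h3, h4, h5, h6, h7, h8⟩ := hD (T n) (hT n)
  refine ⟨D (T n), h1, h2, h3, (hlt n).le, ?_, ?_⟩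
  · intro u hu1 hu2 _
    exact h4 u hu1 (hu2.trans_lt hn)
  · have h9 := hle (n + 1)
    rw [hTs n] at h9
    exact h9.trans h6

end Pool.Agent.Lib.MP_d41870_lc.HM
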