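import Pool.Agent.Lib.MP_d41870_lc.HM.Sa
import Pool.Agent.Lib.MP_d41870_lc.HM.Ga

/-! Successor stages: deciding a name. -/

set_option autoImplicit false
set_option linter.unusedSectionVars false

namespace Pool.Agent.Lib.MP_d41870_lc.HM

open Set

variable {K Θ : Type} [LinearOrder K] [W1 K] [LinearOrder Θ] [WellFoundedLT Θ] [OrderBot Θ] {nm : Θ → Nm K Θ}
  {M : Mod nm} {b : ℕ → K}

/-- a vertex below `α` above finitely many given ones below `α` -/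
theorem Sb_max {K : Type} [LinearOrder K] (b : ℕ → K) {α v1 : K} (hv1 : v1 < α) (n : ℕ) :
    ∃ v', v' < α ∧ v1 ≤ v' ∧ ∀ i, i < n → b i < α → b i ≤ v' := by
  induction n with
  | zero => exact ⟨v1, hv1, le_rfl, fun i hi => absurd hi (Nat.not_lt_zero i)⟩
  | succ n ih =>
    obtain ⟨v', h1, h2, h3⟩ := ih
    rcases lt_or_ge (b n) α with h4 | h4
    · refine ⟨max v' (b n), max_lt h1 h4, h2.trans (le_max_left _ _), fun i hi hia => ?_⟩
      rcases Nat.lt_succ_iff_lt_or_eq.1 hi with h5 | h5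
      · exact (h3 i h5 hia).trans (le_max_left _ _)
      · rw [h5]
        exact le_max_right _ _
    · refine ⟨v', h1, h2, fun i hi hia => ?_⟩
      rcases Nat.lt_succ_iff_lt_or_eq.1 hi with h5 | h5
      · exact h3 i h5 hia
      · rw [h5] at hia
        exact absurd hia (not_lt.2 h4)

/-- Row Sb.  PROOF.  `SEX nm μ ν m p (X β γ) ∈ M.XX μ` (`M.sE`); `hq.gen` gives `t ∈ M.CO`, `q ≤ t`, in `Dec (PT nm μ) (SEX ..)`; the alternative is impossible by `dense_SC` (for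
`t := q`: some extension of `q ≤ t` is in `SEX`); so `t ∈ SEX`, and as `q ≤ t`, `q ≤ p.res μ`: `∃ α, SC .. α t`; `M.sES`: `α < M.δ`, `α ≠ 0`, and for every `v' < α` there is
`d ∈ M.CO` with `SD .. α v' d t`.  Choose `v' < α` such that `b i < α → b i ≤ v'` for all `i` (only finitely many `b i < α` by `Lad.cof`; the largest, or any `v' < α`), and
`v ≤ v'` if `v < α`.  `Harm`: if `b i < d.l ≤ α` then `b i ≤ v'`, so either `b i < p.l` (then `d.g μ (b i) = p.g μ (b i)` by `d ≤ p`, `μ ∈ p.F`) or `d.g μ (b i) ≠ m`.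
If `v < d.l ≤ α` then `v ≤ v'`. -/
theorem succ_dec {μ ν : Θ} (hμ : μ ∈ M.TH) (hν : ν ∈ M.TH) (h : μ < ν) (hb : Lad M.δ b) {m : ℕ} {σ : ℕ → Prop}
    {p q : Cond K Θ} (hp : p ∈ M.CO) (hpν : p ∈ PT nm ν) (hl : IsS p.l) (hμp : μ ∈ p.F) (hq : Good M b μ q)
    (hqp : q ≤ p.res μ) (hh : Harm b σ μ m p) {X : Name K Θ} (hX : X ∈ M.XX ν) {β γ v : K} (hβ : β < M.δ)
    (hγ : γ < M.δ) (hv : v < M.δ) :
    ∃ d ∈ M.CO, d ∈ Dec (PT nm ν) (X β γ) ∧ IsS d.l ∧ d ≤ p ∧ q ≤ d.res μ ∧ Harm b σ μ m d ∧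
      (v < d.l → ∀ u, p.l ≤ u → u ≤ v → d.g μ u ≠ m) := by
  have hS := M.sE μ hμ ν hν h m p hp X hX β γ hβ hγ
  obtain ⟨t, htCO, hqt, htP, htD⟩ := hq.gen _ hS β γ hβ hγ
  have htS : t ∈ SEX nm μ ν m p (X β γ) β γ := by
    rcases htD with h1 | h1
    · exact h1
    · exfalso
      obtain ⟨t', ht'P, ht'q, α, hα⟩ := dense_SC h m hpν hl hμp hq.mem hqp (X β γ) (M.opn ν X hX β γ)
      exact h1 t' ht'P (ht'q.trans hqt) (Or.inl ⟨α, hα⟩)
  have hSC : ∃ α, SC nm μ ν m p (X β γ) α t := by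
    rcases htS with h1 | h1
    · exact h1
    · exact absurd hqp (h1 q hq.mem hqt)
  obtain ⟨α, hαδ, ⟨v0, hv0⟩, hα⟩ := M.sES μ hμ ν hν h m p hp X hX β γ hβ hγ t htCO hSC
  obtain ⟨v1, hv1, hv1'⟩ : ∃ v1, v1 < α ∧ (v < α → v ≤ v1) := by
    rcases lt_or_ge v α with h1 | h1
    · exact ⟨v, h1, fun _ => le_rfl⟩
    · exact ⟨v0, hv0, fun h2 => absurd h2 (not_lt.2 h1)⟩
  obtain ⟨i0, hi0⟩ := hb.cof α hαδ
  obtain ⟨v', hv'α, hv1v', hv'b⟩ := Sb_max b hv1 i0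
  obtain ⟨d, hdCO, hdD, hdS, hdp, hdα, hdg, htd⟩ := hα v' hv'α
  have hbv : ∀ i, b i < α → b i ≤ v' := by
    intro i hi
    exact hv'b i (hb.mono.lt_iff_lt.1 (hi.trans hi0)) hi
  refine ⟨d, hdCO, hdD, hdS, hdp, hqt.trans htd, ?_, ?_⟩
  · intro i hi him
    rcases lt_or_ge (b i) p.l with h1 | h1
    · have h2 : d.g μ (b i) = p.g μ (b i) := (le_def.1 hdp).2.2.2 μ hμp (b i) h1
      exact hh i h1 (h2.symm.trans him)
    · exact absurd him (hdg (b i) h1 (hbv i (hi.trans_le hdα)) hi)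
  · intro hvd u hu huv
    exact hdg u hu (huv.trans ((hv1' (hvd.trans_le hdα)).trans hv1v')) (huv.trans_lt hvd)

end Pool.Agent.Lib.MP_d41870_lc.HM
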