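import Pool.Agent.Lib.MP_d41870_lc.HM.Ga

/-! Successor stages: the colour. -/

set_option autoImplicit false
set_option linter.unusedSectionVars false

namespace Pool.Agent.Lib.MP_d41870_lc.HM

open Set

variable {K Θ : Type} [LinearOrder K] [W1 K] [LinearOrder Θ] [WellFoundedLT Θ] [OrderBot Θ] {nm : Θ → Nm K Θ}
  {M : Mod nm} {b : ℕ → K}

/-- Row Sc.  PROOF.  If it fails for `τ = True` and `τ = False` there are `Y₁`, `i₁` and `Y₂`, `i₂`; let `Y = andX Y₁ Y₂ ∈ M.XX μ` (`M.and`);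
`q ∈ Y M.δ (max γ₁ γ₂)`; `hq.good` (with `r = q`) gives `i ≥ max i₁ i₂`, `γ ≤ b (i+1)` with `q ∈ Y (b i) γ`, so `q` is in `Y₁ (b i) γ'` and `Y₂ (b i) γ''` with `γ', γ'' ≤ γ`; `σ i` or
`¬ σ i`: contradiction. -/
theorem exists_tau {μ : Θ} (hμ : μ ∈ M.TH) {q : Cond K Θ} (hq : Good M b μ q) (σ : ℕ → Prop) :
    ∃ τ : Prop, ∀ Y ∈ M.XX μ, (∃ γ, q ∈ Y M.δ γ) →
      ∀ i₀, ∃ i, i₀ ≤ i ∧ (σ i ↔ τ) ∧ ∃ γ, γ ≤ b (i + 1) ∧ q ∈ Y (b i) γ := by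
  by_contra hcon
  have key : ∀ τ : Prop, ∃ Y ∈ M.XX μ, (∃ γ, q ∈ Y M.δ γ) ∧
      ∃ i₀, ∀ i, i₀ ≤ i → (σ i ↔ τ) → ∀ γ, γ ≤ b (i + 1) → q ∉ Y (b i) γ := by
    intro τ
    by_contra h
    refine hcon ⟨τ, fun Y hY hγ i₀ => ?_⟩
    by_contra h2
    refine h ⟨Y, hY, hγ, i₀, fun i hi hσ γ hγ' hq' => h2 ⟨i, hi, hσ, γ, hγ', hq'⟩⟩
  obtain ⟨Y₁, hY₁, ⟨γ₁, hγ₁⟩, i₁, h₁⟩ := key True
  obtain ⟨Y₂, hY₂, ⟨γ₂, hγ₂⟩, i₂, h₂⟩ := key False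
  have hm : q ∈ andX Y₁ Y₂ M.δ (max γ₁ γ₂) :=
    ⟨⟨γ₁, le_max_left _ _, hγ₁⟩, ⟨γ₂, le_max_right _ _, hγ₂⟩⟩
  obtain ⟨i, hi, γ, hγ, ⟨γ', hγ', hq₁⟩, ⟨γ'', hγ'', hq₂⟩⟩ :=
    hq.good (andX Y₁ Y₂) (M.and μ hμ Y₁ hY₁ Y₂ hY₂) ⟨q, hq.mem, le_rfl, _, hm⟩ (max i₁ i₂)
  by_cases hσ : σ i
  · exact h₁ i ((le_max_left _ _).trans hi) (by simp [hσ]) γ' (hγ'.trans hγ) hq₁
  · exact h₂ i ((le_max_right _ _).trans hi) (by simp [hσ]) γ'' (hγ''.trans hγ) hq₂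

end Pool.Agent.Lib.MP_d41870_lc.HM
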